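import Mathlib

/-!
Shared definitions for the proof of S11249 (MP_c2297e_co).
-/

set_option autoImplicit false

namespace Pool.Agent.RelH

open Finset

/-- mod-2 chains on finite subsets of `X` (augmented: the empty set is a simplex) -/
abbrev Ch (X : Type*) := Finset X →₀ ZMod 2

/-- boundary -/
noncomputable def bd {X : Type*} [DecidableEq X] : Ch X →ₗ[ZMod 2] Ch X :=
  Finsupp.lsum (ZMod 2) fun s =>
    LinearMap.toSpanSingleton (ZMod 2) (Ch X) (∑ x ∈ s, Finsupp.single (s.erase x) 1)

theorem bd_single {X : Type*} [DecidableEq X] (s : Finset X) :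
    bd (Finsupp.single s (1 : ZMod 2)) = ∑ x ∈ s, Finsupp.single (s.erase x) 1 := by
  simp [bd]

/-- `LinkAc K m`: for every face `G` of `K`, every mod-2 cycle on the link of `G` all of whose
simplices have dimension `< m - |G|` (i.e. card + |G| ≤ m) bounds in the link. -/
def LinkAc {n : ℕ} (K : Finset (Finset (Fin n))) (m : ℕ) : Prop :=
  ∀ G ∈ K, ∀ z : Ch (Fin n),
    (∀ s ∈ z.support, Disjoint s G ∧ s ∪ G ∈ K ∧ s.card + G.card ≤ m) → bd z = 0 →
    ∃ w : Ch (Fin n), (∀ s ∈ w.support, Disjoint s G ∧ s ∪ G ∈ K) ∧ bd w = z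

/-- down-closed family -/
def Down {n : ℕ} (K : Finset (Finset (Fin n))) : Prop :=
  ∀ G ∈ K, ∀ H : Finset (Fin n), H ⊆ G → H ∈ K

variable {n : ℕ} {F : Type*} [Field F]

/-- linear forms with coefficient table `c` -/
noncomputable def lf (c : ℕ → Fin n → F) (j : ℕ) : MvPolynomial (Fin n) F :=
  ∑ u, MvPolynomial.C (c j u) * MvPolynomial.X u

/-- nondegeneracy: on every face `G` with at most `M` vertices the first `|G|` forms are
linearly independent -/
def NonDeg (c : ℕ → Fin n → F) (K : Finset (Finset (Fin n))) (M : ℕ) : Prop :=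
  ∀ G ∈ K, G.card ≤ M → ∀ g : Fin n → F, (∀ u, u ∉ G → g u = 0) →
    (∀ j < G.card, ∑ u, c j u * g u = 0) → g = 0

/-- monomial ideal attached to an up-closed family `N` (given as predicate) of supports -/
def famI (F : Type*) [Field F] (N : Finset (Fin n) → Prop) (hN : ∀ s t, N s → s ⊆ t → N t) :
    Ideal (MvPolynomial (Fin n) F) where
  carrier := {f | ∀ a ∈ f.support, N a.support}
  add_mem' := by
    intro f g hf hg a ha
    classical
    rcases Finset.mem_union.1 (MvPolynomial.support_add ha) with h | h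
    · exact hf a h
    · exact hg a h
  zero_mem' := by simp
  smul_mem' := by
    intro r f hf a ha
    classical
    have := MvPolynomial.support_mul r f (by simpa [smul_eq_mul] using ha)
    rcases Finset.mem_add.1 this with ⟨b, hb, c, hc, rfl⟩
    refine hN _ _ (hf c hc) ?_
    intro x hx
    simp only [Finsupp.mem_support_iff, Finsupp.coe_add, Pi.add_apply] at hx ⊢
    omega

theorem mem_famI {N : Finset (Fin n) → Prop} {hN : ∀ s t, N s → s ⊆ t → N t}
    {f : MvPolynomial (Fin n) F} : f ∈ famI F N hN ↔ ∀ a ∈ f.support, N a.support := Iff.rfl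

/-- relative regularity of the sequence `θ 0, …, θ (k-1)` on the module `A / B`
(`B ≤ A` ideals of a commutative ring). -/
def RegAB {R : Type*} [CommRing R] (θ : ℕ → R) (k : ℕ) (A B : Ideal R) : Prop :=
  ∀ j < k, ∀ f ∈ A, θ j * f ∈ B ⊔ Ideal.span (θ '' Set.Iio j) * A →
    f ∈ B ⊔ Ideal.span (θ '' Set.Iio j) * A

end Pool.Agent.RelH
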