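import Pool.Agent.Lib_helper41.Hilbert
import Pool.Agent.Lib_helper83.BallCM.Sperner
import Pool.Agent.Lib_helper83.BallCM.Functional

/-!
Final assembly: local h-numbers of topological subdivisions are positive.
-/

set_option autoImplicit false

namespace Pool.Agent.RelH

open Finset MvPolynomial

variable {d n : ℕ} {Γ : Finset (Finset (Fin n))} {σ : Finset (Fin n) → Finset (Fin d)}

theorem bd_eq_dS : (bd : Ch (Fin n) →ₗ[ZMod 2] Ch (Fin n)) = BallCM.dS := by
  refine Finsupp.lhom_ext' fun s => ?_
  refine LinearMap.ext_ring ?_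
  rw [LinearMap.comp_apply, LinearMap.comp_apply, Finsupp.lsingle_apply, bd_single,
    BallCM.dS_single]

theorem bd_apply (z : Ch (Fin n)) (E : Finset (Fin n)) :
    bd z E = ∑ v ∈ Finset.univ \ E, z (insert v E) := by
  rw [bd_eq_dS]
  exact BallCM.dS_apply z E

theorem bd_comp_zero (z : Ch (Fin n)) : bd (comp 0 z) = 0 := by
  ext E
  rw [bd_apply]
  refine Finset.sum_eq_zero fun v _ => ?_
  by_contra h
  have := (mem_comp (Finsupp.mem_support_iff.2 h)).2
  rw [Finset.card_eq_zero] at this
  exact Finset.insert_ne_empty v E this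

theorem linkAc_of_hCM (hmono : ∀ G ∈ Γ, ∀ H : Finset (Fin n), H ⊆ G → σ H ⊆ σ G)
    (W : Finset (Fin d)) (hW : W.Nonempty)
    (hCM : ∀ G ∈ Γ, σ G ⊆ W → ∀ k < W.card,
      ∀ z : Finset (Fin n) → ZMod 2,
        (∀ F, z F ≠ 0 → F ∈ Γ ∧ σ F ⊆ W ∧ G ⊆ F ∧ F.card = k) →
        (∀ E, G ⊆ E → ∑ v ∈ Finset.univ \ E, z (insert v E) = 0) →
        ∃ u : Finset (Fin n) → ZMod 2,
          (∀ F, u F ≠ 0 → F ∈ Γ ∧ σ F ⊆ W ∧ G ⊆ F ∧ F.card = k + 1) ∧
          ∀ F, G ⊆ F → ∑ v ∈ Finset.univ \ F, u (insert v F) = z F) :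
    LinkAc (Γ.filter (fun s => σ s ⊆ W)) (W.card - 1) := by
  classical
  intro G hG z hz hbz
  have hWc : 0 < W.card := Finset.card_pos.2 hW
  rw [Finset.mem_filter] at hG
  -- homogeneous pieces
  have key : ∀ c : ℕ, ∃ w : Ch (Fin n), (∀ s ∈ w.support, Disjoint s G ∧
      s ∪ G ∈ Γ.filter (fun s => σ s ⊆ W)) ∧ bd w = comp c z := by
    intro c
    by_cases hc : c + G.card ≤ W.card - 1
    · have hcyc : bd (comp c z) = 0 := by
        cases c with
        | zero => exact bd_comp_zero z
        | succ c =>
          rw [bd_comp, hbz]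
          unfold comp
          exact Finsupp.filter_zero _
      have hzc : ∀ s, comp c z s ≠ 0 → Disjoint s G ∧ s ∪ G ∈ Γ.filter (fun s => σ s ⊆ W) ∧
          s.card = c := by
        intro s hs
        have h1 := mem_comp (Finsupp.mem_support_iff.2 hs)
        obtain ⟨h2, h3, h4⟩ := hz s h1.1
        exact ⟨h2, h3, h1.2⟩
      obtain ⟨u, hu1, hu2⟩ := hCM G hG.1 hG.2 (c + G.card) (by omega)
        (fun F => if G ⊆ F then comp c z (F \ G) else 0) (by
          intro F hF
          by_cases hGF : G ⊆ F
          · simp only [hGF, if_true] at hF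
            obtain ⟨h1, h2, h3⟩ := hzc _ hF
            rw [Finset.sdiff_union_of_subset hGF, Finset.mem_filter] at h2
            refine ⟨h2.1, h2.2, hGF, ?_⟩
            have := Finset.card_sdiff_add_card_eq_card hGF
            omega
          · simp [hGF] at hF) (by
          intro E hGE
          have h1 : ∑ v ∈ Finset.univ \ E, (if G ⊆ insert v E then
              comp c z (insert v E \ G) else 0) = bd (comp c z) (E \ G) := by
            rw [bd_apply]
            rw [← Finset.sum_subset (s₁ := Finset.univ \ E) (s₂ := Finset.univ \ (E \ G))]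
            · refine Finset.sum_congr rfl fun v hv => ?_
              rw [if_pos (hGE.trans (Finset.subset_insert v E))]
              rw [Finset.insert_sdiff_of_notMem]
              intro hvG
              exact (Finset.mem_sdiff.1 hv).2 (hGE hvG)
            · exact Finset.sdiff_subset_sdiff le_rfl Finset.sdiff_subset
            · intro v hv hv'
              by_contra hne
              have h2 := (hzc _ hne).1
              have hvE : v ∈ E := by
                by_contra h3
                exact hv' (Finset.mem_sdiff.2 ⟨Finset.mem_univ _, h3⟩)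
              have hvG : v ∈ G := by
                by_contra h3
                exact (Finset.mem_sdiff.1 hv).2 (Finset.mem_sdiff.2 ⟨hvE, h3⟩)
              exact Finset.disjoint_left.1 h2 (Finset.mem_insert_self v _) hvG
          rw [h1, hcyc]
          rfl)
      refine ⟨Finsupp.equivFunOnFinite.symm (fun s => if Disjoint s G then u (s ∪ G) else 0),
        ?_, ?_⟩
      · intro s hs
        rw [Finsupp.mem_support_iff, Finsupp.equivFunOnFinite_symm_apply_apply] at hs
        by_cases hd : Disjoint s G
        · rw [if_pos hd] at hs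
          obtain ⟨h1, h2, -, -⟩ := hu1 _ hs
          exact ⟨hd, Finset.mem_filter.2 ⟨h1, h2⟩⟩
        · rw [if_neg hd] at hs
          exact absurd rfl hs
      · ext E
        rw [bd_apply]
        simp only [Finsupp.equivFunOnFinite_symm_apply_apply]
        by_cases hd : Disjoint E G
        · have h1 := hu2 (E ∪ G) Finset.subset_union_right
          rw [if_pos Finset.subset_union_right] at h1
          have h2 : (E ∪ G) \ G = E := by
            rw [Finset.union_sdiff_right]
            exact Finset.sdiff_eq_self_of_disjoint hd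
          rw [h2] at h1
          rw [← h1]
          symm
          rw [← Finset.sum_subset (s₁ := Finset.univ \ (E ∪ G)) (s₂ := Finset.univ \ E)]
          · refine Finset.sum_congr rfl fun v hv => ?_
            rw [if_pos, Finset.insert_union]
            rw [Finset.disjoint_insert_left]
            refine ⟨?_, hd⟩
            intro hvG
            exact (Finset.mem_sdiff.1 hv).2 (Finset.mem_union_right _ hvG)
          · exact Finset.sdiff_subset_sdiff le_rfl Finset.subset_union_left
          · intro v hv hv'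
            have hvG : v ∈ G := by
              by_contra h3
              apply hv'
              rw [Finset.mem_sdiff, Finset.mem_union]
              refine ⟨Finset.mem_univ _, ?_⟩
              rintro (h4 | h4)
              · exact (Finset.mem_sdiff.1 hv).2 h4
              · exact h3 h4
            rw [if_neg]
            intro h4
            exact Finset.disjoint_left.1 h4 (Finset.mem_insert_self v E) hvG
        · have h1 : comp c z E = 0 := by
            by_contra hne
            exact hd (hzc _ hne).1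
          rw [h1]
          refine Finset.sum_eq_zero fun v _ => ?_
          rw [if_neg]
          intro h2
          exact hd (Finset.disjoint_of_subset_left (Finset.subset_insert v E) h2)
    · refine ⟨0, by simp, ?_⟩
      rw [map_zero]
      symm
      ext s
      by_contra hne
      have h1 := mem_comp (Finsupp.mem_support_iff.2 hne)
      have h2 := (hz s h1.1).2.2
      rw [h1.2] at h2
      exact hc h2
  choose w hw1 hw2 using key
  refine ⟨∑ c ∈ Finset.range (n + 1), w c, ?_, ?_⟩
  · intro s hs
    have h1 := Finsupp.support_finsetSum hs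
    rw [Finset.mem_biUnion] at h1
    obtain ⟨c, -, hc⟩ := h1
    exact hw1 c s hc
  · rw [map_sum, Finset.sum_congr rfl fun c _ => hw2 c]
    ext s
    rw [Finsupp.finsetSum_apply]
    unfold comp
    simp only [Finsupp.filter_apply]
    rw [Finset.sum_ite_eq]
    rw [if_pos]
    rw [Finset.mem_range]
    have := Finset.card_le_univ s
    simp only [Fintype.card_fin] at this
    omega

theorem nonDeg_vandermonde {F : Type*} [Field F] (a : Fin n → F) (ha : Function.Injective a)
    (K : Finset (Finset (Fin n))) (M : ℕ) : NonDeg (fun j u => a u ^ j) K M := by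
  intro G _ _ g hg hsum
  have e : Fin G.card ≃ G := G.equivFin.symm
  have h1 := Matrix.eq_zero_of_forall_pow_sum_mul_pow_eq_zero
    (f := fun i => a (e i)) (v := fun i => g (e i)) (by
      intro i j hij
      exact e.injective (Subtype.ext (ha hij))) (by
      intro i
      have h2 := hsum i i.2
      have h3 : ∑ j, g (e j) * a (e j) ^ (i : ℕ) = ∑ u : G, g u * a u ^ (i : ℕ) :=
        Equiv.sum_comp e (fun u : G => g u * a u ^ (i : ℕ))
      rw [h3, Finset.sum_coe_sort G (fun u => g u * a u ^ (i : ℕ)), ← h2]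
      rw [← Finset.sum_subset (Finset.subset_univ G)]
      · exact Finset.sum_congr rfl fun u _ => mul_comm _ _
      · intro u _ hu
        rw [hg u hu, mul_zero])
  ext u
  by_cases hu : u ∈ G
  · have h2 := congrFun h1 (e.symm ⟨u, hu⟩)
    simpa using h2
  · exact hg u hu

/-- multiplication by a squarefree monomial shifts supports -/
theorem prod_X_eq {F : Type*} [Field F] (T : Finset (Fin n)) :
    (∏ u ∈ T, X u : MvPolynomial (Fin n) F) = monomial (∑ u ∈ T, Finsupp.single u 1) 1 := by
  classical
  induction T using Finset.induction_on with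
  | empty => simp
  | insert v T hv ih =>
    rw [Finset.prod_insert hv, Finset.sum_insert hv, ih, X, monomial_mul, one_mul]

theorem supp_sum_single (T : Finset (Fin n)) :
    (∑ u ∈ T, Finsupp.single u 1 : Fin n →₀ ℕ).support = T := by
  classical
  ext v
  rw [Finsupp.mem_support_iff, Finsupp.finsetSum_apply]
  simp only [Finsupp.single_apply]
  rw [Finset.sum_ite_eq']
  by_cases hv : v ∈ T
  · simp [hv]
  · simp [hv]

theorem mul_prod_mem {F : Type*} [Field F] {N N' : Finset (Fin n) → Prop}
    {hN : ∀ s t, N s → s ⊆ t → N t} {hN' : ∀ s t, N' s → s ⊆ t → N' t} (T : Finset (Fin n))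
    (h : ∀ s, N s → N' (T ∪ s)) (f : MvPolynomial (Fin n) F) (hf : f ∈ famI F N hN) :
    (∏ u ∈ T, X u) * f ∈ famI F N' hN' := by
  classical
  rw [f.as_sum, Finset.mul_sum]
  refine Ideal.sum_mem _ fun a ha => ?_
  rw [prod_X_eq, monomial_mul]
  refine monomial_mem_famI ?_
  have h1 : ((∑ u ∈ T, Finsupp.single u 1) + a : Fin n →₀ ℕ).support = T ∪ a.support := by
    ext v
    rw [Finset.mem_union, Finsupp.mem_support_iff, Finsupp.add_apply]
    have h2 := supp_sum_single T
    have h3 : v ∈ T ↔ (∑ u ∈ T, Finsupp.single u 1 : Fin n →₀ ℕ) v ≠ 0 := by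
      rw [← Finsupp.mem_support_iff, h2]
    rw [h3, Finsupp.mem_support_iff]
    omega
  rw [h1]
  exact h _ (hf a ha)

theorem positivity_main (hdown : ∀ G ∈ Γ, ∀ H : Finset (Fin n), H ⊆ G → H ∈ Γ)
    (hσ0 : σ ∅ = ∅) (hmono : ∀ G ∈ Γ, ∀ H : Finset (Fin n), H ⊆ G → σ H ⊆ σ G)
    (htop : BallCM.TopHyp d n Γ σ) (S : Finset (Fin d)) (hS : 1 ≤ S.card) :
    0 < ∑ k ∈ Finset.range (S.card + 1),
        (-1 : ℤ) ^ (S.card - k) * ((Nat.choose (d - k) (S.card - k) : ℕ) : ℤ) *
          ((Γ.filter (fun G => G.card = k ∧ S ⊆ σ G)).card : ℤ) := by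
  classical
  obtain ⟨v0, -⟩ : S.Nonempty := Finset.card_pos.1 (by omega)
  have h0 : ∅ ∈ Γ := BallCM.hne_of_top v0 hdown htop
  have hσne := BallCM.hσne_of_top v0 htop
  have hCM := BallCM.hCM_of_top hdown hmono htop
  have hSd : S.card ≤ d := by simpa using Finset.card_le_univ S
  -- labels
  have hLex : ∀ v : Fin n, ∃ l : Fin d, {v} ∈ Γ → l ∈ σ {v} := by
    intro v
    by_cases hv : {v} ∈ Γ
    · obtain ⟨l, hl⟩ := hσne {v} hv (Finset.singleton_nonempty v)
      exact ⟨l, fun _ => hl⟩
    · exact ⟨v0, fun h => absurd h hv⟩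
  choose L hL using hLex
  obtain ⟨cV, hc1, hc2, G0, hG0, hG0L, hG0c⟩ := BallCM.sperner h0 hσ0 hdown hmono hCM L hL
  have hG0Γ : G0 ∈ Γ := (hc1 G0 hG0).1
  -- the field
  let F := AlgebraicClosure (ZMod 2)
  let a : Fin n → F := fun u => Infinite.natEmbedding F u
  have ha : Function.Injective a := by
    intro u v huv
    exact Fin.ext ((Infinite.natEmbedding F).injective huv)
  have hb : ∀ u, Infinite.natEmbedding F n ≠ a u := by
    intro u hu
    have := (Infinite.natEmbedding F).injective hu
    have h2 := u.2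
    omega
  let c : ℕ → Fin n → F := fun j u => a u ^ j
  -- regularity
  have hreg0 : ∀ W : Finset (Fin d), RegAB (lf c) W.card ⊤
      (famI F (fun s => ¬(s ∈ Γ ∧ σ s ⊆ W)) (upB Γ σ hdown hmono W)) := by
    intro W
    rcases W.eq_empty_or_nonempty with hW | hW
    · subst hW
      intro j hj
      simp at hj
    · have hWc : 0 < W.card := Finset.card_pos.2 hW
      have hK : ∀ s, s ∉ Γ.filter (fun s => σ s ⊆ W) ↔ ¬(s ∈ Γ ∧ σ s ⊆ W) := by
        intro s
        rw [Finset.mem_filter]
      have hup : ∀ s t : Finset (Fin n), s ∉ Γ.filter (fun s => σ s ⊆ W) → s ⊆ t →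
          t ∉ Γ.filter (fun s => σ s ⊆ W) := by
        intro s t hs hst
        rw [hK] at hs ⊢
        exact upB Γ σ hdown hmono W s t hs hst
      have h1 := cm_reg c (Γ.filter (fun s => σ s ⊆ W)) (by
          intro G hG H hHG
          rw [Finset.mem_filter] at hG ⊢
          exact ⟨hdown G hG.1 H hHG, (hmono G hG.1 H hHG).trans hG.2⟩)
        (Finset.mem_filter.2 ⟨h0, by rw [hσ0]; exact Finset.empty_subset _⟩) (W.card - 1)
        (linkAc_of_hCM hmono W hW (hCM W hW)) (nonDeg_vandermonde a ha _ _) hup
      have h2 : famI F (fun s => s ∉ Γ.filter (fun s => σ s ⊆ W)) hup =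
          famI F (fun s => ¬(s ∈ Γ ∧ σ s ⊆ W)) (upB Γ σ hdown hmono W) :=
        le_antisymm (famI_mono fun s => (hK s).1) (famI_mono fun s => (hK s).2)
      rw [h2] at h1
      have h3 : W.card - 1 + 1 = W.card := by omega
      rwa [h3] at h1
  have hreg1 := rel_reg Γ σ hdown hmono c hreg0 S Finset.univ (Finset.subset_univ S)
  have hAS : ∀ s t : Finset (Fin n), (s ∈ Γ → S ⊆ σ s) → s ⊆ t → (t ∈ Γ → S ⊆ σ t) := by
    intro s t h hst ht
    exact (h (hdown t ht s hst)).trans (hmono t ht s hst)
  have hAV : ∀ s t : Finset (Fin n), (s ∈ Γ → σ s = Finset.univ) → s ⊆ t →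
      (t ∈ Γ → σ t = Finset.univ) := by
    intro s t h hst ht
    have := (h (hdown t ht s hst)).symm.subset.trans (hmono t ht s hst)
    exact Finset.univ_subset_iff.1 this
  have hBu : ∀ s t : Finset (Fin n), s ∉ Γ → s ⊆ t → t ∉ Γ := by
    intro s t hs hst ht
    exact hs (hdown t ht s hst)
  have hreg : RegAB (lf c) d (famI F (fun s => s ∈ Γ → S ⊆ σ s) hAS)
      (famI F (fun s => s ∉ Γ) hBu) := by
    have h1 : famI F (fun s => s ∈ Γ → σ s ⊆ Finset.univ → S ⊆ σ s)
        (upA Γ σ hdown hmono Finset.univ S) = famI F (fun s => s ∈ Γ → S ⊆ σ s) hAS :=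
      le_antisymm (famI_mono fun s h h' => h h' (Finset.subset_univ _))
        (famI_mono fun s h h' _ => h h')
    have h2 : famI F (fun s => ¬(s ∈ Γ ∧ σ s ⊆ Finset.univ))
        (upB Γ σ hdown hmono Finset.univ) = famI F (fun s => s ∉ Γ) hBu :=
      le_antisymm (famI_mono fun s h h' => h ⟨h', Finset.subset_univ _⟩)
        (famI_mono fun s h h' => h h'.1)
    rw [h1, h2, Finset.card_univ, Fintype.card_fin] at hreg1
    exact hreg1
  -- the monomial
  let GS : Finset (Fin n) := G0.filter (fun u => L u ∈ S)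
  have hinj : Set.InjOn L G0 := by
    rw [← Finset.card_image_iff, hG0L, Finset.card_univ, Fintype.card_fin, hG0c]
  have hGSsub : GS ⊆ G0 := Finset.filter_subset _ _
  have himg : GS.image L = S := by
    ext x
    rw [Finset.mem_image]
    constructor
    · rintro ⟨u, hu, rfl⟩
      exact (Finset.mem_filter.1 hu).2
    · intro hx
      have : x ∈ G0.image L := by rw [hG0L]; exact Finset.mem_univ x
      obtain ⟨u, hu, rfl⟩ := Finset.mem_image.1 this
      exact ⟨u, Finset.mem_filter.2 ⟨hu, hx⟩, rfl⟩
  have hGScard : GS.card = S.card := by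
    rw [← himg, Finset.card_image_of_injOn (hinj.mono (by exact_mod_cast hGSsub))]
  have hLmem : ∀ s ∈ Γ, ∀ u ∈ s, L u ∈ σ s := by
    intro s hs u hu
    have h1 : {u} ⊆ s := Finset.singleton_subset_iff.2 hu
    exact hmono s hs {u} h1 (hL u (hdown s hs {u} h1))
  have hmS : (∏ u ∈ GS, X u : MvPolynomial (Fin n) F) ∈ famI F (fun s => s ∈ Γ → S ⊆ σ s) hAS := by
    rw [prod_X_eq]
    refine monomial_mem_famI ?_
    rw [supp_sum_single]
    intro hGS x hx
    rw [← himg] at hx
    obtain ⟨u, hu, rfl⟩ := Finset.mem_image.1 hx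
    exact hLmem GS hGS u hu
  have hhom : (∏ u ∈ GS, X u : MvPolynomial (Fin n) F).IsHomogeneous S.card := by
    have := IsHomogeneous.prod GS (fun u => (X u : MvPolynomial (Fin n) F)) (fun _ => 1)
      (fun u _ => isHomogeneous_X F u)
    rw [Finset.sum_const, smul_eq_mul, mul_one, hGScard] at this
    exact this
  refine hilbert_pos c Γ (fun s => S ⊆ σ s) d S.card hSd hAS hBu hreg
    (∏ u ∈ GS, X u : MvPolynomial (Fin n) F) hmS hhom ?_
  intro hmem
  have hfun := functional a ha (Infinite.natEmbedding F n) hb Γ hdown (fun s => σ s = Finset.univ)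
    (by
      intro s t ht hs hst
      exact Finset.univ_subset_iff.1 (hs.symm.subset.trans (hmono t ht s hst)))
    d cV (fun s hs => (hc1 s (Finsupp.mem_support_iff.1 hs)).2)
    (fun s hs => (hc1 s (Finsupp.mem_support_iff.1 hs)).1)
    (by
      intro s hs
      rw [bd_eq_dS] at hs
      exact hc2 s (Finsupp.mem_support_iff.1 hs)) G0 (Finsupp.mem_support_iff.2 hG0) hAV hBu
  apply hfun
  rw [← LL_eq] at hmem ⊢
  have hsplit : (∏ u ∈ G0, X u : MvPolynomial (Fin n) F) =
      (∏ u ∈ G0 \ GS, X u) * ∏ u ∈ GS, X u := by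
    rw [Finset.prod_sdiff hGSsub]
  rw [hsplit]
  exact map_LL (LinearMap.mulLeft (MvPolynomial (Fin n) F)
      (∏ u ∈ G0 \ GS, X u : MvPolynomial (Fin n) F))
    (A' := famI F (fun s => s ∈ Γ → σ s = Finset.univ) hAV)
    (B' := famI F (fun s => s ∉ Γ) hBu)
    (by
      intro x hx
      rw [LinearMap.mulLeft_apply]
      refine mul_prod_mem (G0 \ GS) ?_ x hx
      intro s hs hT
      have h1 := hs (hdown _ hT s Finset.subset_union_right)
      rw [Finset.eq_univ_iff_forall]
      intro v
      by_cases hv : v ∈ S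
      · exact hmono _ hT s Finset.subset_union_right (h1 hv)
      · have : v ∈ G0.image L := by rw [hG0L]; exact Finset.mem_univ v
        obtain ⟨u, hu, rfl⟩ := Finset.mem_image.1 this
        refine hLmem _ hT u (Finset.mem_union_left _ (Finset.mem_sdiff.2 ⟨hu, ?_⟩))
        intro h2
        exact hv (Finset.mem_filter.1 h2).2)
    (by
      intro x hx
      rw [LinearMap.mulLeft_apply]
      exact Ideal.mul_mem_left _ _ hx) d _ hmem

end Pool.Agent.RelH
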