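import Mathlib

/-!
MP_859019_mp, project A1: the exact algebraic identity for `2Q - B`.

`S₀, S₁ > 0` with `Sᵢ J Sᵢ J = 1` and `Hᵢ Sᵢ J = J Sᵢ Hᵢ`; `D = S₁ - S₀`, `Y = -(D J)²`.
Then `2 Tr H₀ D = Tr H₀ D S₁⁻¹ D`, `-2 Tr H₁ D = Tr H₁ D S₀⁻¹ D` and, for every complex `σ`,
`4 (2 Tr H₀ D + Tr H₁ D) = Tr H₁ (Y S₁ Yᴴ) + 2 Tr (2H₀ - H₁ + σJ) (D S₁⁻¹ D)`.
-/

set_option autoImplicit false

namespace Pool.Agent.A1Alg2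

open Matrix
open scoped ComplexOrder

variable {n : Type*} [Fintype n] [DecidableEq n]

theorem alg2_inv {J S : Matrix n n ℂ} (h : S * J * S * J = 1) :
    J * S * J * S = 1 ∧ S⁻¹ = J * S * J := by
  have h1 : S * (J * S * J) = 1 := by
    rw [← h]; simp only [Matrix.mul_assoc]
  have h2 : (J * S * J) * S = 1 := mul_eq_one_comm.mp h1
  exact ⟨h2, Matrix.inv_eq_right_inv h1⟩

theorem alg2_swap {J S H X : Matrix n n ℂ} (h : S * J * S * J = 1) (c : H * S * J = J * S * H) :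
    (H * (S * J * X * J * S)).trace = (H * X).trace := by
  have hj := (alg2_inv h).1
  calc (H * (S * J * X * J * S)).trace = ((H * S * J) * (X * J * S)).trace := by
        simp only [Matrix.mul_assoc]
    _ = ((J * S * H) * (X * J * S)).trace := by rw [c]
    _ = ((J * S) * (H * (X * J * S))).trace := by simp only [Matrix.mul_assoc]
    _ = ((H * (X * J * S)) * (J * S)).trace := Matrix.trace_mul_comm _ _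
    _ = (H * X * (J * S * J * S)).trace := by simp only [Matrix.mul_assoc]
    _ = (H * X).trace := by rw [hj, Matrix.mul_one]

/-- `D S₁⁻¹ D = D + S₀ J D J S₀`. -/
theorem alg2_ys0 {J S₀ S₁ : Matrix n n ℂ} (h₀ : S₀ * J * S₀ * J = 1) (h₁ : S₁ * J * S₁ * J = 1) :
    (S₁ - S₀) * S₁⁻¹ * (S₁ - S₀) = (S₁ - S₀) + S₀ * J * (S₁ - S₀) * J * S₀ := by
  rw [(alg2_inv h₁).2]
  have a0 := (alg2_inv h₀).1
  have a1 := (alg2_inv h₁).1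
  have e1 : (S₁ - S₀) * (J * S₁ * J) * (S₁ - S₀)
      = (S₁ * J * S₁ * J) * S₁ - (S₁ * J * S₁ * J) * S₀ - S₀ * (J * S₁ * J * S₁)
        + S₀ * J * S₁ * J * S₀ := by noncomm_ring
  have e2 : (S₁ - S₀) + S₀ * J * (S₁ - S₀) * J * S₀
      = S₁ - S₀ + S₀ * J * S₁ * J * S₀ - (S₀ * J * S₀ * J) * S₀ := by noncomm_ring
  rw [e1, e2, h₀, h₁, a1]
  noncomm_ring

/-- `Y S₀ = D S₁⁻¹ D` for `Y = -(D J D J)`. -/
theorem alg2_y0 {J S₀ S₁ : Matrix n n ℂ} (h₀ : S₀ * J * S₀ * J = 1) (h₁ : S₁ * J * S₁ * J = 1) :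
    -((S₁ - S₀) * J * (S₁ - S₀) * J) * S₀ = (S₁ - S₀) * S₁⁻¹ * (S₁ - S₀) := by
  rw [alg2_ys0 h₀ h₁]
  have a0 := (alg2_inv h₀).1
  have a1 := (alg2_inv h₁).1
  have e1 : -((S₁ - S₀) * J * (S₁ - S₀) * J) * S₀
      = -((S₁ * J * S₁ * J) * S₀) + S₁ * (J * S₀ * J * S₀) + S₀ * J * S₁ * J * S₀
        - (S₀ * J * S₀ * J) * S₀ := by noncomm_ring
  have e2 : (S₁ - S₀) + S₀ * J * (S₁ - S₀) * J * S₀
      = S₁ - S₀ + S₀ * J * S₁ * J * S₀ - (S₀ * J * S₀ * J) * S₀ := by noncomm_ring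
  rw [e1, e2, h₀, h₁, a0]
  noncomm_ring

theorem alg2_y1 {J S₀ S₁ : Matrix n n ℂ} (h₀ : S₀ * J * S₀ * J = 1) (h₁ : S₁ * J * S₁ * J = 1) :
    -((S₁ - S₀) * J * (S₁ - S₀) * J) * S₁ = (S₁ - S₀) * S₀⁻¹ * (S₁ - S₀) := by
  have h := alg2_y0 h₁ h₀
  have e1 : -((S₀ - S₁) * J * (S₀ - S₁) * J) * S₁ = -((S₁ - S₀) * J * (S₁ - S₀) * J) * S₁ := by
    noncomm_ring
  have e2 : (S₀ - S₁) * S₀⁻¹ * (S₀ - S₁) = (S₁ - S₀) * S₀⁻¹ * (S₁ - S₀) := by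
    noncomm_ring
  rw [← e1, h, e2]

/-- the first divergence. -/
theorem alg2_Q {J S₀ S₁ H₀ : Matrix n n ℂ} (h₀ : S₀ * J * S₀ * J = 1)
    (h₁ : S₁ * J * S₁ * J = 1) (c₀ : H₀ * S₀ * J = J * S₀ * H₀) :
    2 * (H₀ * (S₁ - S₀)).trace = (H₀ * ((S₁ - S₀) * S₁⁻¹ * (S₁ - S₀))).trace := by
  rw [alg2_ys0 h₀ h₁, Matrix.mul_add, Matrix.trace_add, alg2_swap h₀ c₀]
  ring

/-- the second divergence. -/
theorem alg2_B {J S₀ S₁ H₁ : Matrix n n ℂ} (h₀ : S₀ * J * S₀ * J = 1)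
    (h₁ : S₁ * J * S₁ * J = 1) (c₁ : H₁ * S₁ * J = J * S₁ * H₁) :
    2 * (H₁ * (S₀ - S₁)).trace = (H₁ * ((S₁ - S₀) * S₀⁻¹ * (S₁ - S₀))).trace := by
  rw [alg2_Q h₁ h₀ c₁]
  have e2 : (S₀ - S₁) * S₀⁻¹ * (S₀ - S₁) = (S₁ - S₀) * S₀⁻¹ * (S₁ - S₀) := by
    noncomm_ring
  rw [e2]

/-- `Tr S₀ J = Tr S₁ J`: the two involutions are conjugate by `(S₀ + S₁) S₀⁻¹`. -/
theorem alg2_trZ {J S₀ S₁ : Matrix n n ℂ} (hS₀ : S₀.PosDef) (hS₁ : S₁.PosDef)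
    (h₀ : S₀ * J * S₀ * J = 1) (h₁ : S₁ * J * S₁ * J = 1) :
    (S₁ * J).trace = (S₀ * J).trace := by
  have a0 := (alg2_inv h₀).1
  have a1 := (alg2_inv h₁).1
  set W : Matrix n n ℂ := (S₀ + S₁) * (J * S₀ * J) with hW
  have hWe : W = 1 + S₁ * J * (S₀ * J) := by
    have : W = S₀ * J * S₀ * J + S₁ * J * (S₀ * J) := by
      rw [hW]; noncomm_ring
    rw [this, h₀]
  have hconj : (S₁ * J) * W = W * (S₀ * J) := by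
    rw [hWe]
    have e1 : (S₁ * J) * (1 + S₁ * J * (S₀ * J)) = S₁ * J + (S₁ * J * S₁ * J) * (S₀ * J) := by
      noncomm_ring
    have e2 : (1 + S₁ * J * (S₀ * J)) * (S₀ * J) = S₀ * J + S₁ * J * (S₀ * J * S₀ * J) := by
      noncomm_ring
    rw [e1, e2, h₀, h₁]
    noncomm_ring
  have hsum : IsUnit (S₀ + S₁) := (hS₀.add hS₁).isUnit
  have hinv : IsUnit (J * S₀ * J) := by
    have h1 : S₀ * (J * S₀ * J) = 1 := by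
      rw [← h₀]; simp only [Matrix.mul_assoc]
    exact IsUnit.of_mul_eq_one_right _ h1
  have hWu : IsUnit W := hsum.mul hinv
  have hdet : IsUnit W.det := (Matrix.isUnit_iff_isUnit_det W).mp hWu
  have e3 : S₁ * J = W * (S₀ * J) * W⁻¹ := by
    rw [← hconj, Matrix.mul_assoc, Matrix.mul_nonsing_inv W hdet, Matrix.mul_one]
  rw [e3, Matrix.trace_mul_comm, ← Matrix.mul_assoc, Matrix.nonsing_inv_mul W hdet,
    Matrix.one_mul]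

/-- `Tr J D S₁⁻¹ D = 0`. -/
theorem alg2_trJ {J S₀ S₁ : Matrix n n ℂ} (hS₀ : S₀.PosDef) (hS₁ : S₁.PosDef)
    (h₀ : S₀ * J * S₀ * J = 1) (h₁ : S₁ * J * S₁ * J = 1) :
    (J * ((S₁ - S₀) * S₁⁻¹ * (S₁ - S₀))).trace = 0 := by
  have hc : J * S₀ * J = J * S₀ * J := rfl
  have h := alg2_Q (H₀ := J) h₀ h₁ hc
  rw [← h, Matrix.mul_sub, Matrix.trace_sub, Matrix.trace_mul_comm J S₁,
    Matrix.trace_mul_comm J S₀, alg2_trZ hS₀ hS₁ h₀ h₁]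
  ring

/-- `Y S₁ J = S₁ J Y`. -/
theorem alg2_comm {J S₀ S₁ : Matrix n n ℂ} (h₀ : S₀ * J * S₀ * J = 1)
    (h₁ : S₁ * J * S₁ * J = 1) :
    -((S₁ - S₀) * J * (S₁ - S₀) * J) * (S₁ * J)
      = (S₁ * J) * -((S₁ - S₀) * J * (S₁ - S₀) * J) := by
  set E₀ := S₀ * J with hE0
  set E₁ := S₁ * J with hE1
  have q0 : E₀ * E₀ = 1 := by rw [hE0, ← Matrix.mul_assoc, h₀]
  have q1 : E₁ * E₁ = 1 := by rw [hE1, ← Matrix.mul_assoc, h₁]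
  have hz : (S₁ - S₀) * J * (S₁ - S₀) * J = (E₁ - E₀) * (E₁ - E₀) := by
    rw [hE0, hE1]; noncomm_ring
  rw [hz]
  have e1 : (E₁ - E₀) * (E₁ - E₀) = E₁ * E₁ + E₀ * E₀ - E₁ * E₀ - E₀ * E₁ := by noncomm_ring
  rw [e1, q0, q1]
  have e2 : -(1 + 1 - E₁ * E₀ - E₀ * E₁) * E₁
      = -E₁ - E₁ + E₁ * E₀ * E₁ + E₀ * (E₁ * E₁) := by noncomm_ring
  have e3 : E₁ * -(1 + 1 - E₁ * E₀ - E₀ * E₁)
      = -E₁ - E₁ + E₁ * E₀ * E₁ + (E₁ * E₁) * E₀ := by noncomm_ring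
  rw [e2, e3, q1]
  noncomm_ring

/-- `Y² S₁ = Y S₁ Yᴴ`. -/
theorem alg2_yy {J S₀ S₁ : Matrix n n ℂ} (hJ : J.IsHermitian) (hS₀ : S₀.IsHermitian)
    (hS₁ : S₁.IsHermitian) (h₀ : S₀ * J * S₀ * J = 1) (h₁ : S₁ * J * S₁ * J = 1) :
    -((S₁ - S₀) * J * (S₁ - S₀) * J) * S₁
      = S₁ * (-((S₁ - S₀) * J * (S₁ - S₀) * J))ᴴ := by
  have a1 := (alg2_inv h₁).1
  have hc := alg2_comm h₀ h₁
  have hD : (S₁ - S₀)ᴴ = S₁ - S₀ := by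
    rw [Matrix.conjTranspose_sub, hS₁.eq, hS₀.eq]
  have hY : (-((S₁ - S₀) * J * (S₁ - S₀) * J))ᴴ = -(J * (S₁ - S₀) * J * (S₁ - S₀)) := by
    rw [Matrix.conjTranspose_neg, Matrix.conjTranspose_mul, Matrix.conjTranspose_mul,
      Matrix.conjTranspose_mul, hD, hJ.eq]
    simp only [Matrix.mul_assoc]
  rw [hY]
  calc -((S₁ - S₀) * J * (S₁ - S₀) * J) * S₁
      = -((S₁ - S₀) * J * (S₁ - S₀) * J) * S₁ * (J * S₁ * J * S₁) := by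
        rw [a1, Matrix.mul_one]
    _ = (-((S₁ - S₀) * J * (S₁ - S₀) * J) * (S₁ * J)) * (S₁ * J * S₁) := by
        simp only [Matrix.mul_assoc]
    _ = ((S₁ * J) * -((S₁ - S₀) * J * (S₁ - S₀) * J)) * (S₁ * J * S₁) := by rw [hc]
    _ = S₁ * -(J * (S₁ - S₀) * J * (S₁ - S₀)) * (J * S₁ * J * S₁) := by noncomm_ring
    _ = S₁ * -(J * (S₁ - S₀) * J * (S₁ - S₀)) := by rw [a1, Matrix.mul_one]

/-- `2 Tr H₁ Y D = - Tr H₁ Y² S₁`. -/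
theorem alg2_d {J S₀ S₁ H₁ : Matrix n n ℂ} (h₀ : S₀ * J * S₀ * J = 1)
    (h₁ : S₁ * J * S₁ * J = 1) (c₁ : H₁ * S₁ * J = J * S₁ * H₁) (Y : Matrix n n ℂ)
    (hY : Y = -((S₁ - S₀) * J * (S₁ - S₀) * J)) :
    2 * (H₁ * (Y * (S₁ - S₀))).trace = -(H₁ * (Y * (Y * S₁))).trace := by
  have hc : Y * (S₁ * J) = (S₁ * J) * Y := by rw [hY]; exact alg2_comm h₀ h₁
  have e0 : Y * S₁ = -((S₁ - S₀) + S₁ * J * (S₁ - S₀) * J * S₁) := by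
    have h := alg2_ys0 h₁ h₀
    have h' := alg2_y0 h₁ h₀
    have e1 : -((S₀ - S₁) * J * (S₀ - S₁) * J) * S₁ = Y * S₁ := by
      rw [hY]; noncomm_ring
    rw [← e1, h', h]
    noncomm_ring
  have e1 : Y * (Y * S₁) = -(Y * (S₁ - S₀)) - S₁ * J * (Y * (S₁ - S₀)) * J * S₁ := by
    calc Y * (Y * S₁) = Y * -((S₁ - S₀) + S₁ * J * (S₁ - S₀) * J * S₁) := by rw [e0]
      _ = -(Y * (S₁ - S₀)) - (Y * (S₁ * J)) * (S₁ - S₀) * J * S₁ := by noncomm_ring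
      _ = -(Y * (S₁ - S₀)) - ((S₁ * J) * Y) * (S₁ - S₀) * J * S₁ := by rw [hc]
      _ = -(Y * (S₁ - S₀)) - S₁ * J * (Y * (S₁ - S₀)) * J * S₁ := by noncomm_ring
  have e2 : H₁ * (-(Y * (S₁ - S₀)) - S₁ * J * (Y * (S₁ - S₀)) * J * S₁)
      = -(H₁ * (Y * (S₁ - S₀))) - H₁ * (S₁ * J * (Y * (S₁ - S₀)) * J * S₁) := by noncomm_ring
  rw [e1, e2, Matrix.trace_sub, alg2_swap h₁ c₁, Matrix.trace_neg]
  ring

/-- **The exact identity.** -/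
theorem alg2_main {J S₀ S₁ H₀ H₁ : Matrix n n ℂ} (hJ : J.IsHermitian) (hS₀ : S₀.PosDef)
    (hS₁ : S₁.PosDef) (h₀ : S₀ * J * S₀ * J = 1) (h₁ : S₁ * J * S₁ * J = 1)
    (c₀ : H₀ * S₀ * J = J * S₀ * H₀) (c₁ : H₁ * S₁ * J = J * S₁ * H₁) (σ : ℂ) :
    4 * (2 * (H₀ * (S₁ - S₀)).trace - (H₁ * (S₀ - S₁)).trace)
      = (H₁ * (((S₁ - S₀) * J * (S₁ - S₀) * J) * S₁
            * ((S₁ - S₀) * J * (S₁ - S₀) * J)ᴴ)).trace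
        + 2 * ((2 • H₀ - H₁ + σ • J) * ((S₁ - S₀) * S₁⁻¹ * (S₁ - S₀))).trace := by
  set Y : Matrix n n ℂ := -((S₁ - S₀) * J * (S₁ - S₀) * J) with hY
  have hQ := alg2_Q h₀ h₁ c₀
  have hB := alg2_B h₀ h₁ c₁
  have y0 : Y * S₀ = (S₁ - S₀) * S₁⁻¹ * (S₁ - S₀) := alg2_y0 h₀ h₁
  have y1 : Y * S₁ = (S₁ - S₀) * S₀⁻¹ * (S₁ - S₀) := alg2_y1 h₀ h₁
  have hd := alg2_d h₀ h₁ c₁ Y hY
  have hyy : Y * S₁ = S₁ * Yᴴ := alg2_yy hJ hS₀.isHermitian hS₁.isHermitian h₀ h₁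
  have hJ0 := alg2_trJ hS₀ hS₁ h₀ h₁
  rw [← y0] at hQ hJ0 ⊢
  rw [← y1] at hB
  have e1 : ((S₁ - S₀) * J * (S₁ - S₀) * J) * S₁ * ((S₁ - S₀) * J * (S₁ - S₀) * J)ᴴ
      = Y * (Y * S₁) := by
    rw [hyy, hY, Matrix.conjTranspose_neg]
    noncomm_ring
  rw [e1]
  have e2 : ((2 • H₀ - H₁ + σ • J) * (Y * S₀)).trace
      = 2 * (H₀ * (Y * S₀)).trace - (H₁ * (Y * S₀)).trace + σ * (J * (Y * S₀)).trace := by
    rw [Matrix.add_mul, Matrix.sub_mul, Matrix.trace_add, Matrix.trace_sub, two_smul,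
      Matrix.add_mul, Matrix.trace_add, Matrix.smul_mul, Matrix.trace_smul, smul_eq_mul]
    ring
  have e3 : (H₁ * (Y * S₀)).trace = (H₁ * (Y * S₁)).trace - (H₁ * (Y * (S₁ - S₀))).trace := by
    rw [← Matrix.trace_sub, ← Matrix.mul_sub, ← Matrix.mul_sub]
    congr 2
    noncomm_ring
  rw [e2, hJ0, e3]
  linear_combination 4 * hQ - 2 * hB - hd

open scoped MatrixOrder Matrix.Norms.L2Operator in
theorem alg2_fac {B : Matrix n n ℂ} (hB : B.PosSemidef) : ∃ C : Matrix n n ℂ, B = Cᴴ * C := by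
  obtain ⟨C, hC⟩ := CStarAlgebra.nonneg_iff_eq_star_mul_self.mp hB.nonneg
  exact ⟨C, hC⟩

/-- trace of a product of two positive semidefinite matrices. -/
theorem alg2_tr_nonneg {A B : Matrix n n ℂ} (hA : A.PosSemidef) (hB : B.PosSemidef) :
    0 ≤ (A * B).trace.re := by
  obtain ⟨C, hC⟩ := alg2_fac hB
  have h1 : (A * B).trace = (C * A * Cᴴ).trace := by
    rw [hC, ← Matrix.mul_assoc, Matrix.trace_mul_comm, ← Matrix.mul_assoc]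
  have h2 : (C * A * Cᴴ).PosSemidef := hA.mul_mul_conjTranspose_same C
  rw [h1]
  exact (Complex.nonneg_iff.mp h2.trace_nonneg).1

/-- **`2Q ≥ B`, pointwise.** -/
theorem alg2_nonneg {J S₀ S₁ H₀ H₁ : Matrix n n ℂ} (hJ : J.IsHermitian) (hS₀ : S₀.PosDef)
    (hS₁ : S₁.PosDef) (h₀ : S₀ * J * S₀ * J = 1) (h₁ : S₁ * J * S₁ * J = 1)
    (c₀ : H₀ * S₀ * J = J * S₀ * H₀) (c₁ : H₁ * S₁ * J = J * S₁ * H₁) (σ : ℝ)
    (hH₁ : H₁.PosSemidef) (hH₂ : (2 • H₀ - H₁ + (σ : ℂ) • J).PosSemidef) :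
    (H₁ * (S₀ - S₁)).trace.re ≤ 2 * (H₀ * (S₁ - S₀)).trace.re := by
  have h := alg2_main hJ hS₀ hS₁ h₀ h₁ c₀ c₁ (σ : ℂ)
  have hD : (S₁ - S₀)ᴴ = S₁ - S₀ := by
    rw [Matrix.conjTranspose_sub, hS₁.isHermitian.eq, hS₀.isHermitian.eq]
  have p1 : (((S₁ - S₀) * J * (S₁ - S₀) * J) * S₁
            * ((S₁ - S₀) * J * (S₁ - S₀) * J)ᴴ).PosSemidef :=
    hS₁.posSemidef.mul_mul_conjTranspose_same _
  have p2 : ((S₁ - S₀) * S₁⁻¹ * (S₁ - S₀)).PosSemidef := by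
    have := hS₁.inv.posSemidef.mul_mul_conjTranspose_same (S₁ - S₀)
    rwa [hD] at this
  have q1 := alg2_tr_nonneg hH₁ p1
  have q2 := alg2_tr_nonneg hH₂ p2
  have hre := congrArg Complex.re h
  have s4 : (4 * (2 * (H₀ * (S₁ - S₀)).trace - (H₁ * (S₀ - S₁)).trace)).re
      = 4 * (2 * (H₀ * (S₁ - S₀)).trace.re - (H₁ * (S₀ - S₁)).trace.re) := by
    simp [Complex.mul_re, Complex.sub_re]
  rw [s4, Complex.add_re] at hre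
  have s2 : (2 * ((2 • H₀ - H₁ + (σ : ℂ) • J) * ((S₁ - S₀) * S₁⁻¹ * (S₁ - S₀))).trace).re
      = 2 * ((2 • H₀ - H₁ + (σ : ℂ) • J) * ((S₁ - S₀) * S₁⁻¹ * (S₁ - S₀))).trace.re := by
    simp [Complex.mul_re]
  rw [s2] at hre
  linarith

/-- `Q ≥ 0`. -/
theorem alg2_Q_nonneg {J S₀ S₁ H₀ : Matrix n n ℂ} (hS₀ : S₀.PosDef)
    (hS₁ : S₁.PosDef) (h₀ : S₀ * J * S₀ * J = 1) (h₁ : S₁ * J * S₁ * J = 1)
    (c₀ : H₀ * S₀ * J = J * S₀ * H₀) (hH₀ : H₀.PosSemidef) :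
    0 ≤ (H₀ * (S₁ - S₀)).trace.re := by
  have h := congrArg Complex.re (alg2_Q h₀ h₁ c₀)
  have hD : (S₁ - S₀)ᴴ = S₁ - S₀ := by
    rw [Matrix.conjTranspose_sub, hS₁.isHermitian.eq, hS₀.isHermitian.eq]
  have p2 : ((S₁ - S₀) * S₁⁻¹ * (S₁ - S₀)).PosSemidef := by
    have := hS₁.inv.posSemidef.mul_mul_conjTranspose_same (S₁ - S₀)
    rwa [hD] at this
  have q2 := alg2_tr_nonneg hH₀ p2
  have s2 : (2 * (H₀ * (S₁ - S₀)).trace).re = 2 * (H₀ * (S₁ - S₀)).trace.re := by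
    simp [Complex.mul_re]
  rw [s2] at h
  linarith

/-- `B ≥ 0`. -/
theorem alg2_B_nonneg {J S₀ S₁ H₁ : Matrix n n ℂ} (hS₀ : S₀.PosDef)
    (hS₁ : S₁.PosDef) (h₀ : S₀ * J * S₀ * J = 1) (h₁ : S₁ * J * S₁ * J = 1)
    (c₁ : H₁ * S₁ * J = J * S₁ * H₁) (hH₁ : H₁.PosSemidef) :
    0 ≤ (H₁ * (S₀ - S₁)).trace.re :=
  alg2_Q_nonneg hS₁ hS₀ h₁ h₀ c₁ hH₁

end Pool.Agent.A1Alg2
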