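import Mathlib

/-!
MP_859019_mp, project A1: the shift.  For `X = R₁ + c D₁`, `W = D₂ - c R₂`, `-1 < c < 1`,
`2 X ⊗ R₂ - (R₁ ⊗ R₂ + D₁ ⊗ D₂) - (2c/(1-c²)) X ⊗ W
  = (2(1+c)/(1-c)) P₁ ⊗ N₂ + (2(1-c)/(1+c)) N₁ ⊗ P₂`, `Pᵢ = (Rᵢ+Dᵢ)/2`, `Nᵢ = (Rᵢ-Dᵢ)/2`.
-/

set_option autoImplicit false

namespace Pool.Agent.A1Shift

open Matrix
open scoped ComplexOrder Kronecker

variable {m n : Type*} [Fintype m] [DecidableEq m] [Fintype n] [DecidableEq n]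

omit [Fintype m] [DecidableEq m] [Fintype n] [DecidableEq n] in
theorem shift_eq (R₁ D₁ : Matrix m m ℂ) (R₂ D₂ : Matrix n n ℂ) {c : ℝ} (h1 : -1 < c)
    (h2 : c < 1) :
    (2 : ℂ) • ((R₁ + (c : ℂ) • D₁) ⊗ₖ R₂) - (R₁ ⊗ₖ R₂ + D₁ ⊗ₖ D₂)
        + ((-(2 * c / (1 - c ^ 2)) : ℝ) : ℂ) • ((R₁ + (c : ℂ) • D₁) ⊗ₖ (D₂ - (c : ℂ) • R₂))
      = (((1 + c) / (2 * (1 - c)) : ℝ) : ℂ) • ((R₁ + D₁) ⊗ₖ (R₂ - D₂))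
        + (((1 - c) / (2 * (1 + c)) : ℝ) : ℂ) • ((R₁ - D₁) ⊗ₖ (R₂ + D₂)) := by
  have e1 : (1 - c : ℝ) ≠ 0 := by linarith
  have e2 : (1 + c : ℝ) ≠ 0 := by linarith
  have e1' : (1 - (c : ℂ)) ≠ 0 := by exact_mod_cast e1
  have e2' : (1 + (c : ℂ)) ≠ 0 := by exact_mod_cast e2
  have e3' : (1 - (c : ℂ) ^ 2) ≠ 0 := by
    have : (1 - (c : ℂ) ^ 2) = (1 - (c : ℂ)) * (1 + c) := by ring
    rw [this]; exact mul_ne_zero e1' e2'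
  ext ⟨i, j⟩ ⟨k, l⟩
  simp only [Matrix.add_apply, Matrix.sub_apply, Matrix.smul_apply, Matrix.kroneckerMap_apply,
    smul_eq_mul, Complex.ofReal_neg, Complex.ofReal_div, Complex.ofReal_mul, Complex.ofReal_sub,
    Complex.ofReal_add, Complex.ofReal_pow, Complex.ofReal_one, Complex.ofReal_ofNat]
  have e4 : (1 - (c : ℂ) ^ 2) = (1 - (c : ℂ)) * (1 + c) := by ring
  rw [e4]
  field_simp
  ring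

theorem shift_psd (R₁ D₁ : Matrix m m ℂ) (R₂ D₂ : Matrix n n ℂ) {c : ℝ} (h1 : -1 < c)
    (h2 : c < 1) (p1 : (R₁ + D₁).PosSemidef) (n1 : (R₁ - D₁).PosSemidef)
    (p2 : (R₂ + D₂).PosSemidef) (n2 : (R₂ - D₂).PosSemidef) :
    ((2 : ℂ) • ((R₁ + (c : ℂ) • D₁) ⊗ₖ R₂) - (R₁ ⊗ₖ R₂ + D₁ ⊗ₖ D₂)
        + ((-(2 * c / (1 - c ^ 2)) : ℝ) : ℂ)
          • ((R₁ + (c : ℂ) • D₁) ⊗ₖ (D₂ - (c : ℂ) • R₂))).PosSemidef := by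
  rw [shift_eq R₁ D₁ R₂ D₂ h1 h2]
  have q1 : 0 ≤ (((1 + c) / (2 * (1 - c)) : ℝ) : ℂ) := by
    rw [Complex.zero_le_real]
    apply div_nonneg <;> linarith
  have q2 : 0 ≤ (((1 - c) / (2 * (1 + c)) : ℝ) : ℂ) := by
    rw [Complex.zero_le_real]
    apply div_nonneg <;> linarith
  exact ((p1.kronecker n2).smul q1).add ((n1.kronecker p2).smul q2)

/-- with `H₀ = z X ⊗ R₂ + E`, `H₁ = z (R₁ ⊗ R₂ + D₁ ⊗ D₂) + E`, `E ≥ 0`, `z ≥ 0`. -/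
theorem shift_H (R₁ D₁ : Matrix m m ℂ) (R₂ D₂ : Matrix n n ℂ) {c : ℝ} (h1 : -1 < c)
    (h2 : c < 1) (p1 : (R₁ + D₁).PosSemidef) (n1 : (R₁ - D₁).PosSemidef)
    (p2 : (R₂ + D₂).PosSemidef) (n2 : (R₂ - D₂).PosSemidef) {z : ℝ} (hz : 0 ≤ z)
    {E : Matrix (m × n) (m × n) ℂ} (hE : E.PosSemidef) :
    (2 • (E + (z : ℂ) • ((R₁ + (c : ℂ) • D₁) ⊗ₖ R₂)) - (E + (z : ℂ) • (R₁ ⊗ₖ R₂ + D₁ ⊗ₖ D₂))
        + ((-(2 * c / (1 - c ^ 2)) * z : ℝ) : ℂ)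
          • ((R₁ + (c : ℂ) • D₁) ⊗ₖ (D₂ - (c : ℂ) • R₂))).PosSemidef := by
  have hp := shift_psd R₁ D₁ R₂ D₂ h1 h2 p1 n1 p2 n2
  have hz' : (0 : ℂ) ≤ (z : ℂ) := by rw [Complex.zero_le_real]; exact hz
  have h := hE.add (hp.smul hz')
  refine (congrArg Matrix.PosSemidef ?_).mp h
  rw [Complex.ofReal_mul (-(2 * c / (1 - c ^ 2))) z]
  module

end Pool.Agent.A1Shift
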