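import Pool.Agent.Lib_helper41.Defs

/-!
Basic facts on mod-2 chains, contraction of an acyclic range, cochain exactness.
-/

set_option autoImplicit false

namespace Pool.Agent.RelH

open Finset

section Basic

variable {X : Type*} [DecidableEq X]

theorem double_sum_zero {M : Type*} [AddCommMonoid M] (h2 : ∀ m : M, m + m = 0) (s : Finset X)
    (g : X → X → M) (hg : ∀ x y, g x y = g y x) : ∑ x ∈ s, ∑ y ∈ s.erase x, g x y = 0 := by
  rw [Finset.sum_sigma']
  refine Finset.sum_involution (fun p _ => ⟨p.2, p.1⟩) ?_ ?_ ?_ ?_
  · rintro ⟨x, y⟩ h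
    simp only [hg x y]
    exact h2 _
  · rintro ⟨x, y⟩ h _ heq
    simp only [Finset.mem_sigma, Finset.mem_erase] at h
    simp only [Sigma.mk.injEq, heq_eq_eq] at heq
    exact h.2.1 heq.1
  · rintro ⟨x, y⟩ h
    simp only [Finset.mem_sigma, Finset.mem_erase] at h ⊢
    exact ⟨h.2.2, Ne.symm h.2.1, h.1⟩
  · rintro ⟨x, y⟩ h
    rfl

omit [DecidableEq X] in
theorem ch_two (z : Ch X) : z + z = 0 := by
  ext s
  simp only [Finsupp.coe_add, Pi.add_apply, Finsupp.coe_zero, Pi.zero_apply]
  exact CharTwo.add_self_eq_zero _

theorem erase_comm' (s : Finset X) (x y : X) : (s.erase x).erase y = (s.erase y).erase x :=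
  Finset.erase_right_comm

theorem bd_bd (z : Ch X) : bd (bd z) = 0 := by
  induction z using Finsupp.induction_linear with
  | zero => simp
  | add f g hf hg => rw [map_add, map_add, hf, hg, add_zero]
  | single s a =>
    have : Finsupp.single s a = a • Finsupp.single s (1 : ZMod 2) := by simp
    rw [this, map_smul, map_smul, bd_single, map_sum]
    simp only [bd_single]
    rw [double_sum_zero ch_two s (fun x y => Finsupp.single ((s.erase x).erase y) (1 : ZMod 2))
      (fun x y => by rw [erase_comm'])]
    simp

/-- component of chains of simplices with `c` vertices -/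
noncomputable def comp (c : ℕ) (z : Ch X) : Ch X := z.filter fun s => s.card = c

theorem bd_comp (c : ℕ) (z : Ch X) : bd (comp (c + 1) z) = comp c (bd z) := by
  induction z using Finsupp.induction_linear with
  | zero => unfold comp; rw [Finsupp.filter_zero, map_zero, Finsupp.filter_zero]
  | add f g hf hg =>
    unfold comp at *
    rw [Finsupp.filter_add, map_add, map_add, Finsupp.filter_add, hf, hg]
  | single s a =>
    have h1 : Finsupp.single s a = a • Finsupp.single s (1 : ZMod 2) := by simp
    have h2 : bd (Finsupp.single s a) = ∑ x ∈ s, Finsupp.single (s.erase x) a := by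
      rw [h1, map_smul, bd_single, Finset.smul_sum]
      simp
    have h3 : comp c (∑ x ∈ s, Finsupp.single (s.erase x) a) =
        ∑ x ∈ s, comp c (Finsupp.single (s.erase x) a) := by
      unfold comp
      exact map_sum (Finsupp.filterAddHom (fun s : Finset X => s.card = c)) _ _
    rw [h2, h3]
    by_cases hc : s.card = c + 1
    · have : comp (c + 1) (Finsupp.single s a) = Finsupp.single s a := by
        unfold comp
        exact Finsupp.filter_single_of_pos (fun s : Finset X => s.card = c + 1) hc
      rw [this, h2]
      refine Finset.sum_congr rfl fun x hx => ?_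
      unfold comp
      rw [Finsupp.filter_single_of_pos]
      rw [Finset.card_erase_of_mem hx]; omega
    · have : comp (c + 1) (Finsupp.single s a) = 0 := by
        unfold comp
        exact Finsupp.filter_single_of_neg (fun s : Finset X => s.card = c + 1) hc
      rw [this, map_zero]
      symm
      refine Finset.sum_eq_zero fun x hx => ?_
      unfold comp
      rw [Finsupp.filter_single_of_neg]
      have := Finset.card_pos.2 ⟨x, hx⟩
      rw [Finset.card_erase_of_mem hx]; omega

omit [DecidableEq X] in
theorem comp_of_homog {c : ℕ} {z : Ch X} (h : ∀ s ∈ z.support, s.card = c) : comp c z = z := by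
  unfold comp
  rw [Finsupp.filter_eq_self_iff]
  intro s hs
  exact h s (Finsupp.mem_support_iff.2 hs)

omit [DecidableEq X] in
theorem mem_comp {c : ℕ} {z : Ch X} {s : Finset X} (h : s ∈ (comp c z).support) :
    s ∈ z.support ∧ s.card = c := by
  unfold comp at h
  rw [Finsupp.support_filter, Finset.mem_filter] at h
  exact h

end Basic

section Contraction

variable {n : ℕ}

theorem exists_contraction (K : Finset (Finset (Fin n))) (hdown : Down K) (m : ℕ)
    (h0 : ∀ z : Ch (Fin n), (∀ s ∈ z.support, s ∈ K ∧ s.card ≤ m) → bd z = 0 →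
      ∃ w : Ch (Fin n), (∀ s ∈ w.support, s ∈ K) ∧ bd w = z) :
    ∃ D : Finset (Fin n) → Ch (Fin n), ∀ s ∈ K, s.card ≤ m →
      (∀ t ∈ (D s).support, t ∈ K ∧ t.card = s.card + 1) ∧
      bd (D s) = Finsupp.single s 1 + ∑ x ∈ s, D (s.erase x) := by
  classical
  have claim : ∀ j : ℕ, ∃ D : Finset (Fin n) → Ch (Fin n), ∀ s ∈ K, s.card < j → s.card ≤ m →
      (∀ t ∈ (D s).support, t ∈ K ∧ t.card = s.card + 1) ∧
      bd (D s) = Finsupp.single s 1 + ∑ x ∈ s, D (s.erase x) := by
    intro j
    induction j with
    | zero => exact ⟨fun _ => 0, fun s _ h => by omega⟩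
    | succ j ih =>
      obtain ⟨D, hD⟩ := ih
      -- the new values
      have hex : ∀ s : Finset (Fin n), ∃ w : Ch (Fin n), s ∈ K → s.card = j → j ≤ m →
          (∀ t ∈ w.support, t ∈ K ∧ t.card = s.card + 1) ∧
          bd w = Finsupp.single s 1 + ∑ x ∈ s, D (s.erase x) := by
        intro s
        by_cases hs : s ∈ K ∧ s.card = j ∧ j ≤ m
        swap
        · exact ⟨0, fun h1 h2 h3 => absurd ⟨h1, h2, h3⟩ hs⟩
        obtain ⟨hsK, hsj, hjm⟩ := hs
        set z : Ch (Fin n) := Finsupp.single s 1 + ∑ x ∈ s, D (s.erase x) with hz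
        have hDx : ∀ x ∈ s, (∀ t ∈ (D (s.erase x)).support, t ∈ K ∧ t.card = s.card) ∧
            bd (D (s.erase x)) = Finsupp.single (s.erase x) 1 +
              ∑ y ∈ s.erase x, D ((s.erase x).erase y) := by
          intro x hx
          have hc := Finset.card_erase_of_mem hx
          have hp := Finset.card_pos.2 ⟨x, hx⟩
          have := hD (s.erase x) (hdown s hsK _ (Finset.erase_subset _ _)) (by omega) (by omega)
          refine ⟨fun t ht => ⟨(this.1 t ht).1, ?_⟩, this.2⟩
          rw [(this.1 t ht).2]; omega
        have hzs : ∀ t ∈ z.support, t ∈ K ∧ t.card = j := by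
          intro t ht
          rw [hz] at ht
          rcases Finset.mem_union.1 (Finsupp.support_add ht) with h | h
          · have := Finsupp.support_single_subset h
            rw [Finset.mem_singleton] at this
            subst this
            exact ⟨hsK, hsj⟩
          · have := Finsupp.support_finsetSum h
            rw [Finset.mem_biUnion] at this
            obtain ⟨x, hx, hxt⟩ := this
            have := (hDx x hx).1 t hxt
            exact ⟨this.1, this.2.trans hsj⟩
        have hzc : bd z = 0 := by
          rw [hz, map_add, bd_single, map_sum]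
          rw [Finset.sum_congr rfl fun x hx => (hDx x hx).2, Finset.sum_add_distrib, ← add_assoc,
            ch_two, zero_add]
          exact double_sum_zero ch_two s (fun x y => D ((s.erase x).erase y))
            (fun x y => by rw [erase_comm'])
        obtain ⟨w, hw1, hw2⟩ := h0 z (fun t ht => ⟨(hzs t ht).1, by rw [(hzs t ht).2]; exact hjm⟩)
          hzc
        refine ⟨comp (j + 1) w, fun _ _ _ => ⟨fun t ht => ?_, ?_⟩⟩
        · have := mem_comp ht
          exact ⟨hw1 t this.1, by rw [this.2, hsj]⟩
        · rw [bd_comp, hw2]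
          exact comp_of_homog fun t ht => (hzs t ht).2
      choose W hW using hex
      refine ⟨fun s => if s.card = j then W s else D s, ?_⟩
      intro s hs hsj hsm
      by_cases hc : s.card = j
      · simp only [hc, if_true]
        have h1 := hW s hs hc (by omega)
        refine ⟨by simpa [hc] using h1.1, ?_⟩
        rw [h1.2]
        congr 1
        refine Finset.sum_congr rfl fun x hx => ?_
        have := Finset.card_erase_of_mem hx
        have hp := Finset.card_pos.2 ⟨x, hx⟩
        rw [if_neg (by omega)]
      · simp only [hc, if_false]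
        have h1 := hD s hs (by omega) hsm
        refine ⟨h1.1, ?_⟩
        rw [h1.2]
        congr 1
        refine Finset.sum_congr rfl fun x hx => ?_
        have := Finset.card_erase_of_mem hx
        have hp := Finset.card_pos.2 ⟨x, hx⟩
        rw [if_neg (by omega)]
  obtain ⟨D, hD⟩ := claim (m + 1)
  exact ⟨D, fun s hs hsm => hD s hs (by omega) hsm⟩

variable {F : Type*} [Field F] [CharP F 2]

/-- cochain exactness for the complex `{G : G ∪ H ∈ K}` in degrees `≤ m`. -/
theorem cochain_exact (K : Finset (Finset (Fin n))) (hdown : Down K) (m : ℕ)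
    (h0 : ∀ z : Ch (Fin n), (∀ s ∈ z.support, s ∈ K ∧ s.card ≤ m) → bd z = 0 →
      ∃ w : Ch (Fin n), (∀ s ∈ w.support, s ∈ K) ∧ bd w = z)
    (H : Finset (Fin n)) (j : ℕ) (hj : j ≤ m) (φ : Finset (Fin n) → F)
    (hφ : ∀ G, G.card = j + 1 → G ∪ H ∈ K → ∑ u ∈ G, φ (G.erase u) = 0) :
    ∃ ψ : Finset (Fin n) → F, ∀ G, G.card = j → G ∪ H ∈ K → φ G = ∑ u ∈ G, ψ (G.erase u) := by
  classical
  rcases H.eq_empty_or_nonempty with rfl | ⟨v, hv⟩
  · -- use the contraction
    obtain ⟨D, hD⟩ := exists_contraction K hdown m h0
    letI : Algebra (ZMod 2) F := ZMod.algebra F 2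
    set Φ : Ch (Fin n) →ₗ[ZMod 2] F := Finsupp.linearCombination (ZMod 2) φ with hΦ
    have hΦs : ∀ s, Φ (Finsupp.single s 1) = φ s := by
      intro s; simp [hΦ]
    refine ⟨fun G => Φ (D G), ?_⟩
    intro G hG hGK
    rw [Finset.union_empty] at hGK
    have h1 := hD G hGK (by omega)
    have h2 : ∑ u ∈ G, Φ (D (G.erase u)) = Φ (bd (D G)) + φ G := by
      rw [h1.2, map_add, map_sum, hΦs]
      have : (φ G + ∑ u ∈ G, Φ (D (G.erase u))) + φ G =
          ∑ u ∈ G, Φ (D (G.erase u)) + (φ G + φ G) := by ring
      rw [this, CharTwo.add_self_eq_zero, add_zero]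
    rw [h2]
    -- Φ (bd (D G)) = 0
    have h3 : Φ (bd (D G)) = 0 := by
      have : D G = ∑ t ∈ (D G).support, (D G t) • Finsupp.single t (1 : ZMod 2) := by
        conv_lhs => rw [← Finsupp.sum_single (D G)]
        rw [Finsupp.sum]
        refine Finset.sum_congr rfl fun t _ => ?_
        simp
      rw [this, map_sum, map_sum]
      refine Finset.sum_eq_zero fun t ht => ?_
      rw [map_smul, map_smul, bd_single, map_sum]
      have h4 := h1.1 t ht
      rw [Finset.sum_congr rfl fun x _ => hΦs (t.erase x)]
      rw [hφ t (by rw [h4.2, hG]) (by rw [Finset.union_empty]; exact h4.1), smul_zero]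
    rw [h3, zero_add]
  · refine ⟨fun G => if v ∈ G then 0 else φ (insert v G), ?_⟩
    intro G hG hGK
    by_cases hvG : v ∈ G
    · rw [Finset.sum_eq_single v]
      · simp [Finset.insert_erase hvG]
      · intro u hu huv
        have : v ∈ G.erase u := Finset.mem_erase.2 ⟨Ne.symm huv, hvG⟩
        simp [this]
      · intro h; exact absurd hvG h
    · have h1 := hφ (insert v G) (by rw [Finset.card_insert_of_notMem hvG, hG]) (by
        have : insert v G ∪ H = G ∪ H := by
          ext w; simp only [Finset.mem_union, Finset.mem_insert]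
          constructor
          · rintro ((rfl | h) | h)
            · exact Or.inr hv
            · exact Or.inl h
            · exact Or.inr h
          · rintro (h | h)
            · exact Or.inl (Or.inr h)
            · exact Or.inr h
        rw [this]; exact hGK)
      rw [Finset.sum_insert hvG, Finset.erase_insert hvG] at h1
      have h2 : φ G = ∑ u ∈ G, φ ((insert v G).erase u) := by
        have := eq_neg_of_add_eq_zero_left h1
        rwa [CharTwo.neg_eq] at this
      rw [h2]
      refine Finset.sum_congr rfl fun u hu => ?_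
      have hne : v ≠ u := fun h => hvG (h ▸ hu)
      have : v ∉ G.erase u := fun h => hvG (Finset.mem_of_mem_erase h)
      change _ = if v ∈ G.erase u then 0 else φ (insert v (G.erase u))
      rw [if_neg this, Finset.erase_insert_of_ne hne]

end Contraction

end Pool.Agent.RelH
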