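import Pool.Agent.Lib_helper41.Defs

/-!
Relative regular sequences and the depth lemma.
-/

set_option autoImplicit false

namespace Pool.Agent.RelH

open Finset

section General

variable {R : Type*} [CommRing R] {T : Type*} [AddCommGroup T] [Module R T]
variable {T' : Type*} [AddCommGroup T'] [Module R T']

/-- `LL θ A B j = B + θ 0 • A + … + θ (j-1) • A`. -/
def LL (θ : ℕ → R) (A B : Submodule R T) : ℕ → Submodule R T
  | 0 => B
  | (j + 1) => LL θ A B j ⊔ A.map (LinearMap.lsmul R T (θ j))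

theorem mem_LL_succ {θ : ℕ → R} {A B : Submodule R T} {j : ℕ} {x : T} :
    x ∈ LL θ A B (j + 1) ↔ ∃ y ∈ LL θ A B j, ∃ a ∈ A, y + θ j • a = x := by
  simp [LL, Submodule.mem_sup]

theorem LL_mono_j {θ : ℕ → R} {A B : Submodule R T} {j : ℕ} : LL θ A B j ≤ LL θ A B (j + 1) :=
  le_sup_left

theorem B_le_LL {θ : ℕ → R} {A B : Submodule R T} (j : ℕ) : B ≤ LL θ A B j := by
  induction j with
  | zero => exact le_rfl
  | succ j ih => exact ih.trans LL_mono_j

theorem LL_le {θ : ℕ → R} {A B C : Submodule R T} (hB : B ≤ C) (hA : A ≤ C) (j : ℕ) :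
    LL θ A B j ≤ C := by
  induction j with
  | zero => exact hB
  | succ j ih =>
    intro x hx
    obtain ⟨y, hy, a, ha, rfl⟩ := mem_LL_succ.1 hx
    exact C.add_mem (ih hy) (C.smul_mem _ (hA ha))

theorem LL_mono {θ : ℕ → R} {A A' B B' : Submodule R T} (hB : B ≤ B') (hA : A ≤ A') (j : ℕ) :
    LL θ A B j ≤ LL θ A' B' j := by
  induction j with
  | zero => exact hB
  | succ j ih =>
    intro x hx
    obtain ⟨y, hy, a, ha, rfl⟩ := mem_LL_succ.1 hx
    exact mem_LL_succ.2 ⟨y, ih hy, a, hA ha, rfl⟩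

theorem smul_mem_LL {θ : ℕ → R} {A B : Submodule R T} {i j : ℕ} (hij : i < j) {a : T} (ha : a ∈ A) :
    θ i • a ∈ LL θ A B j := by
  induction j with
  | zero => omega
  | succ j ih =>
    rcases Nat.lt_succ_iff_lt_or_eq.1 hij with h | rfl
    · exact LL_mono_j (ih h)
    · exact mem_LL_succ.2 ⟨0, Submodule.zero_mem _, a, ha, by simp⟩

/-- relative regularity on `A / B` -/
def RegR (θ : ℕ → R) (k : ℕ) (A B : Submodule R T) : Prop :=
  ∀ j < k, ∀ x ∈ A, θ j • x ∈ LL θ A B j → x ∈ LL θ A B j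

theorem RegR.mono {θ : ℕ → R} {k k' : ℕ} (h : k' ≤ k) {A B : Submodule R T} (hr : RegR θ k A B) :
    RegR θ k' A B := fun j hj => hr j (lt_of_lt_of_le hj h)

/-- image of `LL` under a linear map -/
theorem map_LL {θ : ℕ → R} (δ : T →ₗ[R] T') {A B : Submodule R T} {A' B' : Submodule R T'}
    (hA : ∀ x ∈ A, δ x ∈ A') (hB : ∀ x ∈ B, δ x ∈ B') (j : ℕ) :
    ∀ x ∈ LL θ A B j, δ x ∈ LL θ A' B' j := by
  induction j with
  | zero => exact hB
  | succ j ih =>
    intro x hx
    obtain ⟨y, hy, a, ha, rfl⟩ := mem_LL_succ.1 hx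
    exact mem_LL_succ.2 ⟨δ y, ih y hy, δ a, hA a ha, by simp⟩

/-- lifting of `LL` along a map: elements of `LL (range δ + N') N'` come from `LL ⊤ N`
modulo `N'`. -/
theorem lift_LL {θ : ℕ → R} (δ : T →ₗ[R] T') {N : Submodule R T} {N' : Submodule R T'} (j : ℕ) :
    ∀ z ∈ LL θ (LinearMap.range δ ⊔ N') N' j, ∃ m ∈ LL θ ⊤ N j, z - δ m ∈ N' := by
  induction j with
  | zero =>
    intro z hz
    refine ⟨0, Submodule.zero_mem _, ?_⟩
    rw [map_zero, sub_zero]
    exact hz
  | succ j ih =>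
    intro z hz
    obtain ⟨y, hy, a, ha, rfl⟩ := mem_LL_succ.1 hz
    obtain ⟨m, hm, hm'⟩ := ih y hy
    obtain ⟨b, ⟨t, rfl⟩, n', hn', rfl⟩ := Submodule.mem_sup.1 ha
    refine ⟨m + θ j • t, mem_LL_succ.2 ⟨m, hm, t, trivial, rfl⟩, ?_⟩
    have : y + θ j • (δ t + n') - δ (m + θ j • t) = (y - δ m) + θ j • n' := by
      simp only [map_add, map_smul, smul_add]; abel
    rw [this]
    exact N'.add_mem hm' (N'.smul_mem _ hn')

/-- The depth lemma. -/
theorem depth_lemma {θ : ℕ → R} {k : ℕ} (δ : T →ₗ[R] T') {N : Submodule R T} {N' : Submodule R T'}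
    (hN : ∀ x ∈ N, δ x ∈ N') (h1 : RegR θ (k + 1) ⊤ N)
    (h2 : RegR θ k (LinearMap.range δ ⊔ N') N') :
    RegR θ (k + 1) (N'.comap δ) N := by
  have claim : ∀ j ≤ k, ∀ x ∈ N'.comap δ, x ∈ LL θ ⊤ N j → x ∈ LL θ (N'.comap δ) N j := by
    intro j
    induction j with
    | zero => intro _ x _ hx; exact hx
    | succ j ih =>
      intro hj x hxA hx
      obtain ⟨y, hy, m, -, rfl⟩ := mem_LL_succ.1 hx
      have hδy : δ y ∈ LL θ (LinearMap.range δ ⊔ N') N' j :=
        map_LL δ (fun x _ => Submodule.mem_sup_left (LinearMap.mem_range_self δ x)) hN j y hy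
      have hxA' : δ y + θ j • δ m ∈ N' := by simpa using hxA
      have h3 : θ j • δ m ∈ LL θ (LinearMap.range δ ⊔ N') N' j := by
        have : θ j • δ m = (δ y + θ j • δ m) - δ y := by abel
        rw [this]
        exact Submodule.sub_mem _ (B_le_LL j hxA') hδy
      have h4 : δ m ∈ LL θ (LinearMap.range δ ⊔ N') N' j :=
        h2 j (by omega) _ (Submodule.mem_sup_left ⟨m, rfl⟩) h3
      obtain ⟨m', hm', hm''⟩ := lift_LL (N := N) δ j _ h4
      have h5 : m - m' ∈ N'.comap δ := by simpa using hm''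
      have h6 : y + θ j • m' ∈ LL θ ⊤ N j := Submodule.add_mem _ hy (Submodule.smul_mem _ _ hm')
      have h7 : y + θ j • m' ∈ N'.comap δ := by
        have : y + θ j • m' = (y + θ j • m) - θ j • (m - m') := by rw [smul_sub]; abel
        rw [this]
        exact Submodule.sub_mem _ hxA (Submodule.smul_mem _ _ h5)
      refine mem_LL_succ.2 ⟨_, ih (by omega) _ h7 h6, m - m', h5, ?_⟩
      rw [smul_sub]; abel
  intro j hj x hx hθ
  refine claim j (by omega) x hx (h1 j hj x trivial ?_)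
  exact LL_mono le_rfl le_top j hθ

/-- a submodule of a `Reg 1` module is `Reg 1` -/
theorem reg_one_sub {θ : ℕ → R} {A N : Submodule R T} (h1 : RegR θ 1 ⊤ N) : RegR θ 1 A N := by
  intro j hj x _ hθ
  obtain rfl : j = 0 := by omega
  exact h1 0 (by omega) x trivial hθ

/-- transfer along an injection onto the range -/
theorem reg_of_inj {θ : ℕ → R} {k : ℕ} (δ : T →ₗ[R] T') {N : Submodule R T} {N' : Submodule R T'}
    (hN : ∀ x ∈ N, δ x ∈ N') (hinj : ∀ x, δ x ∈ N' → x ∈ N)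
    (h2 : RegR θ k (LinearMap.range δ ⊔ N') N') :
    RegR θ k ⊤ N := by
  intro j hj x _ hθ
  have h3 : δ (θ j • x) ∈ LL θ (LinearMap.range δ ⊔ N') N' j :=
    map_LL δ (fun x _ => Submodule.mem_sup_left (LinearMap.mem_range_self δ x)) hN j _ hθ
  rw [map_smul] at h3
  have h4 := h2 j hj _ (Submodule.mem_sup_left ⟨x, rfl⟩) h3
  obtain ⟨m, hm, hm'⟩ := lift_LL (N := N) δ j _ h4
  have h5 : x - m ∈ N := hinj _ (by simpa using hm')
  have : x = (x - m) + m := by abel
  rw [this]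
  exact Submodule.add_mem _ (B_le_LL j h5) hm

/-- descent to a component -/
theorem reg_component {θ : ℕ → R} {k : ℕ} {N : Submodule R T} {N' : Submodule R T'}
    (ι : T' →ₗ[R] T) (π : T →ₗ[R] T') (hπι : ∀ x, π (ι x) = x)
    (hι : ∀ x ∈ N', ι x ∈ N) (hπ : ∀ x ∈ N, π x ∈ N') (h : RegR θ k ⊤ N) : RegR θ k ⊤ N' := by
  intro j hj x _ hθ
  have h1 : θ j • ι x ∈ LL θ ⊤ N j := by
    rw [← map_smul]
    exact map_LL (A' := ⊤) ι (fun _ _ => trivial) hι j _ hθ
  have h2 := h j hj (ι x) trivial h1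
  have h3 := map_LL (A' := ⊤) π (fun _ _ => trivial) hπ j _ h2
  rwa [hπι] at h3

/-- product of regular modules -/
theorem reg_pi {I : Type*} {θ : ℕ → R} {k : ℕ} (S : Set I) (J : I → Submodule R T)
    (h : ∀ i ∈ S, RegR θ k ⊤ (J i)) (N : Submodule R (I → T))
    (hN : ∀ f, f ∈ N ↔ ∀ i ∈ S, f i ∈ J i) : RegR θ k ⊤ N := by
  classical
  have key : ∀ j, ∀ f : I → T, f ∈ LL θ ⊤ N j ↔ ∀ i ∈ S, f i ∈ LL θ ⊤ (J i) j := by
    intro j
    induction j with
    | zero => intro f; exact hN f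
    | succ j ih =>
      intro f
      constructor
      · intro hf i hi
        obtain ⟨y, hy, a, -, rfl⟩ := mem_LL_succ.1 hf
        exact mem_LL_succ.2 ⟨y i, (ih y).1 hy i hi, a i, trivial, rfl⟩
      · intro hf
        have hch : ∀ i, ∃ p : T × T, (i ∈ S → p.1 ∈ LL θ ⊤ (J i) j) ∧ p.1 + θ j • p.2 = f i := by
          intro i
          by_cases hi : i ∈ S
          · obtain ⟨y, hy, a, -, h⟩ := mem_LL_succ.1 (hf i hi)
            exact ⟨(y, a), fun _ => hy, h⟩
          · exact ⟨(f i, 0), fun h => absurd h hi, by simp⟩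
        choose p hp1 hp2 using hch
        refine mem_LL_succ.2 ⟨fun i => (p i).1, (ih _).2 fun i hi => hp1 i hi,
          fun i => (p i).2, trivial, ?_⟩
        funext i
        exact hp2 i
  intro j hj f _ hf
  rw [key] at hf ⊢
  intro i hi
  exact h i hi j hj (f i) trivial (hf i hi)

end General

end Pool.Agent.RelH
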