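import Pool.Agent.Lib_helper41.FlipKEY

namespace Pool.Agent.Flip

open Finset BigOperators

theorem TT_eq' {V : Type} [Fintype V] (f g h : V → V → ℤ) :
    ∑ x, ∑ y, h x y * (∑ w, f w x * g w y) = TT f g h := by
  unfold TT
  simp only [Finset.mul_sum]
  have : ∀ x : V, ∑ y, ∑ w, h x y * (f w x * g w y) = ∑ w, ∑ y, h x y * (f w x * g w y) :=
    fun x => Finset.sum_comm
  simp only [this]
  rw [Finset.sum_comm]
  refine Finset.sum_congr rfl fun v _ => Finset.sum_congr rfl fun x _ =>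
    Finset.sum_congr rfl fun y _ => ?_
  ring

theorem Core.J_proof {V : Type} [Fintype V] [Nonempty V] {β ρ : V → V → ℤ} {b r : ℤ}
    (h : Core β ρ b r) (m : ℤ) (hm : 0 ≤ m) (hbr : b ≤ r) (h2 : 2 * m ≤ r - b + 1) :
    r * (2 * m * b - (b ^ 2 + b - 2 - 2 * r)) ≤ m * (m + 1) * (Fintype.card V - 1 - r) := by
  classical
  -- basic facts
  have β0 : ∀ x y, 0 ≤ β x y := fun x y => by rcases h.β01 x y with e | e <;> omega
  have ρ0 : ∀ x y, 0 ≤ ρ x y := fun x y => by rcases h.ρ01 x y with e | e <;> omega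
  have β1 : ∀ x y, β x y ≤ 1 := fun x y => by rcases h.β01 x y with e | e <;> omega
  have ρ1 : ∀ x y, ρ x y ≤ 1 := fun x y => by rcases h.ρ01 x y with e | e <;> omega
  have ββ : ∀ x y, β x y * β x y = β x y := fun x y => by
    rcases h.β01 x y with e | e <;> rw [e] <;> norm_num
  have ρρ : ∀ x y, ρ x y * ρ x y = ρ x y := fun x y => by
    rcases h.ρ01 x y with e | e <;> rw [e] <;> norm_num
  obtain ⟨om, homd⟩ : ∃ om : V → V → ℤ, ∀ v w, om v w = 1 - ρ v w - (if v = w then 1 else 0) :=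
    ⟨_, fun _ _ => rfl⟩
  obtain ⟨k, hk⟩ : ∃ k : V → V → ℤ, ∀ v w, k v w = ∑ x, β v x * ρ w x := ⟨_, fun _ _ => rfl⟩
  have om0 : ∀ v w, 0 ≤ om v w := fun v w => by
    rw [homd]
    split_ifs with e
    · subst e; rw [h.ρd]; norm_num
    · have := ρ1 v w; omega
  have om1 : ∀ v w, om v w ≤ 1 := fun v w => by
    rw [homd]
    have := ρ0 v w
    split_ifs <;> omega
  have dB : ∀ x, ∑ v, β v x = b := fun x => by
    rw [← h.degβ x]; exact Finset.sum_congr rfl fun v _ => h.βs v x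
  have dR : ∀ x, ∑ v, ρ v x = r := fun x => by
    rw [← h.degρ x]; exact Finset.sum_congr rfl fun v _ => h.ρs v x
  have kvv : ∀ v, k v v = 0 := fun v => by
    rw [hk]; exact Finset.sum_eq_zero fun x _ => h.dis v x
  set n : ℤ := (Fintype.card V : ℤ) with hn
  have hn0 : 0 < n := by rw [hn]; exact_mod_cast Fintype.card_pos
  -- sums
  have s0 : ∑ v, ∑ w, om v w = n * (n - 1 - r) := by
    have : ∀ v, ∑ w, om v w = n - 1 - r := fun v => by
      simp only [homd, Finset.sum_sub_distrib, h.degρ, Finset.sum_ite_eq, Finset.mem_univ, if_true,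
        Finset.sum_const, Finset.card_univ, nsmul_eq_mul, mul_one]
      rw [hn]; ring
    simp only [this, Finset.sum_const, Finset.card_univ, nsmul_eq_mul]
    rfl
  have s1 : ∑ v, ∑ w, k v w = n * (b * r) := by
    simp only [hk]
    have : ∀ v : V, ∑ w, ∑ x, β v x * ρ w x = b * r := fun v => by
      rw [Finset.sum_comm]
      simp only [← Finset.mul_sum, dR, ← Finset.sum_mul, h.degβ]
    simp only [this, Finset.sum_const, Finset.card_univ, nsmul_eq_mul]
    rfl
  have s1' : ∑ v, ∑ w, ρ v w * k v w = TT β ρ ρ := by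
    have : TT ρ β ρ = ∑ v, ∑ w, ρ v w * k v w := by
      unfold TT
      refine Finset.sum_congr rfl fun v _ => Finset.sum_congr rfl fun w _ => ?_
      rw [hk, Finset.mul_sum]
      refine Finset.sum_congr rfl fun x _ => ?_
      ring
    rw [← this]; exact TT_swap _ _ _ h.ρs
  have s2 : ∑ v, ∑ w, om v w * k v w = n * (b * r) - TT β ρ ρ := by
    rw [← s1, ← s1', ← Finset.sum_sub_distrib]
    refine Finset.sum_congr rfl fun v _ => ?_
    rw [← Finset.sum_sub_distrib]
    refine Finset.sum_congr rfl fun w _ => ?_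
    rw [homd]
    split_ifs with e
    · subst e; rw [kvv]; ring
    · ring
  -- the quadratic sum
  have q1 : ∑ v, ∑ w, om v w * k v w ^ 2 =
      ∑ x, ∑ y, ∑ v, ∑ w, om v w * (β v x * β v y) * (ρ w x * ρ w y) := by
    have e1 : ∀ v w, om v w * k v w ^ 2 =
        ∑ x, ∑ y, om v w * (β v x * β v y) * (ρ w x * ρ w y) := fun v w => by
      rw [hk, sq, Finset.sum_mul_sum, Finset.mul_sum]
      refine Finset.sum_congr rfl fun x _ => ?_
      rw [Finset.mul_sum]
      refine Finset.sum_congr rfl fun y _ => ?_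
      ring
    simp only [e1]
    calc ∑ v, ∑ w, ∑ x, ∑ y, om v w * (β v x * β v y) * (ρ w x * ρ w y)
        = ∑ v, ∑ x, ∑ w, ∑ y, om v w * (β v x * β v y) * (ρ w x * ρ w y) :=
          Finset.sum_congr rfl fun v _ => Finset.sum_comm
      _ = ∑ x, ∑ v, ∑ w, ∑ y, om v w * (β v x * β v y) * (ρ w x * ρ w y) := Finset.sum_comm
      _ = ∑ x, ∑ v, ∑ y, ∑ w, om v w * (β v x * β v y) * (ρ w x * ρ w y) :=
          Finset.sum_congr rfl fun x _ => Finset.sum_congr rfl fun v _ => Finset.sum_comm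
      _ = ∑ x, ∑ y, ∑ v, ∑ w, om v w * (β v x * β v y) * (ρ w x * ρ w y) :=
          Finset.sum_congr rfl fun x _ => Finset.sum_comm
  have gb : ∀ x y, ∑ v, ∑ w, om v w * (β v x * β v y) * (ρ w x * ρ w y) ≤
      (∑ v, β v x * β v y) * (∑ w, ρ w x * ρ w y) := fun x y => by
    rw [Finset.sum_mul_sum]
    refine Finset.sum_le_sum fun v _ => Finset.sum_le_sum fun w _ => ?_
    have h1 : 0 ≤ (β v x * β v y) * (ρ w x * ρ w y) :=
      mul_nonneg (mul_nonneg (β0 _ _) (β0 _ _)) (mul_nonneg (ρ0 _ _) (ρ0 _ _))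
    nlinarith [om1 v w]
  have cB0 : ∀ x y, 0 ≤ ∑ v, β v x * β v y := fun x y =>
    Finset.sum_nonneg fun v _ => mul_nonneg (β0 _ _) (β0 _ _)
  have cR0 : ∀ x y, 0 ≤ ∑ w, ρ w x * ρ w y := fun x y =>
    Finset.sum_nonneg fun v _ => mul_nonneg (ρ0 _ _) (ρ0 _ _)
  have cBle : ∀ x y, ∑ v, β v x * β v y ≤ b := fun x y => by
    rw [← dB x]
    refine Finset.sum_le_sum fun v _ => ?_
    nlinarith [β0 v x, β1 v y]
  have cRle : ∀ x y, ∑ v, ρ v x * ρ v y ≤ r := fun x y => by
    rw [← dR x]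
    refine Finset.sum_le_sum fun v _ => ?_
    nlinarith [ρ0 v x, ρ1 v y]
  have cBle1 : ∀ x y, β x y = 1 → ∑ v, β v x * β v y ≤ b - 1 := fun x y hxy => by
    have : ∑ v, β v x * β v y ≤ ∑ v, (β v x - if v = y then 1 else 0) := by
      refine Finset.sum_le_sum fun v _ => ?_
      split_ifs with e
      · subst e; rw [h.βd, h.βs v x, hxy]; norm_num
      · nlinarith [β0 v x, β1 v y]
    refine this.trans ?_
    rw [Finset.sum_sub_distrib, dB]
    simp
  have gx : ∀ x y, ∑ v, ∑ w, om v w * (β v x * β v y) * (ρ w x * ρ w y) ≤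
      (if x = y then ∑ v, ∑ w, om v w * (β v x * ρ w x) else 0)
      + (b - 1) * (β x y * (∑ w, ρ w x * ρ w y)) + b * (ρ x y * (∑ w, ρ w x * ρ w y))
      + r * ((∑ v, β v x * β v y) - (if x = y then b else 0)
          - (β x y * (∑ v, β v x * β v y)) - (ρ x y * (∑ v, β v x * β v y))) := fun x y => by
    by_cases e : x = y
    · subst e
      rw [if_pos rfl, if_pos rfl, h.βd, h.ρd]
      have e1 : ∑ v, β v x * β v x = b := by simp only [ββ, dB]
      rw [e1]
      have e2 : ∀ v w, om v w * (β v x * β v x) * (ρ w x * ρ w x) = om v w * (β v x * ρ w x) :=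
        fun v w => by rw [ββ, ρρ]; ring
      simp only [e2]
      linarith
    · rw [if_neg e, if_neg e]
      rcases h.β01 x y with e1 | e1
      · rcases h.ρ01 x y with e2 | e2
        · rw [e1, e2]
          refine (gb x y).trans ?_
          nlinarith [cRle x y, cB0 x y]
        · rw [e1, e2]
          refine (gb x y).trans ?_
          nlinarith [cBle x y, cR0 x y]
      · have e2 : ρ x y = 0 := by have := h.dis x y; rw [e1] at this; linarith
        rw [e1, e2]
        refine (gb x y).trans ?_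
        nlinarith [cBle1 x y e1, cR0 x y]
  have t_D : ∑ x, ∑ y, (if x = y then ∑ v, ∑ w, om v w * (β v x * ρ w x) else 0) =
      n * (b * r) - TT β ρ ρ := by
    rw [← s2]
    simp only [Finset.sum_ite_eq, Finset.mem_univ, if_true]
    rw [Finset.sum_comm]
    refine Finset.sum_congr rfl fun v _ => ?_
    rw [Finset.sum_comm]
    refine Finset.sum_congr rfl fun w _ => ?_
    rw [hk, Finset.mul_sum]
  have t_B : ∑ x, ∑ y, (∑ v, β v x * β v y) = n * (b * b) := by
    have e1 : ∀ x : V, ∑ y, (∑ v, β v x * β v y) = ∑ v, β v x * b := fun x => by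
      rw [Finset.sum_comm]
      refine Finset.sum_congr rfl fun v _ => ?_
      rw [← Finset.mul_sum, h.degβ]
    simp only [e1, ← Finset.sum_mul, dB, Finset.sum_const, Finset.card_univ, nsmul_eq_mul]
    rw [hn]; ring
  have t_I : ∑ x : V, ∑ y, (if x = y then b else 0) = n * b := by
    simp only [Finset.sum_ite_eq, Finset.mem_univ, if_true, Finset.sum_const, Finset.card_univ,
      nsmul_eq_mul]
    rfl
  have q2 : ∑ v, ∑ w, om v w * k v w ^ 2 ≤ (n * (b * r) - TT β ρ ρ) + (b - 1) * TT ρ ρ β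
      + b * TT ρ ρ ρ + r * (n * (b * b) - n * b - TT β β β - TT β β ρ) := by
    rw [q1]
    refine (Finset.sum_le_sum fun x _ => Finset.sum_le_sum fun y _ => gx x y).trans ?_
    simp only [Finset.sum_add_distrib, Finset.sum_sub_distrib, ← Finset.mul_sum]
    rw [t_D, t_B, t_I]
    have a1 := TT_eq' ρ ρ β
    have a2 := TT_eq' ρ ρ ρ
    have a3 := TT_eq' β β β
    have a4 := TT_eq' β β ρ
    rw [a1, a2, a3, a4]
  have pos : 0 ≤ ∑ v, ∑ w, om v w * ((k v w - m) * (k v w - m - 1)) := by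
    refine Finset.sum_nonneg fun v _ => Finset.sum_nonneg fun w _ => mul_nonneg (om0 v w) ?_
    rcases le_or_gt (k v w - m) 0 with e | e
    · nlinarith
    · exact mul_nonneg e.le (by omega)
  have ex : ∑ v, ∑ w, om v w * ((k v w - m) * (k v w - m - 1)) =
      ∑ v, ∑ w, om v w * k v w ^ 2 - (2 * m + 1) * ∑ v, ∑ w, om v w * k v w
        + m * (m + 1) * ∑ v, ∑ w, om v w := by
    simp only [Finset.mul_sum, ← Finset.sum_add_distrib, ← Finset.sum_sub_distrib]
    refine Finset.sum_congr rfl fun v _ => Finset.sum_congr rfl fun w _ => ?_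
    ring
  rw [ex, s2, s0] at pos
  have key := h.key_proof
  have e3 : ∑ v, ∑ x, ∑ y, ρ v x * ρ v y * (β x y + ρ x y) = TT ρ ρ β + TT ρ ρ ρ :=
    TT_add3 ρ ρ β ρ
  have e4 : ∑ v, ∑ x, ∑ y, β v x * β v y * (β x y + ρ x y) = TT β β β + TT β β ρ :=
    TT_add3 β β β ρ
  rw [e3, e4] at key
  have a3 : TT ρ β ρ = TT β ρ ρ := TT_swap _ _ _ h.ρs
  have a4 : TT ρ ρ β = TT ρ β ρ := TT_rot _ _ _ h.ρs
  have t1nn : 0 ≤ TT β ρ ρ := Finset.sum_nonneg fun v _ => Finset.sum_nonneg fun x _ =>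
    Finset.sum_nonneg fun y _ => mul_nonneg (mul_nonneg (β0 _ _) (ρ0 _ _)) (ρ0 _ _)
  have t0nn : 0 ≤ TT ρ ρ ρ := Finset.sum_nonneg fun v _ => Finset.sum_nonneg fun x _ =>
    Finset.sum_nonneg fun y _ => mul_nonneg (mul_nonneg (ρ0 _ _) (ρ0 _ _)) (ρ0 _ _)
  rw [a4, a3] at key q2
  have hr0 : 0 ≤ r := by
    obtain ⟨v⟩ := (inferInstance : Nonempty V)
    rw [← dR v]; exact Finset.sum_nonneg fun w _ => ρ0 _ _
  set t1 := TT β ρ ρ
  set t0 := TT ρ ρ ρ
  set t32 := TT β β β + TT β β ρ with ht32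
  have key' : 2 * n * (r - b + 1) + (t1 + t0) ≤ t32 := key
  have F : 0 ≤ n * (m * (m + 1) * (n - 1 - r) - r * (2 * m * b - (b ^ 2 + b - 2 - 2 * r))) := by
    have h3 : r * (2 * n * (r - b + 1) + (t1 + t0)) ≤ r * t32 := mul_le_mul_of_nonneg_left key' hr0
    have h4 : 0 ≤ (r - b + 1 - 2 * m) * t1 := mul_nonneg (by linarith) t1nn
    have h5 : 0 ≤ (r - b) * t0 := mul_nonneg (by linarith) t0nn
    have q3 : ∑ v, ∑ w, om v w * k v w ^ 2 ≤ (n * (b * r) - t1) + (b - 1) * t1
      + b * t0 + r * (n * (b * b) - n * b - t32) := by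
      have : n * (b * b) - n * b - t32 = n * (b * b) - n * b - TT β β β - TT β β ρ := by
        rw [ht32]; ring
      rw [this]; exact q2
    nlinarith [pos, q3, h3, h4, h5]
  have := nonneg_of_mul_nonneg_right F hn0
  linarith

end Pool.Agent.Flip
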