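import Pool.Agent.Lib_helper89.FlipDefs

namespace Pool.Agent.Flip

open Finset BigOperators

/-- triple sum -/
def TT {V : Type} [Fintype V] (f g h : V → V → ℤ) : ℤ :=
  ∑ v, ∑ x, ∑ y, f v x * g v y * h x y

theorem TT_swap {V : Type} [Fintype V] (f g h : V → V → ℤ) (hs : ∀ x y, h x y = h y x) :
    TT f g h = TT g f h := by
  unfold TT
  refine Finset.sum_congr rfl fun v _ => ?_
  rw [Finset.sum_comm]
  refine Finset.sum_congr rfl fun x _ => Finset.sum_congr rfl fun y _ => ?_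
  rw [hs y x]; ring

theorem TT_rot {V : Type} [Fintype V] (f g h : V → V → ℤ) (fs : ∀ x y, f x y = f y x) :
    TT f g h = TT f h g := by
  unfold TT
  rw [Finset.sum_comm]
  refine Finset.sum_congr rfl fun v _ => Finset.sum_congr rfl fun x _ =>
    Finset.sum_congr rfl fun y _ => ?_
  rw [fs x v]; ring

theorem TT_add3 {V : Type} [Fintype V] (f g h k : V → V → ℤ) :
    TT f g (fun x y => h x y + k x y) = TT f g h + TT f g k := by
  unfold TT
  simp only [mul_add, Finset.sum_add_distrib]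

theorem Core.key_proof {V : Type} [Fintype V] {β ρ : V → V → ℤ} {b r : ℤ} (h : Core β ρ b r) :
    2 * (Fintype.card V : ℤ) * (r - b + 1) +
        ∑ v, ∑ x, ∑ y, ρ v x * ρ v y * (β x y + ρ x y)
      ≤ ∑ v, ∑ x, ∑ y, β v x * β v y * (β x y + ρ x y) := by
  have e1 : ∑ v : V, ∑ x, ∑ y, (β v x + ρ v x) * (β v y + ρ v y) * (β x y - ρ x y) =
      TT β β β + TT β ρ β + TT ρ β β + TT ρ ρ β - TT β β ρ - TT β ρ ρ - TT ρ β ρ - TT ρ ρ ρ := by
    unfold TT
    simp only [← Finset.sum_add_distrib, ← Finset.sum_sub_distrib]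
    refine Finset.sum_congr rfl fun v _ => Finset.sum_congr rfl fun x _ =>
      Finset.sum_congr rfl fun y _ => ?_
    ring
  have e2 : ∑ v : V, (2 * (r - b + 1)) ≤
      ∑ v : V, ∑ x, ∑ y, (β v x + ρ v x) * (β v y + ρ v y) * (β x y - ρ x y) :=
    Finset.sum_le_sum fun v _ => h.flip v
  rw [Finset.sum_const, Finset.card_univ, nsmul_eq_mul, e1] at e2
  have e3 : ∑ v, ∑ x, ∑ y, ρ v x * ρ v y * (β x y + ρ x y) = TT ρ ρ β + TT ρ ρ ρ :=
    TT_add3 ρ ρ β ρ
  have e4 : ∑ v, ∑ x, ∑ y, β v x * β v y * (β x y + ρ x y) = TT β β β + TT β β ρ :=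
    TT_add3 β β β ρ
  rw [e3, e4]
  have a1 : TT ρ β β = TT β ρ β := TT_swap _ _ _ h.βs
  have a2 : TT β ρ β = TT β β ρ := TT_rot _ _ _ h.βs
  have a3 : TT ρ β ρ = TT β ρ ρ := TT_swap _ _ _ h.ρs
  have a4 : TT ρ ρ β = TT ρ β ρ := TT_rot _ _ _ h.ρs
  nlinarith [e2]

end Pool.Agent.Flip
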