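import Pool.Agent.Lib_helper41.FlipKEY

namespace Pool.Agent.Flip

open Finset BigOperators

theorem card_nb {V : Type} [Fintype V] [DecidableEq V] (f : V → V → ℤ) (c : ℕ)
    (f01 : ∀ x y, f x y = 0 ∨ f x y = 1) (hd : ∀ x, ∑ y, f x y = c) (v : V) :
    (Finset.univ.filter (fun x => f v x = 1)).card = c := by
  have e : ∀ y, f v y = if f v y = 1 then 1 else 0 := fun y => by
    rcases f01 v y with e | e <;> rw [e] <;> norm_num
  have := hd v
  rw [Finset.sum_congr rfl fun y _ => e y] at this
  rw [Finset.sum_boole] at this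
  exact_mod_cast this

theorem Core.top_proof {V : Type} [Fintype V] [Nonempty V] {β ρ : V → V → ℤ} {b r : ℕ}
    (h : Core β ρ b r) (hb : 3 ≤ b) (hr : 2 * r + 2 = b * (b + 1)) :
    (b + 1) * (r + 1) ≤ Fintype.card V := by
  classical
  have β0 : ∀ x y, 0 ≤ β x y := fun x y => by rcases h.β01 x y with e | e <;> omega
  have ρ0 : ∀ x y, 0 ≤ ρ x y := fun x y => by rcases h.ρ01 x y with e | e <;> omega
  have M01 : ∀ x y, β x y + ρ x y = 0 ∨ β x y + ρ x y = 1 := fun x y => by
    have := h.dis x y
    rcases h.β01 x y with e | e <;> rcases h.ρ01 x y with e' | e' <;> rw [e, e'] at this ⊢ <;>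
      simp at this ⊢
  have Ms : ∀ x y, β x y + ρ x y = β y x + ρ y x := fun x y => by rw [h.βs, h.ρs]
  have dB : ∀ x, ∑ v, β v x = b := fun x => by
    rw [← h.degβ x]; exact Finset.sum_congr rfl fun v _ => h.βs v x
  have key := h.key_proof
  have hrZ : 2 * (r : ℤ) + 2 = b * (b + 1) := by exact_mod_cast hr
  -- the two extremal properties
  have nn1 : ∀ v x y, 0 ≤ ρ v x * ρ v y * (β x y + ρ x y) := fun v x y =>
    mul_nonneg (mul_nonneg (ρ0 _ _) (ρ0 _ _)) (by have := β0 x y; have := ρ0 x y; linarith)
  have nn2 : ∀ v x y, 0 ≤ β v x * β v y * (1 - (if x = y then 1 else 0) - (β x y + ρ x y)) :=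
    fun v x y => by
      refine mul_nonneg (mul_nonneg (β0 _ _) (β0 _ _)) ?_
      split_ifs with e
      · subst e; rw [h.βd, h.ρd]; norm_num
      · rcases M01 x y with e | e <;> rw [e] <;> norm_num
  have tot : ∑ v, ∑ x, ∑ y, β v x * β v y * (1 - (if x = y then 1 else 0) - (β x y + ρ x y)) =
      (Fintype.card V : ℤ) * (b * b - b) - ∑ v, ∑ x, ∑ y, β v x * β v y * (β x y + ρ x y) := by
    have e1 : ∀ v, ∑ x, ∑ y, β v x * β v y = (b : ℤ) * b := fun v => by
      rw [← Finset.sum_mul_sum, h.degβ]
    have e2 : ∀ v, ∑ x, ∑ y, β v x * β v y * (if x = y then 1 else 0) = (b : ℤ) := fun v => by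
      simp only [mul_ite, mul_one, mul_zero, Finset.sum_ite_eq, Finset.mem_univ, if_true]
      have : ∀ x, β v x * β v x = β v x := fun x => by
        rcases h.β01 v x with e | e <;> rw [e] <;> norm_num
      simp only [this, h.degβ]
    simp only [mul_sub, mul_one, Finset.sum_sub_distrib, e1, e2]
    simp only [Finset.sum_const, Finset.card_univ, nsmul_eq_mul]
  have S1 : 0 ≤ ∑ v, ∑ x, ∑ y, ρ v x * ρ v y * (β x y + ρ x y) :=
    Finset.sum_nonneg fun v _ => Finset.sum_nonneg fun x _ => Finset.sum_nonneg fun y _ => nn1 v x y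
  have S2 : 0 ≤ ∑ v, ∑ x, ∑ y,
      β v x * β v y * (1 - (if x = y then 1 else 0) - (β x y + ρ x y)) :=
    Finset.sum_nonneg fun v _ => Finset.sum_nonneg fun x _ => Finset.sum_nonneg fun y _ => nn2 v x y
  have hE : 2 * (Fintype.card V : ℤ) * ((r : ℤ) - b + 1) = (Fintype.card V : ℤ) * (b * b - b) := by
    have : 2 * ((r : ℤ) - b + 1) = b * b - b := by linarith
    calc 2 * (Fintype.card V : ℤ) * ((r : ℤ) - b + 1)
        = (Fintype.card V : ℤ) * (2 * ((r : ℤ) - b + 1)) := by ring
      _ = _ := by rw [this]
  rw [hE] at key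
  rw [tot] at S2
  have S1z : ∑ v, ∑ x, ∑ y, ρ v x * ρ v y * (β x y + ρ x y) = 0 := by linarith
  have S2z : ∑ v, ∑ x, ∑ y,
      β v x * β v y * (1 - (if x = y then 1 else 0) - (β x y + ρ x y)) = 0 := by
    rw [tot]; linarith
  have zero3 : ∀ F : V → V → V → ℤ, (∀ v x y, 0 ≤ F v x y) → ∑ v, ∑ x, ∑ y, F v x y = 0 →
      ∀ v x y, F v x y = 0 := by
    intro F hF hs v x y
    have a1 := (Finset.sum_eq_zero_iff_of_nonneg (fun v _ => Finset.sum_nonneg fun x _ =>
      Finset.sum_nonneg fun y _ => hF v x y)).1 hs v (Finset.mem_univ _)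
    have a2 := (Finset.sum_eq_zero_iff_of_nonneg (fun x _ =>
      Finset.sum_nonneg fun y _ => hF v x y)).1 a1 x (Finset.mem_univ _)
    exact (Finset.sum_eq_zero_iff_of_nonneg (fun y _ => hF v x y)).1 a2 y (Finset.mem_univ _)
  have P2 : ∀ v x y, ρ v x = 1 → ρ v y = 1 → β x y + ρ x y = 0 := fun v x y hx hy => by
    have := zero3 _ nn1 S1z v x y
    rw [hx, hy] at this; linarith
  have P1 : ∀ v x y, β v x = 1 → β v y = 1 → x ≠ y → β x y + ρ x y = 1 := fun v x y hx hy hxy => by
    have := zero3 _ nn2 S2z v x y
    rw [hx, hy, if_neg hxy] at this; linarith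
  -- neighbourhoods
  obtain ⟨NB, hNB⟩ : ∃ NB : V → Finset V, ∀ v, NB v = Finset.univ.filter (fun x => β v x = 1) :=
    ⟨_, fun _ => rfl⟩
  obtain ⟨NR, hNR⟩ : ∃ NR : V → Finset V, ∀ v, NR v = Finset.univ.filter (fun x => ρ v x = 1) :=
    ⟨_, fun _ => rfl⟩
  have cNB : ∀ v, (NB v).card = b := fun v => by
    rw [hNB]; exact card_nb β b h.β01 h.degβ v
  have cNR : ∀ v, (NR v).card = r := fun v => by
    rw [hNR]; exact card_nb ρ r h.ρ01 h.degρ v
  have mNB : ∀ v x, x ∈ NB v ↔ β v x = 1 := fun v x => by rw [hNB]; simp
  have mNR : ∀ v x, x ∈ NR v ↔ ρ v x = 1 := fun v x => by rw [hNR]; simp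
  have disjK : ∀ K : Finset V, (∀ x ∈ K, ∀ y ∈ K, x ≠ y → β x y + ρ x y = 1) →
      (K.biUnion NR).card = K.card * r := by
    intro K hK
    rw [Finset.card_biUnion]
    · simp [cNR]
    · intro x hx y hy hxy
      show Disjoint (NR x) (NR y)
      rw [Finset.disjoint_left]
      intro w hw1 hw2
      rw [mNR] at hw1 hw2
      have := P2 w x y (by rw [h.ρs]; exact hw1) (by rw [h.ρs]; exact hw2)
      rw [hK x hx y hy hxy] at this
      exact one_ne_zero this
  by_cases big : ∃ K : Finset V, (∀ x ∈ K, ∀ y ∈ K, x ≠ y → β x y + ρ x y = 1) ∧ K.card = b + 2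
  · obtain ⟨K, hK, hc⟩ := big
    have h1 := disjK K hK
    have h2 : (K.biUnion NR).card ≤ Fintype.card V := Finset.card_le_univ _
    rw [h1, hc] at h2
    have h3 : b + 1 ≤ r := by nlinarith
    nlinarith
  · obtain ⟨v⟩ := (inferInstance : Nonempty V)
    have vB : v ∉ NB v := by rw [mNB, h.βd]; norm_num
    have hK : ∀ x ∈ insert v (NB v), ∀ y ∈ insert v (NB v), x ≠ y → β x y + ρ x y = 1 := by
      intro x hx y hy hxy
      rw [Finset.mem_insert, mNB] at hx hy
      have blue : ∀ z, β v z = 1 → β v z + ρ v z = 1 := fun z hz => by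
        have := h.dis v z
        rw [hz, one_mul] at this
        rw [hz, this]; norm_num
      rcases hx with rfl | hx
      · rcases hy with rfl | hy
        · exact absurd rfl hxy
        · exact blue y hy
      · rcases hy with rfl | hy
        · rw [Ms]; exact blue x hx
        · exact P1 v x y hx hy hxy
    have cK : (insert v (NB v)).card = b + 1 := by
      rw [Finset.card_insert_of_notMem vB, cNB]
    by_cases allb : ∀ x ∈ insert v (NB v), ∀ y ∈ insert v (NB v), x ≠ y → β x y = 1
    · have h1 := disjK _ hK
      have h2 : Disjoint (insert v (NB v)) ((insert v (NB v)).biUnion NR) := by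
        rw [Finset.disjoint_left]
        intro w hw1 hw2
        rw [Finset.mem_biUnion] at hw2
        obtain ⟨x, hx, hxw⟩ := hw2
        rw [mNR] at hxw
        by_cases e : x = w
        · subst e; rw [h.ρd] at hxw; norm_num at hxw
        · have := h.dis x w
          rw [allb x hx w hw1 e, hxw] at this
          norm_num at this
      have h3 := Finset.card_union_of_disjoint h2
      have h4 : ((insert v (NB v)) ∪ ((insert v (NB v)).biUnion NR)).card ≤ Fintype.card V :=
        Finset.card_le_univ _
      rw [h3, h1, cK] at h4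
      nlinarith
    · exfalso
      apply big
      push Not at allb
      obtain ⟨x, hx, y, hy, hxy, hb'⟩ := allb
      have hxv : β v x = 1 := by
        rw [Finset.mem_insert, mNB] at hx hy
        rcases hx with rfl | hx
        · rcases hy with rfl | hy
          · exact absurd rfl hxy
          · exact absurd hy hb'
        · exact hx
      have hyv : β v y = 1 := by
        rw [Finset.mem_insert, mNB] at hx hy
        rcases hy with rfl | hy
        · exact absurd (by rw [h.βs]; exact hxv) hb'
        · exact hy
      have hxyr : ρ x y = 1 := by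
        have := P1 v x y hxv hyv hxy
        rcases h.β01 x y with e | e
        · rw [e] at this; linarith
        · exact absurd e hb'
      have hyxr : ρ y x = 1 := by rw [h.ρs]; exact hxyr
      have hxvb : β x v = 1 := by rw [h.βs]; exact hxv
      -- z in B(v), z ≠ x, y : zx blue and zy blue
      have zx : ∀ z, β v z = 1 → z ≠ x → z ≠ y → β x z = 1 := fun z hz h1 h2 => by
        have a := P1 v x z hxv hz (Ne.symm h1)
        rcases h.β01 x z with e | e
        · have e' : ρ x z = 1 := by rw [e] at a; linarith
          have := P2 x z y e' hxyr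
          rw [P1 v z y hz hyv h2] at this
          exact absurd this one_ne_zero
        · exact e
      have zy : ∀ z, β v z = 1 → z ≠ x → z ≠ y → β z y = 1 := fun z hz h1 h2 => by
        have a := P1 v z y hz hyv h2
        rcases h.β01 z y with e | e
        · have e' : ρ z y = 1 := by rw [e] at a; linarith
          have := P2 y z x (by rw [h.ρs]; exact e') hyxr
          rw [P1 v z x hz hxv h1] at this
          exact absurd this one_ne_zero
        · exact e
      -- the new vertex
      have ex' : ∃ x', β x x' = 1 ∧ x' ∉ insert v (NB v) := by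
        by_contra hcon
        push Not at hcon
        have sub : NB x ⊆ ((insert v (NB v)).erase x).erase y := by
          intro w hw
          rw [mNB] at hw
          refine Finset.mem_erase.2 ⟨?_, Finset.mem_erase.2 ⟨?_, hcon w hw⟩⟩
          · rintro rfl; exact hb' hw
          · rintro rfl; rw [h.βd] at hw; norm_num at hw
        have c1 := Finset.card_le_card sub
        rw [cNB] at c1
        have hy2 : y ∈ (insert v (NB v)).erase x := Finset.mem_erase.2 ⟨Ne.symm hxy, hy⟩
        rw [Finset.card_erase_of_mem hy2, Finset.card_erase_of_mem hx, cK] at c1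
        omega
      obtain ⟨x', hxx', hx'K⟩ := ex'
      have hx'v : x' ≠ v := by rintro rfl; exact hx'K (Finset.mem_insert_self _ _)
      have hx'B : β v x' ≠ 1 := fun e => hx'K (Finset.mem_insert_of_mem ((mNB _ _).2 e))
      have hvx' : β v x' + ρ v x' = 1 := P1 x v x' hxvb hxx' (Ne.symm hx'v)
      have hvx'r : ρ v x' = 1 := by
        rcases h.β01 v x' with e | e
        · rw [e] at hvx'; linarith
        · exact absurd e hx'B
      have hx'vr : ρ x' v = 1 := by rw [h.ρs]; exact hvx'r
      have x'z : ∀ z, β v z = 1 → z ≠ x → z ≠ y → β x' z + ρ x' z = 1 := fun z hz h1 h2 =>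
        P1 x x' z hxx' (zx z hz h1 h2) (by rintro rfl; exact hx'B hz)
      have x'y : β x' y + ρ x' y = 1 := by
        -- take z
        have : ∃ z, β v z = 1 ∧ z ≠ x ∧ z ≠ y := by
          have c1 : 0 < (((NB v).erase x).erase y).card := by
            have := Finset.pred_card_le_card_erase (s := (NB v).erase x) (a := y)
            have := Finset.pred_card_le_card_erase (s := NB v) (a := x)
            rw [cNB] at this
            omega
          obtain ⟨z, hz⟩ := Finset.card_pos.1 c1
          rw [Finset.mem_erase, Finset.mem_erase, mNB] at hz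
          exact ⟨z, hz.2.2, hz.2.1, hz.1⟩
        obtain ⟨z, hz, h1, h2⟩ := this
        have a1 := x'z z hz h1 h2
        have a2 : β x' z = 1 := by
          rcases h.β01 x' z with e | e
          · have e' : ρ x' z = 1 := by rw [e] at a1; linarith
            have := P2 x' v z hx'vr e'
            have hd := h.dis v z
            rw [hz] at this hd
            rw [one_mul] at hd
            rw [hd] at this
            norm_num at this
          · exact e
        exact P1 z x' y (by rw [h.βs]; exact a2) (zy z hz h1 h2) (by rintro rfl; exact hx'B hyv)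
      have x'all : ∀ z ∈ insert v (NB v), β x' z + ρ x' z = 1 := by
        intro z hz
        rw [Finset.mem_insert, mNB] at hz
        rcases hz with rfl | hz
        · rw [Ms]; exact hvx'
        · by_cases e1 : z = x
          · subst e1
            have e2 : β x' z = 1 := by rw [h.βs]; exact hxx'
            have := h.dis x' z
            rw [e2, one_mul] at this
            rw [e2, this]; norm_num
          · by_cases e2 : z = y
            · subst e2; exact x'y
            · exact x'z z hz e1 e2
      refine ⟨insert x' (insert v (NB v)), ?_, ?_⟩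
      · intro p hp q hq hpq
        rw [Finset.mem_insert] at hp hq
        rcases hp with rfl | hp
        · rcases hq with rfl | hq
          · exact absurd rfl hpq
          · exact x'all q hq
        · rcases hq with rfl | hq
          · rw [Ms]; exact x'all p hp
          · exact hK p hp q hq hpq
      · rw [Finset.card_insert_of_notMem hx'K, cK]

end Pool.Agent.Flip
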