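import Pool.Agent.Lib_helper58.GNU.Defs

/-!
Blocks LEN-A and LEN-B: the length function over an abstract `F : FG O`.
-/

set_option autoImplicit false

namespace Pool.Agent.GNU

section LEN

variable {O : Type} (F : FG O) {D : O → O → ℤ}

/-- product of a word -/
def FG.wd (l : List (O × O)) : F.H := (l.map fun p => F.pr p.1 p.2).prod

lemma FG.wd_nil : F.wd [] = 1 := rfl

lemma FG.wd_cons (p : O × O) (l : List (O × O)) : F.wd (p :: l) = F.pr p.1 p.2 * F.wd l := by
  simp [FG.wd]

lemma FG.wd_append (l l' : List (O × O)) : F.wd (l ++ l') = F.wd l * F.wd l' := by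
  simp [FG.wd]

lemma FG.wd_nf (h : F.H) : F.wd (F.nf h) = h := F.prod_nf h

lemma FG.nf_wd {l : List (O × O)} (hl : NF l) : F.nf (F.wd l) = l := F.nf_prod l hl

lemma NF_nil : NF ([] : List (O × O)) := ⟨by simp, by simp⟩

lemma NF_cons {p : O × O} {l : List (O × O)} :
    NF (p :: l) ↔ p.1 ≠ p.2 ∧ (∀ r ∈ l.head?, p.2 ≠ r.1) ∧ NF l := by
  unfold NF
  rw [List.isChain_cons]
  constructor
  · rintro ⟨h1, h2, h3⟩
    exact ⟨h1 p (by simp), h2, fun x hx => h1 x (by simp [hx]), h3⟩
  · rintro ⟨h1, h2, h3, h4⟩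
    refine ⟨?_, h2, h4⟩
    intro x hx
    rcases List.mem_cons.mp hx with rfl | hx
    · exact h1
    · exact h3 x hx

lemma cost_nil : cost D ([] : List (O × O)) = 0 := rfl

lemma cost_cons (p : O × O) (l : List (O × O)) : cost D (p :: l) = D p.1 p.2 + cost D l := by
  simp [cost]

lemma cost_append (l l' : List (O × O)) : cost D (l ++ l') = cost D l + cost D l' := by
  simp [cost]

lemma FG.L_wd {l : List (O × O)} (hl : NF l) : F.L D (F.wd l) = cost D l := by
  unfold FG.L
  rw [F.nf_wd hl]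

lemma FG.pr_symm (a b : O) : F.pr b a = (F.pr a b)⁻¹ := by
  rw [eq_inv_iff_mul_eq_one, F.pr_mul, F.pr_self]

theorem FG.L_one_proof : F.L D 1 = 0 := by
  rw [← F.wd_nil, F.L_wd NF_nil, cost_nil]

/-- the normal form of `pr a b * m` when `m` avoids `b` -/
lemma FG.nf_push {a b : O} (hab : a ≠ b) {m : F.H} (hm : F.Av m b) :
    F.nf (F.pr a b * m) = (a, b) :: F.nf m := by
  have h1 : F.pr a b * m = F.wd ((a, b) :: F.nf m) := by
    rw [F.wd_cons, F.wd_nf]
  rw [h1]
  apply F.nf_wd
  rw [NF_cons]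
  exact ⟨hab, fun r hr h => hm r hr h.symm, F.nf_NF m⟩

theorem FG.L_pr_proof (h0 : ∀ a, D a a = 0) (a b : O) : F.L D (F.pr a b) = D a b := by
  by_cases hab : a = b
  · subst hab
    rw [F.pr_self, F.L_one_proof, h0]
  · have h1 : F.pr a b = F.wd [(a, b)] := by rw [F.wd_cons, F.wd_nil, mul_one]
    rw [h1, F.L_wd, cost_cons, cost_nil, add_zero]
    rw [NF_cons]
    exact ⟨hab, by simp, NF_nil⟩

theorem FG.L_gate_proof (h0 : ∀ a, D a a = 0) (m : F.H) (p q : O) (hm : F.Av m q) :
    F.L D (F.pr p q * m) = D p q + F.L D m := by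
  by_cases h : p = q
  · subst h
    rw [F.pr_self, one_mul, h0, zero_add]
  · unfold FG.L
    rw [F.nf_push h hm, cost_cons]

/-- Gate decomposition. -/
theorem FG.gate_proof (k : F.H) (o : O) : ∃ q m, k = F.pr o q * m ∧ F.Av m q := by
  have hk := F.wd_nf k
  have hN := F.nf_NF k
  cases hl : F.nf k with
  | nil =>
    refine ⟨o, k, ?_, ?_⟩
    · rw [F.pr_self, one_mul]
    · intro p hp
      rw [hl] at hp
      simp at hp
  | cons p l =>
    rw [hl] at hk hN
    rw [NF_cons] at hN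
    by_cases ho : p.1 = o
    · refine ⟨p.2, F.wd l, ?_, ?_⟩
      · rw [← hk, F.wd_cons, ho]
      · intro r hr
        rw [F.nf_wd hN.2.2] at hr
        exact (hN.2.1 r hr).symm
    · refine ⟨o, k, ?_, ?_⟩
      · rw [F.pr_self, one_mul]
      · intro r hr
        rw [hl] at hr
        simp only [List.head?_cons, Option.mem_def, Option.some.injEq] at hr
        rw [← hr]
        exact ho

/-- Induction on elements. -/
theorem FG.ind_proof {C : F.H → Prop} (one : C 1)
    (mul : ∀ a b m, a ≠ b → F.Av m b → C m → C (F.pr a b * m)) (h : F.H) : C h := by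
  have key : ∀ l : List (O × O), NF l → C (F.wd l) := by
    intro l
    induction l with
    | nil => intro _; exact one
    | cons p l ih =>
      intro hN
      rw [NF_cons] at hN
      rw [F.wd_cons]
      refine mul _ _ _ hN.1 ?_ (ih hN.2.2)
      intro r hr
      rw [F.nf_wd hN.2.2] at hr
      exact (hN.2.1 r hr).symm
  rw [← F.wd_nf h]
  exact key _ (F.nf_NF h)

lemma FG.L_push_le (h0 : ∀ a, D a a = 0) (h1 : ∀ a b c, D a c ≤ D a b + D b c) (a b : O)
    (k : F.H) : F.L D (F.pr a b * k) ≤ D a b + F.L D k := by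
  obtain ⟨q, m, hk, hm⟩ := F.gate_proof k b
  have h2 : F.pr a b * k = F.pr a q * m := by
    rw [hk, ← mul_assoc, F.pr_mul]
  rw [h2, F.L_gate_proof h0 m a q hm, hk, F.L_gate_proof h0 m b q hm]
  have := h1 a b q
  linarith

theorem FG.L_mul_proof (h0 : ∀ a, D a a = 0) (h1 : ∀ a b c, D a c ≤ D a b + D b c) (h k : F.H) :
    F.L D (h * k) ≤ F.L D h + F.L D k := by
  have key : ∀ l : List (O × O), F.L D (F.wd l * k) ≤ cost D l + F.L D k := by
    intro l
    induction l with
    | nil => rw [F.wd_nil, one_mul, cost_nil, zero_add]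
    | cons p l ih =>
      rw [F.wd_cons, cost_cons, mul_assoc]
      have := F.L_push_le h0 h1 p.1 p.2 (F.wd l * k)
      linarith
  have h2 := key (F.nf h)
  rwa [F.wd_nf] at h2

/-- the reversed word -/
def rv (l : List (O × O)) : List (O × O) := (l.map Prod.swap).reverse

lemma rv_cons (p : O × O) (l : List (O × O)) : rv (p :: l) = rv l ++ [p.swap] := by
  simp [rv]

lemma FG.wd_rv (l : List (O × O)) : F.wd (rv l) = (F.wd l)⁻¹ := by
  induction l with
  | nil => simp [rv, FG.wd]
  | cons p l ih =>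
    rw [rv_cons, F.wd_append, ih, F.wd_cons, F.wd_cons, F.wd_nil, mul_one, mul_inv_rev]
    congr 1
    exact F.pr_symm p.1 p.2

lemma NF_rv {l : List (O × O)} (hl : NF l) : NF (rv l) := by
  refine ⟨?_, ?_⟩
  · intro p hp
    simp only [rv, List.mem_reverse, List.mem_map] at hp
    obtain ⟨a, ha, rfl⟩ := hp
    exact (hl.1 a ha).symm
  · unfold rv
    rw [List.isChain_reverse, List.isChain_map]
    exact hl.2.imp fun a b h => Ne.symm h

lemma cost_rv (l : List (O × O)) : cost D (rv l) = cost (fun a b => D b a) l := by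
  induction l with
  | nil => rfl
  | cons p l ih =>
    rw [rv_cons, cost_append, ih, cost_cons, cost_cons, cost_nil]
    simp [add_comm]

lemma FG.nf_inv (h : F.H) : F.nf h⁻¹ = rv (F.nf h) := by
  have h1 : h⁻¹ = F.wd (rv (F.nf h)) := by rw [F.wd_rv, F.wd_nf]
  rw [h1]
  exact F.nf_wd (NF_rv (F.nf_NF h))

/-- Duality. -/
theorem FG.L_inv_proof (h : F.H) : F.L D h⁻¹ = F.L (fun a b => D b a) h := by
  unfold FG.L
  rw [F.nf_inv, cost_rv]

theorem FG.L_gate₂_proof (b m : F.H) (o q : O) (hb : F.Av b o) (hm : F.Av m q) (hq : q ≠ o) :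
    F.L D (b⁻¹ * (F.pr o q * m)) = F.L D b⁻¹ + D o q + F.L D m := by
  have h1 : b⁻¹ * (F.pr o q * m) = F.wd (rv (F.nf b) ++ ((o, q) :: F.nf m)) := by
    rw [F.wd_append, F.wd_rv, F.wd_nf, F.wd_cons, F.wd_nf]
  have h2 : NF (rv (F.nf b) ++ ((o, q) :: F.nf m)) := by
    have hN1 := NF_rv (F.nf_NF b)
    have hN2 : NF ((o, q) :: F.nf m) := by
      rw [NF_cons]
      exact ⟨hq.symm, fun r hr h => hm r hr h.symm, F.nf_NF m⟩
    refine ⟨?_, ?_⟩
    · intro p hp
      rcases List.mem_append.mp hp with h | h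
      · exact hN1.1 p h
      · exact hN2.1 p h
    · rw [List.isChain_append]
      refine ⟨hN1.2, hN2.2, ?_⟩
      intro x hx y hy
      simp only [List.head?_cons, Option.mem_def, Option.some.injEq] at hy
      rw [← hy]
      have h3 : (F.nf b).head?.map Prod.swap = some x := by
        simp only [rv, List.getLast?_reverse, List.head?_map, Option.mem_def] at hx
        exact hx
      rw [Option.map_eq_some_iff] at h3
      obtain ⟨z, hz, hzx⟩ := h3
      rw [← hzx]
      exact hb z hz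
  have h3 : F.L D (b⁻¹ * (F.pr o q * m)) = cost D (rv (F.nf b) ++ ((o, q) :: F.nf m)) := by
    rw [h1, F.L_wd h2]
  rw [h3, cost_append, cost_cons]
  have h4 : F.L D b⁻¹ = cost D (rv (F.nf b)) := by
    unfold FG.L
    rw [F.nf_inv]
  rw [h4]
  unfold FG.L
  ring

theorem FG.length_le_proof (hpos : ∀ a b, a ≠ b → 0 < D a b + D b a) (h : F.H) :
    ((F.nf h).length : ℤ) ≤ F.L D h + F.L D h⁻¹ := by
  rw [F.L_inv_proof]
  unfold FG.L
  have key : ∀ l : List (O × O), NF l →
      (l.length : ℤ) ≤ cost D l + cost (fun a b => D b a) l := by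
    intro l
    induction l with
    | nil => intro _; simp [cost]
    | cons p l ih =>
      intro hN
      rw [NF_cons] at hN
      rw [cost_cons, cost_cons, List.length_cons]
      have h1 := ih hN.2.2
      have h2 := hpos p.1 p.2 hN.1
      push_cast
      linarith
  exact key _ (F.nf_NF h)

theorem FG.nf_two_proof (a b c d : O) (h1 : a ≠ b) (h2 : c ≠ d) (h3 : b ≠ c) :
    (F.nf (F.pr a b * F.pr c d)).length = 2 := by
  have h4 : F.pr a b * F.pr c d = F.wd [(a, b), (c, d)] := by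
    rw [F.wd_cons, F.wd_cons, F.wd_nil, mul_one]
  rw [h4, F.nf_wd]
  · rfl
  · rw [NF_cons, NF_cons]
    exact ⟨h1, by simpa using h3, h2, by simp, NF_nil⟩

theorem FG.eq_of_length_le_one_proof (h : F.H) (hl : (F.nf h).length ≤ 1) :
    h = 1 ∨ ∃ a b, a ≠ b ∧ h = F.pr a b := by
  have hk := F.wd_nf h
  have hN := F.nf_NF h
  match hnf : F.nf h with
  | [] =>
    rw [hnf] at hk
    left
    rw [← hk, F.wd_nil]
  | [p] =>
    rw [hnf] at hk hN
    right
    rw [NF_cons] at hN
    refine ⟨p.1, p.2, hN.1, ?_⟩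
    rw [← hk, F.wd_cons, F.wd_nil, mul_one]
  | _ :: _ :: _ =>
    rw [hnf] at hl
    simp at hl

end LEN

end Pool.Agent.GNU
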