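import Pool.Agent.Lib_helper41.RelReg

/-!
L3: the Hilbert function of `A / (B + Θ A)` and positivity.
-/

set_option autoImplicit false

namespace Pool.Agent.RelH

open Finset MvPolynomial

section Dim

variable {F : Type*} [Field F] {V : Type*} [AddCommGroup V] [Module F V]

theorem finrank_map_add (φ : V →ₗ[F] V) (U : Submodule F V) [FiniteDimensional F U] :
    Module.finrank F (U.map φ) + Module.finrank F (U ⊓ LinearMap.ker φ : Submodule F V) =
      Module.finrank F U := by
  have h1 := LinearMap.finrank_range_add_finrank_ker (φ.domRestrict U)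
  have h2 : LinearMap.range (φ.domRestrict U) = U.map φ := by
    ext x; simp
  have h3 : Module.finrank F (LinearMap.ker (φ.domRestrict U)) =
      Module.finrank F (U ⊓ LinearMap.ker φ : Submodule F V) := by
    have h4 : (LinearMap.ker (φ.domRestrict U)).map U.subtype = U ⊓ LinearMap.ker φ := by
      ext x
      simp only [Submodule.mem_map, LinearMap.mem_ker, Submodule.mem_inf]
      constructor
      · rintro ⟨y, hy, rfl⟩
        exact ⟨y.2, hy⟩
      · rintro ⟨h5, h6⟩
        exact ⟨⟨x, h5⟩, h6, rfl⟩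
    rw [← h4]
    exact (LinearEquiv.finrank_eq (Submodule.equivMapOfInjective U.subtype
      (Submodule.injective_subtype U) _))
  rw [h2, h3] at h1
  exact h1

theorem finrank_sup_map (φ : V →ₗ[F] V) (Q U : Submodule F V) [FiniteDimensional F U]
    [FiniteDimensional F Q] :
    Module.finrank F (Q ⊔ U.map φ : Submodule F V) +
      Module.finrank F (U ⊓ Q.comap φ : Submodule F V) =
      Module.finrank F Q + Module.finrank F U := by
  have h1 := Submodule.finrank_sup_add_finrank_inf_eq Q (U.map φ)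
  have h2 := finrank_map_add φ U
  have h3 := finrank_map_add φ (U ⊓ Q.comap φ)
  have h4 : (U ⊓ Q.comap φ).map φ = Q ⊓ U.map φ := by
    ext x
    simp only [Submodule.mem_map, Submodule.mem_inf, Submodule.mem_comap]
    constructor
    · rintro ⟨y, ⟨h5, h6⟩, rfl⟩
      exact ⟨h6, y, h5, rfl⟩
    · rintro ⟨h5, y, h6, rfl⟩
      exact ⟨y, ⟨h6, h5⟩, rfl⟩
  have h5 : (U ⊓ Q.comap φ) ⊓ LinearMap.ker φ = U ⊓ LinearMap.ker φ := by
    ext x
    simp only [Submodule.mem_inf, Submodule.mem_comap, LinearMap.mem_ker]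
    constructor
    · rintro ⟨⟨h5, h6⟩, h7⟩
      exact ⟨h5, h7⟩
    · rintro ⟨h5, h7⟩
      exact ⟨⟨h5, by rw [h7]; exact Q.zero_mem⟩, h7⟩
  rw [h4, h5] at h3
  omega

end Dim

variable {n : ℕ} {F : Type*} [Field F]

/-- exponents of degree `r` -/
def expo (n r : ℕ) : Finset (Fin n →₀ ℕ) := Finset.finsuppAntidiag Finset.univ r

theorem mem_expo {r : ℕ} {a : Fin n →₀ ℕ} : a ∈ expo n r ↔ a.degree = r := by
  unfold expo
  rw [Finset.mem_finsuppAntidiag, Finsupp.degree_eq_sum]
  simp

theorem mem_homog_iff {r : ℕ} {f : MvPolynomial (Fin n) F} :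
    f ∈ homogeneousSubmodule (Fin n) F r ↔ ∀ a ∈ f.support, a ∈ expo n r := by
  rw [mem_homogeneousSubmodule]
  constructor
  · intro h a ha
    rw [mem_expo, Finsupp.degree_eq_weight_one]
    exact h (mem_support_iff.1 ha)
  · intro h a ha
    have := h a (mem_support_iff.2 ha)
    rw [mem_expo, Finsupp.degree_eq_weight_one] at this
    exact this

theorem finrank_restrict (s : Finset (Fin n →₀ ℕ)) (W : Submodule F (MvPolynomial (Fin n) F))
    (h : ∀ f, f ∈ W ↔ ∀ a ∈ f.support, a ∈ s) :
    Module.finrank F W = s.card ∧ FiniteDimensional F W := by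
  have h1 : W = restrictSupport F (s : Set (Fin n →₀ ℕ)) := by
    ext f
    rw [h, mem_restrictSupport_iff]
    rfl
  subst h1
  refine ⟨?_, Module.Finite.of_basis (basisRestrictSupport F (s : Set (Fin n →₀ ℕ)))⟩
  have := Module.finrank_eq_card_basis (basisRestrictSupport F (s : Set (Fin n →₀ ℕ)))
  rw [this]
  simp

/-- degree `r` part of an ideal as an `F`-subspace -/
noncomputable def gr (I : Ideal (MvPolynomial (Fin n) F)) (r : ℕ) : Submodule F (MvPolynomial (Fin n) F) :=
  I.restrictScalars F ⊓ homogeneousSubmodule (Fin n) F r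

theorem mem_gr {I : Ideal (MvPolynomial (Fin n) F)} {r : ℕ} {f : MvPolynomial (Fin n) F} :
    f ∈ gr I r ↔ f ∈ I ∧ f.IsHomogeneous r := Iff.rfl

instance finDim_homog (r : ℕ) : FiniteDimensional F (homogeneousSubmodule (Fin n) F r) :=
  (finrank_restrict (expo n r) _ fun _ => mem_homog_iff).2

instance finDim_gr (I : Ideal (MvPolynomial (Fin n) F)) (r : ℕ) :
    FiniteDimensional F (gr I r) :=
  Submodule.finiteDimensional_of_le (inf_le_right : gr I r ≤ homogeneousSubmodule (Fin n) F r)

theorem lf_homog (c : ℕ → Fin n → F) (j : ℕ) : (lf c j).IsHomogeneous 1 := by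
  unfold lf
  refine IsHomogeneous.sum _ _ _ fun u _ => ?_
  have := (isHomogeneous_C (Fin n) (c j u)).mul (isHomogeneous_X F u)
  simpa using this

theorem comp_lf_mul (c : ℕ → Fin n → F) (j r : ℕ) (m : MvPolynomial (Fin n) F) :
    homogeneousComponent (r + 1) (lf c j * m) = lf c j * homogeneousComponent r m := by
  classical
  have h1 : m = ∑ i ∈ Finset.range (max (m.totalDegree + 1) (r + 1)), homogeneousComponent i m := by
    conv_lhs => rw [← sum_homogeneousComponent m]
    refine Finset.sum_subset ?_ ?_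
    · intro x hx
      simp only [Finset.mem_range] at hx ⊢
      omega
    · intro x _ hx
      simp only [Finset.mem_range, not_lt] at hx
      exact homogeneousComponent_eq_zero _ _ (by omega)
  conv_lhs => rw [h1]
  rw [Finset.mul_sum, map_sum]
  rw [Finset.sum_eq_single r]
  · have h2 : (lf c j * homogeneousComponent r m).IsHomogeneous (r + 1) := by
      have := (lf_homog c j).mul (homogeneousComponent_isHomogeneous r m)
      rwa [add_comm] at this
    exact homogeneousComponent_of_mem h2 |>.trans (if_pos rfl)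
  · intro b _ hb
    have h2 : (lf c j * homogeneousComponent b m).IsHomogeneous (b + 1) := by
      have := (lf_homog c j).mul (homogeneousComponent_isHomogeneous b m)
      rwa [add_comm] at this
    exact homogeneousComponent_of_mem h2 |>.trans (if_neg (by omega))
  · intro h
    exfalso
    apply h
    simp only [Finset.mem_range]
    omega

theorem comp_zero_lf_mul (c : ℕ → Fin n → F) (j : ℕ) (m : MvPolynomial (Fin n) F) :
    homogeneousComponent 0 (lf c j * m) = 0 := by
  rw [homogeneousComponent_zero]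
  have : coeff 0 (lf c j * m) = 0 := by
    rw [← constantCoeff_eq, map_mul]
    have : constantCoeff (lf c j) = 0 := by
      unfold lf
      simp
    rw [this, zero_mul]
  rw [this, C_0]

/-- homogeneous ideals -/
def Hom (I : Ideal (MvPolynomial (Fin n) F)) : Prop :=
  ∀ f ∈ I, ∀ r, homogeneousComponent r f ∈ I

theorem hom_famI {N : Finset (Fin n) → Prop} {hN : ∀ s t, N s → s ⊆ t → N t} :
    Hom (famI F N hN) := by
  intro f hf r a ha
  refine hf a ?_
  rw [mem_support_iff, coeff_homogeneousComponent] at ha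
  split_ifs at ha with h
  · exact mem_support_iff.2 ha
  · exact absurd rfl ha

theorem hom_LL {c : ℕ → Fin n → F} {A B : Ideal (MvPolynomial (Fin n) F)} (hA : Hom A)
    (hB : Hom B) (j : ℕ) : Hom (LL (lf c) A B j) := by
  induction j with
  | zero => exact hB
  | succ j ih =>
    intro f hf r
    obtain ⟨y, hy, m, hm, rfl⟩ := mem_LL_succ.1 hf
    rw [map_add, smul_eq_mul]
    cases r with
    | zero =>
      rw [comp_zero_lf_mul, add_zero]
      exact LL_mono_j (ih y hy 0)
    | succ r =>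
      rw [comp_lf_mul]
      exact mem_LL_succ.2 ⟨_, ih y hy (r + 1), _, hA m hm r, rfl⟩

theorem gr_LL_zero {c : ℕ → Fin n → F} {A B : Ideal (MvPolynomial (Fin n) F)}
    (hB : Hom B) (hA : Hom A) (j : ℕ) :
    gr (LL (lf c) A B (j + 1)) 0 = gr (LL (lf c) A B j) 0 := by
  ext f
  rw [mem_gr, mem_gr]
  constructor
  · rintro ⟨h1, h2⟩
    refine ⟨?_, h2⟩
    obtain ⟨y, hy, m, hm, rfl⟩ := mem_LL_succ.1 h1
    have h3 := homogeneousComponent_of_mem h2 (m := 0)
    rw [if_pos rfl, map_add, smul_eq_mul, comp_zero_lf_mul, add_zero] at h3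
    rw [← smul_eq_mul] at h3
    rw [← h3]
    exact hom_LL hA hB j y hy 0
  · rintro ⟨h1, h2⟩
    exact ⟨LL_mono_j h1, h2⟩

theorem gr_LL_succ {c : ℕ → Fin n → F} {A B : Ideal (MvPolynomial (Fin n) F)}
    (hB : Hom B) (hA : Hom A) (j r : ℕ) :
    gr (LL (lf c) A B (j + 1)) (r + 1) =
      gr (LL (lf c) A B j) (r + 1) ⊔ (gr A r).map (LinearMap.mulLeft F (lf c j)) := by
  ext f
  rw [mem_gr, Submodule.mem_sup]
  constructor
  · rintro ⟨h1, h2⟩
    obtain ⟨y, hy, m, hm, rfl⟩ := mem_LL_succ.1 h1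
    have h3 := homogeneousComponent_of_mem h2 (m := r + 1)
    rw [if_pos rfl, map_add, smul_eq_mul, comp_lf_mul] at h3
    refine ⟨homogeneousComponent (r + 1) y, ⟨hom_LL hA hB j y hy _,
      homogeneousComponent_isHomogeneous _ _⟩, lf c j * homogeneousComponent r m,
      Submodule.mem_map.2 ⟨homogeneousComponent r m, ⟨hA m hm r,
        homogeneousComponent_isHomogeneous _ _⟩, rfl⟩, ?_⟩
    rw [h3, smul_eq_mul]
  · rintro ⟨y, hy, z, hz, rfl⟩
    obtain ⟨m, hm, rfl⟩ := Submodule.mem_map.1 hz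
    rw [mem_gr] at hy hm
    refine ⟨mem_LL_succ.2 ⟨y, hy.1, m, hm.1, rfl⟩, hy.2.add ?_⟩
    have := (lf_homog c j).mul hm.2
    rwa [add_comm] at this

theorem gr_reg {c : ℕ → Fin n → F} {A B : Ideal (MvPolynomial (Fin n) F)} (hBA : B ≤ A)
    {k : ℕ} (hreg : RegR (T := MvPolynomial (Fin n) F) (lf c) k A B) {j : ℕ} (hj : j < k) (r : ℕ) :
    gr A r ⊓ (gr (LL (lf c) A B j) (r + 1)).comap (LinearMap.mulLeft F (lf c j)) =
      gr (LL (lf c) A B j) r := by
  ext f
  rw [Submodule.mem_inf, Submodule.mem_comap, mem_gr, mem_gr, mem_gr]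
  constructor
  · rintro ⟨⟨h1, h2⟩, h3, h4⟩
    exact ⟨hreg j hj f h1 h3, h2⟩
  · rintro ⟨h1, h2⟩
    refine ⟨⟨LL_le hBA le_rfl j h1, h2⟩, Ideal.mul_mem_left _ _ h1, ?_⟩
    have := (lf_homog c j).mul h2
    rwa [add_comm] at this

/-- Hilbert function of `A / LL j` -/
noncomputable def HF (c : ℕ → Fin n → F) (A B : Ideal (MvPolynomial (Fin n) F)) (j r : ℕ) : ℤ :=
  (Module.finrank F (gr A r) : ℤ) - (Module.finrank F (gr (LL (lf c) A B j) r) : ℤ)

theorem HF_zero {c : ℕ → Fin n → F} {A B : Ideal (MvPolynomial (Fin n) F)}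
    (hB : Hom B) (hA : Hom A) (j : ℕ) : HF c A B (j + 1) 0 = HF c A B j 0 := by
  unfold HF
  rw [gr_LL_zero hB hA]

theorem HF_succ {c : ℕ → Fin n → F} {A B : Ideal (MvPolynomial (Fin n) F)}
    (hB : Hom B) (hA : Hom A) (hBA : B ≤ A)
    {k : ℕ} (hreg : RegR (T := MvPolynomial (Fin n) F) (lf c) k A B) {j : ℕ} (hj : j < k) (r : ℕ) :
    HF c A B (j + 1) (r + 1) = HF c A B j (r + 1) - HF c A B j r := by
  unfold HF
  have h1 := finrank_sup_map (LinearMap.mulLeft F (lf c j)) (gr (LL (lf c) A B j) (r + 1)) (gr A r)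
  rw [← gr_LL_succ hB hA, gr_reg hBA hreg hj] at h1
  have h2 : (Module.finrank F (gr (LL (lf c) A B (j + 1)) (r + 1)) : ℤ) +
      (Module.finrank F (gr (LL (lf c) A B j) r) : ℤ) =
      (Module.finrank F (gr (LL (lf c) A B j) (r + 1)) : ℤ) + (Module.finrank F (gr A r) : ℤ) := by
    exact_mod_cast h1
  linarith

theorem HF_mk {c : ℕ → Fin n → F} {A B : Ideal (MvPolynomial (Fin n) F)}
    (hB : Hom B) (hA : Hom A) (hBA : B ≤ A)
    {k : ℕ} (hreg : RegR (T := MvPolynomial (Fin n) F) (lf c) k A B) :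
    ∀ j ≤ k, PowerSeries.mk (HF c A B j) = (1 - PowerSeries.X) ^ j * PowerSeries.mk (HF c A B 0) := by
  intro j
  induction j with
  | zero => intro _; simp
  | succ j ih =>
    intro hj
    have h1 := ih (by omega)
    have h2 : PowerSeries.mk (HF c A B (j + 1)) =
        (1 - PowerSeries.X) * PowerSeries.mk (HF c A B j) := by
      ext r
      cases r with
      | zero =>
        rw [sub_mul, one_mul, map_sub, PowerSeries.coeff_mk, PowerSeries.coeff_mk,
          PowerSeries.coeff_zero_X_mul, HF_zero hB hA, sub_zero]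
      | succ r =>
        rw [sub_mul, one_mul, map_sub, PowerSeries.coeff_mk, PowerSeries.coeff_mk,
          PowerSeries.coeff_succ_X_mul, PowerSeries.coeff_mk,
          HF_succ hB hA hBA hreg (by omega)]
    rw [h2, h1, pow_succ]
    ring

/-- number of exponents of degree `r` with support `G` -/
theorem card_supp (G : Finset (Fin n)) (r : ℕ) :
    (((expo n r).filter (fun a => a.support = G)).card : ℤ) =
      PowerSeries.coeff r ((PowerSeries.X * PowerSeries.mk (1 : ℕ → ℤ)) ^ G.card) := by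
  classical
  have h1 : ((PowerSeries.X * PowerSeries.mk (1 : ℕ → ℤ)) ^ G.card : PowerSeries ℤ) =
      ∏ v ∈ (Finset.univ : Finset (Fin n)),
        (if v ∈ G then (PowerSeries.X * PowerSeries.mk (1 : ℕ → ℤ)) else 1 : PowerSeries ℤ) := by
    rw [Finset.prod_ite_mem, Finset.univ_inter, Finset.prod_const]
  rw [h1, PowerSeries.coeff_prod, Finset.card_filter, Nat.cast_sum]
  refine Finset.sum_congr rfl fun a _ => ?_
  have h2 : ∀ v : Fin n, PowerSeries.coeff (a v)
      (if v ∈ G then (PowerSeries.X * PowerSeries.mk (1 : ℕ → ℤ)) else 1 : PowerSeries ℤ) =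
      if (v ∈ a.support ↔ v ∈ G) then 1 else 0 := by
    intro v
    by_cases hv : v ∈ G
    · rw [if_pos hv]
      rcases Nat.eq_zero_or_pos (a v) with h | h
      · rw [h, PowerSeries.coeff_zero_X_mul, if_neg]
        rw [Finsupp.mem_support_iff, h]
        simpa using hv
      · obtain ⟨m, hm⟩ := Nat.exists_eq_succ_of_ne_zero h.ne'
        rw [hm, Nat.succ_eq_add_one, PowerSeries.coeff_succ_X_mul, PowerSeries.coeff_mk, if_pos]
        · rfl
        · rw [Finsupp.mem_support_iff]
          exact ⟨fun _ => hv, fun _ => h.ne'⟩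
    · rw [if_neg hv, PowerSeries.coeff_one]
      rcases Nat.eq_zero_or_pos (a v) with h | h
      · rw [if_pos h, if_pos]
        rw [Finsupp.mem_support_iff, h]
        simpa using hv
      · rw [if_neg h.ne', if_neg]
        rw [Finsupp.mem_support_iff]
        intro h3
        exact hv (h3.1 h.ne')
  simp only [h2]
  by_cases h3 : a.support = G
  · rw [if_pos h3]
    rw [Finset.prod_eq_one]
    · simp
    · intro v _
      rw [if_pos]
      rw [h3]
  · rw [if_neg h3]
    have : ∃ v, ¬ (v ∈ a.support ↔ v ∈ G) := by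
      by_contra hcon
      push Not at hcon
      exact h3 (Finset.ext hcon)
    obtain ⟨v, hv⟩ := this
    rw [Finset.prod_eq_zero (Finset.mem_univ v) (if_neg hv)]
    simp

theorem coeff_one_sub_X_pow (m k : ℕ) :
    PowerSeries.coeff k ((1 - PowerSeries.X : PowerSeries ℤ) ^ m) = (-1) ^ k * (m.choose k : ℤ) := by
  induction m generalizing k with
  | zero =>
    rw [pow_zero, PowerSeries.coeff_one]
    cases k with
    | zero => simp
    | succ k => simp
  | succ m ih =>
    rw [pow_succ, mul_sub, mul_one, map_sub]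
    cases k with
    | zero => rw [PowerSeries.coeff_zero_mul_X, ih]; simp
    | succ k =>
      rw [PowerSeries.coeff_succ_mul_X, ih, ih, Nat.choose_succ_succ]
      push_cast
      ring

theorem coeff_term (d h i : ℕ) (hi : i ≤ d) :
    PowerSeries.coeff i ((1 - PowerSeries.X : PowerSeries ℤ) ^ d *
      (PowerSeries.X * PowerSeries.mk (1 : ℕ → ℤ)) ^ h) =
      if h ≤ i then (-1) ^ (i - h) * ((d - h).choose (i - h) : ℤ) else 0 := by
  by_cases hh : h ≤ i
  · rw [if_pos hh]
    have h1 : ((1 - PowerSeries.X : PowerSeries ℤ) ^ d *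
        (PowerSeries.X * PowerSeries.mk (1 : ℕ → ℤ)) ^ h) =
        PowerSeries.X ^ h * (1 - PowerSeries.X) ^ (d - h) := by
      have h2 : (1 - PowerSeries.X : PowerSeries ℤ) ^ d =
          (1 - PowerSeries.X) ^ (d - h) * (1 - PowerSeries.X) ^ h := by
        rw [← pow_add]
        congr 1
        omega
      have h3 : (1 - PowerSeries.X : PowerSeries ℤ) ^ h * (PowerSeries.mk (1 : ℕ → ℤ)) ^ h = 1 := by
        rw [← mul_pow, mul_comm, PowerSeries.mk_one_mul_one_sub_eq_one, one_pow]
      rw [h2, mul_pow]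
      calc (1 - PowerSeries.X : PowerSeries ℤ) ^ (d - h) * (1 - PowerSeries.X) ^ h *
            (PowerSeries.X ^ h * PowerSeries.mk (1 : ℕ → ℤ) ^ h) =
          PowerSeries.X ^ h * (1 - PowerSeries.X : PowerSeries ℤ) ^ (d - h) *
            ((1 - PowerSeries.X) ^ h * PowerSeries.mk (1 : ℕ → ℤ) ^ h) := by ring
        _ = _ := by rw [h3, mul_one]
    rw [h1, PowerSeries.coeff_X_pow_mul', if_pos hh, coeff_one_sub_X_pow]
  · rw [if_neg hh]
    have h1 : ((1 - PowerSeries.X : PowerSeries ℤ) ^ d *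
        (PowerSeries.X * PowerSeries.mk (1 : ℕ → ℤ)) ^ h) =
        PowerSeries.X ^ h * ((1 - PowerSeries.X) ^ d * PowerSeries.mk (1 : ℕ → ℤ) ^ h) := by
      rw [mul_pow]; ring
    rw [h1, PowerSeries.coeff_X_pow_mul', if_neg hh]

theorem HF_base {c : ℕ → Fin n → F} (Γ : Finset (Finset (Fin n)))
    (P : Finset (Fin n) → Prop) [DecidablePred P]
    (hA : ∀ s t : Finset (Fin n), (s ∈ Γ → P s) → s ⊆ t → (t ∈ Γ → P t))
    (hB : ∀ s t : Finset (Fin n), s ∉ Γ → s ⊆ t → t ∉ Γ) (r : ℕ) :
    HF c (famI F (fun s => s ∈ Γ → P s) hA) (famI F (fun s => s ∉ Γ) hB) 0 r =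
      ∑ G ∈ Γ.filter P, PowerSeries.coeff r
        ((PowerSeries.X * PowerSeries.mk (1 : ℕ → ℤ)) ^ G.card) := by
  classical
  have h1 := (finrank_restrict (F := F)
    ((expo n r).filter (fun a => a.support ∈ Γ → P a.support))
    (gr (famI F (fun s => s ∈ Γ → P s) hA) r) (by
      intro f
      rw [mem_gr, mem_famI, ← mem_homogeneousSubmodule, mem_homog_iff]
      constructor
      · rintro ⟨h1, h2⟩ a ha
        exact Finset.mem_filter.2 ⟨h2 a ha, h1 a ha⟩
      · intro h
        exact ⟨fun a ha => (Finset.mem_filter.1 (h a ha)).2,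
          fun a ha => (Finset.mem_filter.1 (h a ha)).1⟩)).1
  have h2 := (finrank_restrict (F := F)
    ((expo n r).filter (fun a => a.support ∉ Γ))
    (gr (LL (lf c) (famI F (fun s => s ∈ Γ → P s) hA) (famI F (fun s => s ∉ Γ) hB) 0) r) (by
      intro f
      rw [mem_gr, ← mem_homogeneousSubmodule, mem_homog_iff]
      constructor
      · rintro ⟨h1, h2⟩ a ha
        exact Finset.mem_filter.2 ⟨h2 a ha, h1 a ha⟩
      · intro h
        exact ⟨fun a ha => (Finset.mem_filter.1 (h a ha)).2,
          fun a ha => (Finset.mem_filter.1 (h a ha)).1⟩)).1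
  unfold HF
  rw [h1, h2]
  have h3 : ((expo n r).filter (fun a => a.support ∈ Γ → P a.support)).card =
      ((expo n r).filter (fun a => a.support ∉ Γ)).card +
      ((expo n r).filter (fun a => a.support ∈ Γ.filter P)).card := by
    rw [← Finset.card_union_of_disjoint]
    · congr 1
      ext a
      simp only [Finset.mem_filter, Finset.mem_union]
      tauto
    · rw [Finset.disjoint_left]
      intro a ha ha'
      simp only [Finset.mem_filter] at ha ha'
      exact ha.2 ha'.2.1
  have h4 : ((expo n r).filter (fun a => a.support ∈ Γ.filter P)).card =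
      ∑ G ∈ Γ.filter P, ((expo n r).filter (fun a => a.support = G)).card := by
    rw [← Finset.card_biUnion]
    · congr 1
      ext a
      simp only [Finset.mem_filter, Finset.mem_biUnion]
      constructor
      · rintro ⟨h5, h6⟩
        exact ⟨a.support, h6, h5, rfl⟩
      · rintro ⟨G, h5, h6, rfl⟩
        exact ⟨h6, h5⟩
    · intro x _ y _ hxy
      rw [Function.onFun, Finset.disjoint_left]
      intro a ha ha'
      simp only [Finset.mem_filter] at ha ha'
      exact hxy (ha.2.symm.trans ha'.2)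
  rw [h3, h4]
  push_cast
  rw [add_sub_cancel_left]
  exact Finset.sum_congr rfl fun G _ => card_supp G r

/-- (L3) -/
theorem hilbert_pos (c : ℕ → Fin n → F)
    (Γ : Finset (Finset (Fin n))) (P : Finset (Fin n) → Prop) [DecidablePred P]
    (d i : ℕ) (hi : i ≤ d)
    (hA : ∀ s t : Finset (Fin n), (s ∈ Γ → P s) → s ⊆ t → (t ∈ Γ → P t))
    (hB : ∀ s t : Finset (Fin n), s ∉ Γ → s ⊆ t → t ∉ Γ)
    (hreg : RegAB (lf c) d (famI F (fun s => s ∈ Γ → P s) hA) (famI F (fun s => s ∉ Γ) hB))
    (f : MvPolynomial (Fin n) F) (hf : f ∈ famI F (fun s => s ∈ Γ → P s) hA)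
    (hhom : f.IsHomogeneous i)
    (hnot : f ∉ famI F (fun s => s ∉ Γ) hB ⊔
      Ideal.span (lf c '' Set.Iio d) * famI F (fun s => s ∈ Γ → P s) hA) :
    0 < ∑ k ∈ Finset.range (i + 1), (-1 : ℤ) ^ (i - k) *
      ((Nat.choose (d - k) (i - k) : ℕ) : ℤ) *
      ((Γ.filter (fun G => G.card = k ∧ P G)).card : ℤ) := by
  classical
  have hBA : famI F (fun s => s ∉ Γ) hB ≤ famI F (fun s => s ∈ Γ → P s) hA :=
    famI_mono fun s hs h => absurd h hs
  rw [← regR_iff_regAB] at hreg
  rw [← LL_eq] at hnot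
  have h1 := HF_mk (hom_famI (hN := hB)) (hom_famI (hN := hA)) hBA hreg d le_rfl
  have h2 : PowerSeries.mk (HF c (famI F (fun s => s ∈ Γ → P s) hA)
      (famI F (fun s => s ∉ Γ) hB) 0) = ∑ G ∈ Γ.filter P,
        ((PowerSeries.X * PowerSeries.mk (1 : ℕ → ℤ)) ^ G.card) := by
    ext r
    rw [PowerSeries.coeff_mk, HF_base, map_sum]
  rw [h2, Finset.mul_sum] at h1
  have h3 := congrArg (PowerSeries.coeff i) h1
  rw [PowerSeries.coeff_mk, map_sum] at h3
  simp only [coeff_term d _ i hi] at h3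
  have h4 : 0 < HF c (famI F (fun s => s ∈ Γ → P s) hA) (famI F (fun s => s ∉ Γ) hB) d i := by
    unfold HF
    have h5 : gr (LL (lf c) (famI F (fun s => s ∈ Γ → P s) hA) (famI F (fun s => s ∉ Γ) hB) d) i <
        gr (famI F (fun s => s ∈ Γ → P s) hA) i := by
      refine lt_of_le_of_ne ?_ ?_
      · intro x hx
        exact ⟨LL_le hBA le_rfl d hx.1, hx.2⟩
      · intro heq
        apply hnot
        have : f ∈ gr (famI F (fun s => s ∈ Γ → P s) hA) i := ⟨hf, hhom⟩
        rw [← heq] at this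
        exact this.1
    have h6 := Submodule.finrank_lt_finrank_of_lt h5
    have h7 : (Module.finrank F (gr (LL (lf c) (famI F (fun s => s ∈ Γ → P s) hA)
      (famI F (fun s => s ∉ Γ) hB) d) i) : ℤ) <
      (Module.finrank F (gr (famI F (fun s => s ∈ Γ → P s) hA) i) : ℤ) := by exact_mod_cast h6
    linarith
  rw [h3] at h4
  convert h4 using 1
  rw [Finset.sum_ite, Finset.sum_const_zero, add_zero]
  have h5 : ∀ k, (Γ.filter (fun G => G.card = k ∧ P G)) =
      ((Γ.filter P).filter (fun G => G.card ≤ i)).filter (fun G => G.card = k) ∨ i < k := by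
    intro k
    by_cases hk : i < k
    · exact Or.inr hk
    · left
      ext G
      simp only [Finset.mem_filter]
      constructor
      · rintro ⟨h5, h6, h7⟩
        exact ⟨⟨⟨h5, h7⟩, by omega⟩, h6⟩
      · rintro ⟨⟨⟨h5, h7⟩, h8⟩, h6⟩
        exact ⟨h5, h6, h7⟩
  have h6 : ∀ k ∈ Finset.range (i + 1), (-1 : ℤ) ^ (i - k) *
      ((Nat.choose (d - k) (i - k) : ℕ) : ℤ) *
      ((Γ.filter (fun G => G.card = k ∧ P G)).card : ℤ) =
      ∑ G ∈ ((Γ.filter P).filter (fun G => G.card ≤ i)).filter (fun G => G.card = k),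
        (-1 : ℤ) ^ (i - G.card) * ((Nat.choose (d - G.card) (i - G.card) : ℕ) : ℤ) := by
    intro k hk
    rw [Finset.mem_range] at hk
    rcases h5 k with h | h
    · rw [h]
      rw [Finset.sum_congr rfl (g := fun _ => (-1 : ℤ) ^ (i - k) *
        ((Nat.choose (d - k) (i - k) : ℕ) : ℤ))]
      · rw [Finset.sum_const, nsmul_eq_mul]; ring
      · intro G hG
        rw [(Finset.mem_filter.1 hG).2]
    · omega
  rw [Finset.sum_congr rfl h6]
  rw [Finset.sum_fiberwise_of_maps_to]
  intro G hG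
  rw [Finset.mem_range]
  have := (Finset.mem_filter.1 hG).2
  omega

end Pool.Agent.RelH
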