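import Pool.Agent.Lib_helper41.Depth

/-!
Lifting regularity from the link of a vertex to a cone.
-/

set_option autoImplicit false

namespace Pool.Agent.RelH

open Finset MvPolynomial

variable {n : ℕ} {F : Type*} [Field F]

/-- coefficient table after eliminating vertex `v` -/
def elim (c : ℕ → Fin n → F) (v : Fin n) : ℕ → Fin n → F :=
  fun j u => c (j + 1) u - (c (j + 1) v / c 0 v) * c 0 u

theorem lf_elim (c : ℕ → Fin n → F) (v : Fin n) (j : ℕ) :
    lf (elim c v) j = lf c (j + 1) - C (c (j + 1) v / c 0 v) * lf c 0 := by
  unfold lf elim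
  rw [Finset.mul_sum, ← Finset.sum_sub_distrib]
  refine Finset.sum_congr rfl fun u _ => ?_
  rw [C_sub, C_mul]; ring

theorem elim_self (c : ℕ → Fin n → F) (v : Fin n) (hc : c 0 v ≠ 0) (j : ℕ) :
    elim c v j v = 0 := by
  unfold elim; field_simp; ring

/-- substitution eliminating `X v` -/
noncomputable def psi (c : ℕ → Fin n → F) (v : Fin n) :
    MvPolynomial (Fin n) F →ₐ[F] MvPolynomial (Fin n) F :=
  aeval fun u => if u = v then X v - C (1 / c 0 v) * lf c 0 else X u

/-- kill `X v` -/
noncomputable def kap (v : Fin n) :
    MvPolynomial (Fin n) F →ₐ[F] MvPolynomial (Fin n) F :=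
  aeval fun u => if u = v then 0 else X u

theorem psi_lf (c : ℕ → Fin n → F) (v : Fin n) (hc : c 0 v ≠ 0) (j : ℕ) :
    psi c v (lf c j) = lf c j - C (c j v / c 0 v) * lf c 0 := by
  have h1 : ∀ u : Fin n, psi c v (X u) = X u - C ((if u = v then 1 else 0) / c 0 v) * lf c 0 := by
    intro u
    unfold psi
    rw [aeval_X]
    by_cases h : u = v
    · subst h; simp
    · simp [h]
  have h2 : psi c v (lf c j) = ∑ u, C (c j u) * psi c v (X u) := by
    conv_lhs => unfold lf
    rw [map_sum]
    refine Finset.sum_congr rfl fun u _ => ?_
    rw [map_mul]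
    congr 1
    exact (psi c v).commutes (c j u)
  rw [h2]
  have h3 : ∀ u : Fin n, C (c j u) * psi c v (X u) =
      C (c j u) * X u - (if u = v then C (c j v / c 0 v) * lf c 0 else 0) := by
    intro u
    rw [h1, mul_sub]
    congr 1
    by_cases h : u = v
    · subst h
      simp only [if_true]
      rw [← mul_assoc, ← C_mul]
      congr 2
      ring
    · simp [h]
  rw [Finset.sum_congr rfl fun u _ => h3 u, Finset.sum_sub_distrib]
  congr 1
  simp

theorem psi_lf_zero (c : ℕ → Fin n → F) (v : Fin n) (hc : c 0 v ≠ 0) :
    psi c v (lf c 0) = 0 := by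
  rw [psi_lf c v hc, div_self hc]; simp

theorem psi_lf_succ (c : ℕ → Fin n → F) (v : Fin n) (hc : c 0 v ≠ 0) (j : ℕ) :
    psi c v (lf c (j + 1)) = lf (elim c v) j := by
  rw [psi_lf c v hc, lf_elim]

theorem kap_lf (c : ℕ → Fin n → F) (v : Fin n) (j : ℕ) (h : c j v = 0) :
    kap v (lf c j) = lf c j := by
  have h2 : kap v (lf c j) = ∑ u, C (c j u) * kap v (X u) := by
    conv_lhs => unfold lf
    rw [map_sum]
    refine Finset.sum_congr rfl fun u _ => ?_
    rw [map_mul]
    congr 1
    exact (kap (F := F) v).commutes (c j u)
  rw [h2]
  unfold lf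
  refine Finset.sum_congr rfl fun u _ => ?_
  by_cases hu : u = v
  · subst hu; simp [h]
  · simp [kap, hu]

theorem psi_X_ne (c : ℕ → Fin n → F) (v u : Fin n) (h : u ≠ v) : psi c v (X u) = X u := by
  simp [psi, h]

theorem psi_X_self (c : ℕ → Fin n → F) (v : Fin n) :
    psi c v (X v) = X v - C (1 / c 0 v) * lf c 0 := by
  simp [psi]

theorem kap_psi (c : ℕ → Fin n → F) (v : Fin n) (hc : c 0 v ≠ 0) (f : MvPolynomial (Fin n) F) :
    kap v (psi c v f) = psi c v f := by
  have : (kap v).comp (psi c v) = psi c v := by
    apply MvPolynomial.algHom_ext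
    intro u
    rw [AlgHom.comp_apply]
    by_cases h : u = v
    · subst h
      -- psi (X u) is a linear form with zero coefficient at u
      have hlin : psi c u (X u) = lf (fun _ w => (if w = u then 1 else 0) - (1 / c 0 u) * c 0 w) 0 := by
        rw [psi_X_self]
        unfold lf
        simp only [C_sub, sub_mul, Finset.sum_sub_distrib, C_mul]
        congr 1
        · rw [Finset.sum_eq_single u]
          · simp
          · intro b _ hb; simp [hb]
          · simp
        · rw [Finset.mul_sum]
          refine Finset.sum_congr rfl fun w _ => ?_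
          ring
      rw [hlin]
      apply kap_lf
      simp [hc]
    · rw [psi_X_ne c v u h]
      simp [kap, h]
  exact DFunLike.congr_fun this f

theorem sub_psi_mem (c : ℕ → Fin n → F) (v : Fin n) (f : MvPolynomial (Fin n) F) :
    ∃ g, f - psi c v f = lf c 0 * g := by
  have h : f - psi c v f ∈ Ideal.span {lf c 0} := by
    rw [← Ideal.Quotient.mk_eq_mk_iff_sub_mem]
    have : (Ideal.Quotient.mkₐ F (Ideal.span {lf c 0})) =
        (Ideal.Quotient.mkₐ F (Ideal.span {lf c 0})).comp (psi c v) := by
      apply MvPolynomial.algHom_ext
      intro u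
      rw [AlgHom.comp_apply]
      by_cases h : u = v
      · subst h
        rw [psi_X_self]
        simp only [Ideal.Quotient.mkₐ_eq_mk]
        rw [Ideal.Quotient.mk_eq_mk_iff_sub_mem]
        have : X u - (X u - C (1 / c 0 u) * lf c 0) = C (1 / c 0 u) * lf c 0 := by ring
        rw [this]
        exact Ideal.mul_mem_left _ _ (Ideal.mem_span_singleton_self _)
      · rw [psi_X_ne c v u h]
    exact DFunLike.congr_fun this f
  obtain ⟨g, hg⟩ := Ideal.mem_span_singleton'.1 h
  exact ⟨g, by rw [← hg, mul_comm]⟩

theorem famI_mono {N N' : Finset (Fin n) → Prop} {hN : ∀ s t, N s → s ⊆ t → N t}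
    {hN' : ∀ s t, N' s → s ⊆ t → N' t} (h : ∀ s, N s → N' s) : famI F N hN ≤ famI F N' hN' := by
  intro f hf a ha
  exact h _ (hf a ha)

theorem monomial_mem_famI {N : Finset (Fin n) → Prop} {hN : ∀ s t, N s → s ⊆ t → N t}
    {a : Fin n →₀ ℕ} {r : F} (h : N a.support) : monomial a r ∈ famI F N hN := by
  intro b hb
  have := MvPolynomial.support_monomial_subset hb
  rw [Finset.mem_singleton] at this
  rwa [this]

/-- to show an additive map sends `famI` into a submodule it suffices to treat monomials -/
theorem famI_induction {N : Finset (Fin n) → Prop} {hN : ∀ s t, N s → s ⊆ t → N t}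
    (φ : MvPolynomial (Fin n) F →ₐ[F] MvPolynomial (Fin n) F) (I : Ideal (MvPolynomial (Fin n) F))
    (h : ∀ a : Fin n →₀ ℕ, N a.support → φ (monomial a 1) ∈ I) :
    ∀ f ∈ famI F N hN, φ f ∈ I := by
  intro f hf
  rw [f.as_sum, map_sum]
  refine Ideal.sum_mem _ fun a ha => ?_
  have : monomial a (coeff a f) = C (coeff a f) * monomial a 1 := by
    rw [C_mul_monomial, mul_one]
  rw [this, map_mul]
  exact Ideal.mul_mem_left _ _ (h a (hf a ha))

/-- the lifting lemma -/
theorem lift_reg (v : Fin n) (N N' : Finset (Fin n) → Prop) (hN : ∀ s t, N s → s ⊆ t → N t)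
    (hN' : ∀ s t, N' s → s ⊆ t → N' t) (h1 : ∀ s, N s ↔ N' (s.erase v))
    (c : ℕ → Fin n → F) (hc : c 0 v ≠ 0) (k : ℕ)
    (hreg : RegR (lf (elim c v)) k ⊤ (famI F N' hN')) :
    RegR (lf c) (k + 1) ⊤ (famI F N hN) := by
  intro j hj x _ hx
  rcases j with _ | j
  · -- leading term argument
    change lf c 0 • x ∈ famI F N hN at hx
    change x ∈ famI F N hN
    by_contra hcon
    -- monomials of x outside the ideal
    classical
    set B := x.support.filter fun a => ¬ N a.support with hB
    have hBne : B.Nonempty := by
      rw [mem_famI] at hcon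
      push Not at hcon
      obtain ⟨a, ha, hna⟩ := hcon
      exact ⟨a, by simp [hB, ha, hna]⟩
    obtain ⟨a, haB, hmax⟩ := Finset.exists_max_image B (fun a => a v) hBne
    have haB' : a ∈ x.support ∧ ¬ N a.support := by simpa [hB] using haB
    -- coefficient of a + e_v in lf c 0 * x
    have hcoef : coeff (a + Finsupp.single v 1) (lf c 0 * x) = c 0 v * coeff a x := by
      unfold lf
      rw [Finset.sum_mul, coeff_sum]
      rw [Finset.sum_eq_single v]
      · rw [mul_assoc, coeff_C_mul]
        congr 1
        have := coeff_mul_X (R := F) a v x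
        rw [mul_comm]; exact this
      · intro u _ huv
        rw [mul_assoc, coeff_C_mul, mul_comm (X u) x, coeff_mul_X']
        split_ifs with hmem
        · -- coefficient of x at a + e_v - e_u must vanish
          by_cases hz : coeff (a + Finsupp.single v 1 - Finsupp.single u 1) x = 0
          · rw [hz, mul_zero]
          · exfalso
            set b := a + Finsupp.single v 1 - Finsupp.single u 1 with hb
            have hbv : b v = a v + 1 := by
              simp [hb, Finsupp.single_apply, huv]
            by_cases hNb : N b.support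
            · -- then N a.support
              apply haB'.2
              rw [h1] at hNb ⊢
              refine hN' _ _ hNb ?_
              intro w hw
              rw [Finset.mem_erase] at hw ⊢
              refine ⟨hw.1, ?_⟩
              rw [Finsupp.mem_support_iff] at hw ⊢
              have : b w = a w - (Finsupp.single u 1 : Fin n →₀ ℕ) w := by
                simp [hb, Finsupp.single_apply, Ne.symm hw.1]
              omega
            · have hbB : b ∈ B := by
                simp only [hB, Finset.mem_filter, mem_support_iff]
                exact ⟨hz, hNb⟩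
              have := hmax b hbB
              simp only [hbv] at this
              omega
        · simp
      · simp
    have hne : coeff (a + Finsupp.single v 1) (lf c 0 * x) ≠ 0 := by
      rw [hcoef]
      exact mul_ne_zero hc (mem_support_iff.1 haB'.1)
    have hsupp : N (a + Finsupp.single v 1).support := hx _ (mem_support_iff.2 hne)
    apply haB'.2
    rw [h1] at hsupp ⊢
    refine hN' _ _ hsupp ?_
    intro w hw
    rw [Finset.mem_erase] at hw ⊢
    refine ⟨hw.1, ?_⟩
    rw [Finsupp.mem_support_iff] at hw ⊢
    have : (a + Finsupp.single v 1 : Fin n →₀ ℕ) w = a w := by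
      simp [Finsupp.single_apply, Ne.symm hw.1]
    rw [this] at hw
    exact hw.2
  · -- j + 1
    have hker : ∀ i : ℕ, ∀ y ∈ LL (lf c) (⊤ : Submodule _ _) (famI F N hN) (i + 1),
        psi c v y ∈ LL (lf (elim c v)) (⊤ : Submodule _ _) (famI F N' hN') i := by
      intro i
      induction i with
      | zero =>
        intro y hy
        obtain ⟨y0, hy0, g, -, rfl⟩ := mem_LL_succ.1 hy
        rw [map_add, smul_eq_mul, map_mul, psi_lf_zero c v hc, zero_mul, add_zero]
        change psi c v y0 ∈ famI F N' hN'
        refine famI_induction (psi c v) (famI F N' hN') ?_ y0 hy0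
        intro a ha
        rw [h1] at ha
        have hdec : monomial a (1 : F) = monomial (a.erase v) 1 * X v ^ (a v) := by
          rw [X_pow_eq_monomial, monomial_mul, one_mul, Finsupp.erase_add_single]
        rw [hdec, map_mul]
        refine Ideal.mul_mem_right _ _ ?_
        have hfix : psi c v (monomial (a.erase v) (1 : F)) = monomial (a.erase v) 1 := by
          rw [monomial_eq, map_mul]
          congr 1
          · simpa using (psi c v).commutes (1 : F)
          · rw [Finsupp.prod, map_prod]
            refine Finset.prod_congr rfl fun w hw => ?_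
            rw [map_pow, psi_X_ne]
            intro hwv
            subst hwv
            simp at hw
        rw [hfix]
        exact monomial_mem_famI (by rwa [Finsupp.support_erase])
      | succ i ih =>
        intro y hy
        obtain ⟨y0, hy0, g, -, rfl⟩ := mem_LL_succ.1 hy
        refine mem_LL_succ.2 ⟨psi c v y0, ih y0 hy0, psi c v g, trivial, ?_⟩
        rw [map_add, smul_eq_mul, smul_eq_mul, map_mul, psi_lf_succ c v hc]
    have h3 : lf (elim c v) j • psi c v x ∈
        LL (lf (elim c v)) (⊤ : Submodule _ _) (famI F N' hN') j := by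
      have := hker j _ hx
      rwa [smul_eq_mul, map_mul, psi_lf_succ c v hc] at this
    have h4 := hreg j (by omega) _ trivial h3
    -- apply kap
    have hkap : ∀ i : ℕ, ∀ y ∈ LL (lf (elim c v)) (⊤ : Submodule _ _) (famI F N' hN') i,
        kap v y ∈ LL (lf c) (⊤ : Submodule _ _) (famI F N hN) (i + 1) := by
      intro i
      induction i with
      | zero =>
        intro y hy
        refine LL_mono_j ?_
        change kap v y ∈ famI F N hN
        refine famI_induction (kap v) (famI F N hN) ?_ y hy
        intro a ha
        by_cases hav : a v = 0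
        · have hfix : kap v (monomial a (1 : F)) = monomial a 1 := by
            rw [monomial_eq, map_mul]
            congr 1
            · simpa using (kap (F := F) v).commutes (1 : F)
            · rw [Finsupp.prod, map_prod]
              refine Finset.prod_congr rfl fun w hw => ?_
              rw [map_pow]
              congr 1
              have : w ≠ v := by
                rintro rfl
                exact (Finsupp.mem_support_iff.1 hw) hav
              simp [kap, this]
          rw [hfix]
          refine monomial_mem_famI ?_
          rw [h1, Finset.erase_eq_of_notMem]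
          · exact ha
          · simpa using hav
        · have hz : kap v (monomial a (1 : F)) = 0 := by
            have hdec : monomial a (1 : F) = monomial (a.erase v) 1 * X v ^ (a v) := by
              rw [X_pow_eq_monomial, monomial_mul, one_mul, Finsupp.erase_add_single]
            rw [hdec, map_mul, map_pow]
            have : kap (F := F) v (X v) = 0 := by simp [kap]
            rw [this, zero_pow hav, mul_zero]
          rw [hz]
          exact Submodule.zero_mem _
      | succ i ih =>
        intro y hy
        obtain ⟨y0, hy0, g, -, rfl⟩ := mem_LL_succ.1 hy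
        rw [map_add, smul_eq_mul, map_mul, kap_lf _ v i (elim_self c v hc i), lf_elim]
        have e : kap v y0 + (lf c (i + 1) - C (c (i + 1) v / c 0 v) * lf c 0) * kap v g =
            (kap v y0 + lf c (i + 1) • kap v g) + lf c 0 • (-(C (c (i + 1) v / c 0 v) * kap v g)) := by
          simp only [smul_eq_mul]; ring
        rw [e]
        exact Submodule.add_mem _ (mem_LL_succ.2 ⟨_, ih y0 hy0, _, trivial, rfl⟩)
          (smul_mem_LL (by omega) trivial)
    have h5 := hkap j _ h4
    rw [kap_psi c v hc] at h5
    obtain ⟨g, hg⟩ := sub_psi_mem c v x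
    have h6 : x = psi c v x + lf c 0 • g := by
      rw [smul_eq_mul, ← hg]; ring
    rw [h6]
    exact Submodule.add_mem _ h5 (smul_mem_LL (by omega) trivial)

end Pool.Agent.RelH
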