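import Pool.Agent.Lib_helper41.Lift
import Pool.Agent.Lib_helper41.Chains

/-!
The partition complex and the Cohen-Macaulay property (`cm_reg`).
-/

set_option autoImplicit false

namespace Pool.Agent.RelH

open Finset MvPolynomial

variable {n : ℕ} {F : Type*} [Field F]

theorem star_up {K : Finset (Finset (Fin n))} (hdown : Down K) (G : Finset (Fin n)) :
    ∀ s t : Finset (Fin n), s ∪ G ∉ K → s ⊆ t → t ∪ G ∉ K :=
  fun _ _ hs hst ht => hs (hdown _ ht _ (Finset.union_subset_union_left hst))

/-- Stanley–Reisner ideal of the closed star of `G` -/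
def starI (F : Type*) [Field F] (K : Finset (Finset (Fin n))) (hdown : Down K) (G : Finset (Fin n)) :
    Ideal (MvPolynomial (Fin n) F) := famI F (fun s => s ∪ G ∉ K) (star_up hdown G)

/-- `N_j`: families vanishing in all `F[st G]`, `|G| = j`. -/
def NN (F : Type*) [Field F] (K : Finset (Finset (Fin n))) (hdown : Down K) (j : ℕ) :
    Submodule (MvPolynomial (Fin n) F) (Finset (Fin n) → MvPolynomial (Fin n) F) where
  carrier := {f | ∀ G ∈ K, G.card = j → f G ∈ starI F K hdown G}
  add_mem' := fun hf hg G hG hGj => Ideal.add_mem _ (hf G hG hGj) (hg G hG hGj)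
  zero_mem' := fun _ _ _ => Ideal.zero_mem _
  smul_mem' := fun r _ hf G hG hGj => Ideal.mul_mem_left _ r (hf G hG hGj)

theorem mem_NN {K : Finset (Finset (Fin n))} {hdown : Down K} {j : ℕ}
    {f : Finset (Fin n) → MvPolynomial (Fin n) F} :
    f ∈ NN F K hdown j ↔ ∀ G ∈ K, G.card = j → f G ∈ starI F K hdown G := Iff.rfl

/-- coboundary -/
noncomputable def cob (n : ℕ) (F : Type*) [Field F] :
    (Finset (Fin n) → MvPolynomial (Fin n) F) →ₗ[MvPolynomial (Fin n) F]
      (Finset (Fin n) → MvPolynomial (Fin n) F) where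
  toFun f := fun G => ∑ u ∈ G, f (G.erase u)
  map_add' f g := by funext G; simp [Finset.sum_add_distrib]
  map_smul' r f := by funext G; simp [Finset.mul_sum]

theorem cob_apply (f : Finset (Fin n) → MvPolynomial (Fin n) F) (G : Finset (Fin n)) :
    cob n F f G = ∑ u ∈ G, f (G.erase u) := rfl

theorem starI_mono {K : Finset (Finset (Fin n))} (hdown : Down K) {G G' : Finset (Fin n)}
    (h : G ⊆ G') : starI F K hdown G ≤ starI F K hdown G' :=
  famI_mono fun _ hs ht => hs (hdown _ ht _ (Finset.union_subset_union_right h))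

theorem cob_NN {K : Finset (Finset (Fin n))} (hdown : Down K) (j : ℕ) :
    ∀ f ∈ NN F K hdown j, cob n F f ∈ NN F K hdown (j + 1) := by
  intro f hf G hG hGj
  rw [cob_apply]
  refine Ideal.sum_mem _ fun u hu => ?_
  refine starI_mono hdown (Finset.erase_subset u G) (hf _ (hdown G hG _ (Finset.erase_subset u G)) ?_)
  rw [Finset.card_erase_of_mem hu]; omega

/-- exactness of the partition complex -/
theorem partition_exact [CharP F 2] (K : Finset (Finset (Fin n))) (hdown : Down K) (m : ℕ)
    (h0 : ∀ z : Ch (Fin n), (∀ s ∈ z.support, s ∈ K ∧ s.card ≤ m) → bd z = 0 →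
      ∃ w : Ch (Fin n), (∀ s ∈ w.support, s ∈ K) ∧ bd w = z)
    (j : ℕ) (hj : j ≤ m) (f : Finset (Fin n) → MvPolynomial (Fin n) F)
    (hf : cob n F f ∈ NN F K hdown (j + 1)) :
    ∃ g : Finset (Fin n) → MvPolynomial (Fin n) F, f - cob n F g ∈ NN F K hdown j := by
  classical
  -- for each monomial
  have hex : ∀ a : Fin n →₀ ℕ, ∃ ψ : Finset (Fin n) → F,
      ∀ G, G.card = j → G ∪ a.support ∈ K → coeff a (f G) = ∑ u ∈ G, ψ (G.erase u) := by
    intro a
    refine cochain_exact K hdown m h0 a.support j hj (fun G => coeff a (f G)) ?_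
    intro G hGj hGK
    have hGK' : G ∈ K := hdown _ hGK _ Finset.subset_union_left
    have h1 := hf G hGK' hGj
    rw [cob_apply] at h1
    have h2 : coeff a (∑ u ∈ G, f (G.erase u)) = 0 := by
      by_contra hne
      exact h1 a (mem_support_iff.2 hne) (by rwa [Finset.union_comm])
    rwa [coeff_sum] at h2
  choose ψ hψ using hex
  set A : Finset (Fin n →₀ ℕ) := Finset.univ.biUnion fun G : Finset (Fin n) => (f G).support with hA
  refine ⟨fun G => ∑ a ∈ A, monomial a (ψ a G), ?_⟩
  intro G hGK hGj a ha
  rw [mem_support_iff] at ha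
  intro hcon
  apply ha
  rw [Pi.sub_apply, cob_apply, coeff_sub, coeff_sum]
  have h3 : ∀ u ∈ G, coeff a (∑ b ∈ A, monomial b (ψ b (G.erase u))) =
      if a ∈ A then ψ a (G.erase u) else 0 := by
    intro u _
    rw [coeff_sum]
    simp only [coeff_monomial]
    rw [Finset.sum_ite_eq']
  rw [Finset.sum_congr rfl h3]
  by_cases haA : a ∈ A
  · simp only [haA, if_true]
    rw [← hψ a G hGj (by rwa [Finset.union_comm]), sub_self]
  · simp only [haA, if_false, Finset.sum_const_zero, sub_zero]
    by_contra hne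
    exact haA (Finset.mem_biUnion.2 ⟨G, Finset.mem_univ _, mem_support_iff.2 hne⟩)

/-- link of a vertex (on the same vertex set) -/
def lkv (K : Finset (Finset (Fin n))) (v : Fin n) : Finset (Finset (Fin n)) :=
  Finset.univ.filter fun H => v ∉ H ∧ insert v H ∈ K

theorem mem_lkv {K : Finset (Finset (Fin n))} {v : Fin n} {H : Finset (Fin n)} :
    H ∈ lkv K v ↔ v ∉ H ∧ insert v H ∈ K := by simp [lkv]

theorem down_lkv {K : Finset (Finset (Fin n))} (hdown : Down K) (v : Fin n) : Down (lkv K v) := by
  intro G hG H hHG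
  rw [mem_lkv] at hG ⊢
  exact ⟨fun h => hG.1 (hHG h), hdown _ hG.2 _ (Finset.insert_subset_insert v hHG)⟩

theorem linkAc_lkv {K : Finset (Finset (Fin n))} {m : ℕ} (h : LinkAc K (m + 1)) (v : Fin n) :
    LinkAc (lkv K v) m := by
  intro G hG z hz hbd
  rw [mem_lkv] at hG
  have hdisj : ∀ s : Finset (Fin n), (Disjoint s G ∧ s ∪ G ∈ lkv K v) ↔
      (Disjoint s (insert v G) ∧ s ∪ insert v G ∈ K) := by
    intro s
    rw [mem_lkv, Finset.disjoint_insert_right]
    have : s ∪ insert v G = insert v (s ∪ G) := by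
      ext w; simp only [Finset.mem_union, Finset.mem_insert]; tauto
    rw [this]
    simp only [Finset.mem_union, not_or]
    tauto
  obtain ⟨w, hw1, hw2⟩ := h (insert v G) hG.2 z (by
    intro s hs
    obtain ⟨h1, h2, h3⟩ := hz s hs
    obtain ⟨h4, h5⟩ := (hdisj s).1 ⟨h1, h2⟩
    refine ⟨h4, h5, ?_⟩
    rw [Finset.card_insert_of_notMem hG.1]; omega) hbd
  exact ⟨w, fun s hs => (hdisj s).2 (hw1 s hs), hw2⟩

theorem nonDeg_elim {c : ℕ → Fin n → F} {K : Finset (Finset (Fin n))} {M : ℕ}
    (h : NonDeg c K (M + 1)) (v : Fin n) (hv : c 0 v ≠ 0) : NonDeg (elim c v) (lkv K v) M := by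
  intro G hG hGM g hg0 hg
  rw [mem_lkv] at hG
  set α : F := -(∑ u, c 0 u * g u) / c 0 v with hα
  have hgv : g v = 0 := hg0 v hG.1
  set g' : Fin n → F := fun u => if u = v then α else g u with hg'
  have hsum : ∀ j, ∑ u, c j u * g' u = c j v * α + ∑ u, c j u * g u := by
    intro j
    have : ∀ u, c j u * g' u = (if u = v then c j v * α else 0) + c j u * g u := by
      intro u
      by_cases hu : u = v
      · subst hu; simp [hg', hgv]
      · simp [hg', hu]
    rw [Finset.sum_congr rfl fun u _ => this u, Finset.sum_add_distrib]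
    congr 1
    simp
  have h1 : g' = 0 := by
    refine h (insert v G) hG.2 (by rw [Finset.card_insert_of_notMem hG.1]; omega) g' ?_ ?_
    · intro u hu
      rw [Finset.mem_insert, not_or] at hu
      simp [hg', hu.1, hg0 u hu.2]
    · intro j hj
      rw [Finset.card_insert_of_notMem hG.1] at hj
      rw [hsum]
      rcases j with _ | j
      · rw [hα]; field_simp; ring
      · have h2 := hg j (by omega)
        unfold elim at h2
        simp only [sub_mul, Finset.sum_sub_distrib, mul_assoc] at h2
        rw [← Finset.mul_sum] at h2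
        rw [sub_eq_zero.1 h2, hα]
        field_simp; ring
  funext u
  by_cases hu : u = v
  · subst hu; exact hgv
  · have := congrFun h1 u
    simpa [hg', hu] using this

theorem chase [CharP F 2] (m : ℕ) (c : ℕ → Fin n → F) (K : Finset (Finset (Fin n)))
    (hdown : Down K) (hempty : ∅ ∈ K) (hlink : LinkAc K m)
    (hstar : ∀ G ∈ K, G.Nonempty → RegR (lf c) (m + 1) ⊤ (starI F K hdown G)) :
    RegR (lf c) (m + 1) ⊤ (starI F K hdown ∅) := by
  have h0 : ∀ z : Ch (Fin n), (∀ s ∈ z.support, s ∈ K ∧ s.card ≤ m) → bd z = 0 →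
      ∃ w : Ch (Fin n), (∀ s ∈ w.support, s ∈ K) ∧ bd w = z := by
    intro z hz hbd
    obtain ⟨w, hw1, hw2⟩ := hlink ∅ hempty z (by
      intro s hs
      obtain ⟨h1, h2⟩ := hz s hs
      exact ⟨Finset.disjoint_empty_right s, by rwa [Finset.union_empty], by simpa using h2⟩) hbd
    exact ⟨w, fun s hs => by simpa using (hw1 s hs).2, hw2⟩
  -- regularity of the terms of positive index
  have hP : ∀ j, 1 ≤ j → RegR (lf c) (m + 1) ⊤ (NN F K hdown j) := by
    intro j hj
    refine reg_pi {G | G ∈ K ∧ G.card = j} (fun G => starI F K hdown G) ?_ _ ?_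
    · rintro G ⟨hGK, hGj⟩
      exact hstar G hGK (Finset.card_pos.1 (by omega))
    · intro f
      rw [mem_NN]
      constructor
      · rintro h G ⟨h1, h2⟩; exact h G h1 h2
      · intro h G h1 h2; exact h G ⟨h1, h2⟩
  have hexact : ∀ j ≤ m, (NN F K hdown (j + 1)).comap (cob n F) ≤
      LinearMap.range (cob n F) ⊔ NN F K hdown j := by
    intro j hj f hf
    obtain ⟨g, hg⟩ := partition_exact K hdown m h0 j hj f hf
    have : f = cob n F g + (f - cob n F g) := by abel
    rw [this]
    exact Submodule.add_mem_sup (LinearMap.mem_range_self _ _) hg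
  have hcobcob : ∀ f, cob n F (cob n F f) = 0 := by
    intro f
    funext G
    rw [cob_apply]
    simp only [cob_apply]
    exact double_sum_zero (fun p => by
      have : p + p = (2 : MvPolynomial (Fin n) F) * p := by ring
      rw [this]
      have h2 : (2 : MvPolynomial (Fin n) F) = C (2 : F) := (map_ofNat C 2).symm
      rw [h2, CharTwo.two_eq_zero, C_0, zero_mul]) G (fun x y => f ((G.erase x).erase y))
      (fun x y => by rw [erase_comm'])
  have hle : ∀ j, LinearMap.range (cob n F) ⊔ NN F K hdown j ≤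
      (NN F K hdown (j + 1)).comap (cob n F) := by
    intro j
    refine sup_le ?_ (fun f hf => cob_NN hdown j f hf)
    rintro _ ⟨f, rfl⟩
    rw [Submodule.mem_comap, hcobcob]
    exact Submodule.zero_mem _
  have claim : ∀ i, i ≤ m → RegR (lf c) (i + 1)
      (LinearMap.range (cob n F) ⊔ NN F K hdown (m + 1 - i)) (NN F K hdown (m + 1 - i)) := by
    intro i
    induction i with
    | zero =>
      intro _
      exact reg_one_sub ((hP _ (by omega)).mono (by omega))
    | succ i ih =>
      intro hi
      have hj : m + 1 - i = (m + 1 - (i + 1)) + 1 := by omega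
      have h2 := ih (by omega)
      rw [hj] at h2
      have h3 := depth_lemma (cob n F) (cob_NN hdown (m + 1 - (i + 1)))
        ((hP (m + 1 - (i + 1)) (by omega)).mono (by omega)) h2
      have h4 : (NN F K hdown ((m + 1 - (i + 1)) + 1)).comap (cob n F) =
          LinearMap.range (cob n F) ⊔ NN F K hdown (m + 1 - (i + 1)) :=
        le_antisymm (hexact _ (by omega)) (hle _)
      rwa [h4] at h3
  have h5 := claim m le_rfl
  have hm1 : m + 1 - m = 0 + 1 := by omega
  rw [hm1] at h5
  have h6 : RegR (lf c) (m + 1) ⊤ (NN F K hdown 0) := by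
    refine reg_of_inj (cob n F) (cob_NN hdown 0) ?_ h5
    intro f hf
    obtain ⟨g, hg⟩ := partition_exact K hdown m h0 0 (by omega) f hf
    intro G hG hG0
    have := hg G hG hG0
    rw [Finset.card_eq_zero] at hG0
    subst hG0
    simpa [cob_apply] using this
  refine reg_component (N := NN F K hdown 0)
    (LinearMap.pi fun _ => LinearMap.id) (LinearMap.proj ∅) ?_ ?_ ?_ h6
  · intro x; rfl
  · intro x hx G hG hG0
    rw [Finset.card_eq_zero] at hG0
    subst hG0
    exact hx
  · intro f hf
    exact hf ∅ hempty rfl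

theorem erase_union_of_mem {G s : Finset (Fin n)} {v : Fin n} (hv : v ∈ G) :
    s.erase v ∪ G = s ∪ G := by
  ext w; simp only [Finset.mem_union, Finset.mem_erase]
  constructor
  · rintro (h | h)
    · exact Or.inl h.2
    · exact Or.inr h
  · rintro (h | h)
    · by_cases hw : w = v
      · subst hw; exact Or.inr hv
      · exact Or.inl ⟨hw, h⟩
    · exact Or.inr h

theorem nonDeg_vertex {c : ℕ → Fin n → F} {K : Finset (Finset (Fin n))} {m : ℕ}
    (hnd : NonDeg c K (m + 1)) {v : Fin n} (hvK : ({v} : Finset (Fin n)) ∈ K) : c 0 v ≠ 0 := by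
  intro h0
  have := hnd {v} hvK (by simp) (fun u => if u = v then 1 else 0) (by
    intro u hu; simpa using hu) (by
    intro j hj
    simp only [Finset.card_singleton] at hj
    obtain rfl : j = 0 := by omega
    simp [h0])
  have := congrFun this v
  simp at this

/-- The Cohen–Macaulay statement, in terms of `RegR`. -/
theorem cm_regR [CharP F 2] (m : ℕ) : ∀ (c : ℕ → Fin n → F) (K : Finset (Finset (Fin n)))
    (hdown : Down K) (_ : ∅ ∈ K) (_ : LinkAc K m) (_ : NonDeg c K (m + 1)) (G : Finset (Fin n)),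
    G ∈ K → RegR (lf c) (m + 1) ⊤ (starI F K hdown G) := by
  induction m with
  | zero =>
    intro c K hdown hempty hlink hnd
    -- stars of nonempty faces
    have hstar : ∀ G ∈ K, G.Nonempty → RegR (lf c) 1 ⊤ (starI F K hdown G) := by
      rintro G hG ⟨v, hv⟩
      have hcv : c 0 v ≠ 0 := nonDeg_vertex hnd (hdown G hG _ (Finset.singleton_subset_iff.2 hv))
      refine lift_reg v (fun s => s ∪ G ∉ K) (fun s => s ∪ G ∉ K ∨ v ∈ s) _ ?_ ?_ c hcv 0
        (fun j hj => by omega)
      · rintro s t (h | h) hst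
        · exact Or.inl (star_up hdown G s t h hst)
        · exact Or.inr (hst h)
      · intro s
        rw [erase_union_of_mem hv]
        simp
    intro G hG
    rcases G.eq_empty_or_nonempty with rfl | hne
    · exact chase 0 c K hdown hempty hlink hstar
    · exact hstar G hG hne
  | succ m ih =>
    intro c K hdown hempty hlink hnd
    have hstar : ∀ G ∈ K, G.Nonempty → RegR (lf c) (m + 1 + 1) ⊤ (starI F K hdown G) := by
      rintro G hG ⟨v, hv⟩
      have hcv : c 0 v ≠ 0 := nonDeg_vertex hnd (hdown G hG _ (Finset.singleton_subset_iff.2 hv))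
      have hG' : G.erase v ∈ lkv K v := by
        rw [mem_lkv]
        exact ⟨Finset.notMem_erase v G, by rwa [Finset.insert_erase hv]⟩
      have hempty' : ∅ ∈ lkv K v := down_lkv hdown v _ hG' _ (Finset.empty_subset _)
      have h1 := ih (elim c v) (lkv K v) (down_lkv hdown v) hempty' (linkAc_lkv hlink v)
        (nonDeg_elim hnd v hcv) (G.erase v) hG'
      refine lift_reg v (fun s => s ∪ G ∉ K) (fun s => s ∪ G.erase v ∉ lkv K v) _ _ ?_ c hcv
        (m + 1) h1
      intro s
      rw [mem_lkv]
      have e1 : insert v (s.erase v ∪ G.erase v) = s ∪ G := by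
        ext w; simp only [Finset.mem_insert, Finset.mem_union, Finset.mem_erase]
        by_cases hw : w = v
        · subst hw; simp [hv]
        · simp [hw]
      have e2 : v ∉ s.erase v ∪ G.erase v := by simp
      rw [e1]
      tauto
    intro G hG
    rcases G.eq_empty_or_nonempty with rfl | hne
    · exact chase (m + 1) c K hdown hempty hlink hstar
    · exact hstar G hG hne

end Pool.Agent.RelH
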