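import Pool.Agent.Lib_helper45.REll.PSH

/-!
# Blocks PSH1 and PSH2: structure theory of positive self-adjoint Hopf algebras (hooks)
-/

open scoped BigOperators TensorProduct
open Finset

namespace Pool.Agent.REll
namespace PSH
universe u v
variable {I : Type u} {A : Type v} [CommRing A] (P : PSH I A)

open Classical in
/-- the form as a bilinear map -/
noncomputable def B : A →ₗ[ℤ] A →ₗ[ℤ] ℤ := P.b.toDual

lemma B_left (i : I) (x : A) : P.B (P.b i) x = P.b.repr x i := by
  classical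
  unfold B
  convert P.b.toDual_apply_right i x

lemma B_right (x : A) (i : I) : P.B x (P.b i) = P.b.repr x i := by
  classical
  unfold B
  convert P.b.toDual_apply_left x i

open Classical in
lemma B_basis (i j : I) : P.B (P.b i) (P.b j) = if i = j then 1 else 0 := by
  rw [B_left, Module.Basis.repr_self, Finsupp.single_apply]
  simp [eq_comm]

lemma B_self_one (i : I) : P.B (P.b i) (P.b i) = 1 := by
  classical
  rw [B_basis, if_pos rfl]

lemma B_ne {i j : I} (h : i ≠ j) : P.B (P.b i) (P.b j) = 0 := by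
  classical
  rw [B_basis, if_neg h]

lemma B_eq_sum (x y : A) :
    P.B x y = ∑ i ∈ (P.b.repr x).support, P.b.repr x i * P.b.repr y i := by
  conv_lhs => rw [← P.b.linearCombination_repr x]
  rw [Finsupp.linearCombination_apply, Finsupp.sum, map_sum, LinearMap.sum_apply]
  refine Finset.sum_congr rfl fun i _ => ?_
  rw [map_smul, LinearMap.smul_apply, B_left, smul_eq_mul]

lemma inn_eq (x y : A) : P.inn x y = P.B x y := by
  rw [B_eq_sum]; rfl

lemma B_comm (x y : A) : P.B x y = P.B y x := by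
  classical
  rw [B_eq_sum, B_eq_sum]
  rw [Finset.sum_subset (Finset.subset_union_left (s₂ := (P.b.repr y).support)),
    Finset.sum_subset (s₁ := (P.b.repr y).support)
      (Finset.subset_union_right (s₁ := (P.b.repr x).support))]
  · exact Finset.sum_congr rfl fun i _ => mul_comm _ _
  · intro i _ hi
    rw [Finsupp.notMem_support_iff.mp hi, zero_mul]
  · intro i _ hi
    rw [Finsupp.notMem_support_iff.mp hi, zero_mul]

lemma ext_B {x y : A} (h : ∀ i, P.B x (P.b i) = P.B y (P.b i)) : x = y := by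
  apply P.b.ext_elem
  intro i
  rw [← B_right, ← B_right, h]

lemma ext_B' {x y : A} (h : ∀ z, P.B x z = P.B y z) : x = y :=
  P.ext_B fun i => h _

lemma eq_zero_of_B_self {x : A} (h : P.B x x = 0) : x = 0 := by
  rw [B_eq_sum] at h
  have h' := (Finset.sum_eq_zero_iff_of_nonneg (fun i _ => mul_self_nonneg _)).mp h
  apply P.b.ext_elem
  intro i
  rw [map_zero, Finsupp.zero_apply]
  by_cases hi : i ∈ (P.b.repr x).support
  · exact mul_self_eq_zero.mp (h' i hi)
  · exact Finsupp.notMem_support_iff.mp hi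

/-- degree finsets -/
noncomputable def G (n : ℕ) : Finset I :=
  letI := Classical.decEq I
  (Finset.range (n + 1)).biUnion fun m => (P.fin m).toFinset

lemma mem_G {n : ℕ} {i : I} : i ∈ P.G n ↔ P.deg i ≤ n := by
  classical
  unfold G
  rw [Finset.mem_biUnion]
  constructor
  · rintro ⟨m, hm, h⟩
    rw [Set.Finite.mem_toFinset] at h
    rw [Finset.mem_range] at hm
    have : P.deg i = m := h
    omega
  · intro h
    refine ⟨P.deg i, Finset.mem_range.mpr (by omega), ?_⟩
    rw [Set.Finite.mem_toFinset]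
    rfl

lemma c_G {i j k : I} (h : P.c i j k ≠ 0) : i ∈ P.G (P.deg k) ∧ j ∈ P.G (P.deg k) := by
  have := P.c_deg i j k h
  exact ⟨P.mem_G.mpr (by omega), P.mem_G.mpr (by omega)⟩

lemma c_finite (i j : I) : (Function.support fun k => P.c i j k).Finite := by
  refine (P.fin (P.deg i + P.deg j)).subset ?_
  intro k hk
  exact P.c_deg i j k hk

lemma repr_mul (i j k : I) : P.b.repr (P.b i * P.b j) k = P.c i j k := by
  classical
  rw [P.mul i j]
  have h1 : (Function.support fun k => (P.c i j k : ℤ) • P.b k).Finite := by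
    refine (P.c_finite i j).subset ?_
    intro k hk
    rw [Function.mem_support] at hk ⊢
    rintro h
    apply hk
    simp only [h, Nat.cast_zero, zero_smul]
  have h2 := AddMonoidHom.map_finsum (P.b.coord k).toAddMonoidHom h1
  have h3 : (P.b.coord k).toAddMonoidHom (∑ᶠ k, (P.c i j k : ℤ) • P.b k)
    = P.b.repr (∑ᶠ k, (P.c i j k : ℤ) • P.b k) k := rfl
  rw [← h3, h2]
  have h4 : ∀ m, (P.b.coord k).toAddMonoidHom ((P.c i j m : ℤ) • P.b m)
      = if m = k then (P.c i j m : ℤ) else 0 := by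
    intro m
    have : (P.b.coord k).toAddMonoidHom ((P.c i j m : ℤ) • P.b m)
      = P.b.repr ((P.c i j m : ℤ) • P.b m) k := rfl
    rw [this, map_smul, P.b.repr_self, Finsupp.smul_apply, Finsupp.single_apply]
    split_ifs <;> simp
  rw [finsum_congr h4]
  rw [finsum_eq_single _ k (fun m hm => if_neg hm)]
  rw [if_pos rfl]

lemma c_comm (i j k : I) : P.c i j k = P.c j i k := by
  have h := P.repr_mul i j k
  rw [mul_comm, P.repr_mul j i k] at h
  exact_mod_cast h.symm

open Classical in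
lemma c_one_left (j k : I) : P.c P.one j k = if k = j then 1 else 0 := by
  have h := P.repr_mul P.one j k
  rw [P.b_one, one_mul, P.b.repr_self, Finsupp.single_apply] at h
  have h2 : (P.c P.one j k : ℤ) = if j = k then 1 else 0 := h.symm
  by_cases hjk : j = k
  · rw [if_pos hjk] at h2
    rw [if_pos hjk.symm]
    exact_mod_cast h2
  · rw [if_neg hjk] at h2
    rw [if_neg (fun h => hjk h.symm)]
    exact_mod_cast h2

lemma hopf_fin (i j k l : I) :
    P.B (P.b i * P.b j) (P.b k * P.b l) =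
    ∑ x₁ ∈ P.G (P.deg i), ∑ x₂ ∈ P.G (P.deg i), ∑ x₃ ∈ P.G (P.deg j), ∑ x₄ ∈ P.G (P.deg j),
      (P.c x₁ x₂ i : ℤ) * P.c x₃ x₄ j * P.c x₁ x₃ k * P.c x₂ x₄ l := by
  classical
  have h := P.hopf i j k l
  have hL : P.B (P.b i * P.b j) (P.b k * P.b l) = ((∑ᶠ m, P.c i j m * P.c k l m : ℕ) : ℤ) := by
    rw [B_eq_sum]
    rw [finsum_eq_sum_of_support_subset (s := (P.b.repr (P.b i * P.b j)).support)]
    · push_cast
      refine Finset.sum_congr rfl fun m _ => ?_
      rw [repr_mul, repr_mul]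
    · intro m hm
      rw [Function.mem_support] at hm
      rw [Finset.mem_coe, Finsupp.mem_support_iff, repr_mul]
      intro h0
      apply hm
      have : P.c i j m = 0 := by exact_mod_cast h0
      rw [this, zero_mul]
  rw [hL, h]
  rw [finsum_eq_sum_of_support_subset
    (s := P.G (P.deg i) ×ˢ (P.G (P.deg i) ×ˢ (P.G (P.deg j) ×ˢ P.G (P.deg j))))]
  · push_cast
    rw [Finset.sum_product]
    refine Finset.sum_congr rfl fun x₁ _ => ?_
    rw [Finset.sum_product]
    refine Finset.sum_congr rfl fun x₂ _ => ?_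
    rw [Finset.sum_product]
  · rintro ⟨x₁, x₂, x₃, x₄⟩ hx
    rw [Function.mem_support] at hx
    have h1 : P.c x₁ x₂ i ≠ 0 := by
      intro h0; apply hx; simp only [h0, zero_mul]
    have h2 : P.c x₃ x₄ j ≠ 0 := by
      intro h0; apply hx; simp only [h0, mul_zero, zero_mul]
    rw [Finset.mem_coe]
    simp only [Finset.mem_product]
    exact ⟨(P.c_G h1).1, (P.c_G h1).2, (P.c_G h2).1, (P.c_G h2).2⟩

/-- the coproduct -/
noncomputable def Δ : A →ₗ[ℤ] A ⊗[ℤ] A :=
  P.b.constr ℤ fun k => ∑ i ∈ P.G (P.deg k), ∑ j ∈ P.G (P.deg k),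
    (P.c i j k : ℤ) • (P.b i ⊗ₜ[ℤ] P.b j)

lemma Δ_b (k : I) : P.Δ (P.b k) = ∑ i ∈ P.G (P.deg k), ∑ j ∈ P.G (P.deg k),
    (P.c i j k : ℤ) • (P.b i ⊗ₜ[ℤ] P.b j) := by
  unfold Δ
  rw [Module.Basis.constr_basis]

/-- coordinates on the tensor square -/
noncomputable def T : Module.Basis (I × I) ℤ (A ⊗[ℤ] A) := P.b.tensorProduct P.b

lemma T_tmul (x y : A) (i j : I) :
    P.T.repr (x ⊗ₜ[ℤ] y) (i, j) = P.b.repr x i * P.b.repr y j := by
  have h := Module.Basis.tensorProduct_repr_tmul_apply P.b P.b x y i j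
  rw [smul_eq_mul, mul_comm] at h
  exact h

lemma T_Δ (x : A) (i j : I) : P.T.repr (P.Δ x) (i, j) = P.B x (P.b i * P.b j) := by
  classical
  have key : (P.T.coord (i, j)) ∘ₗ P.Δ = P.B.flip (P.b i * P.b j) := by
    refine P.b.ext fun k => ?_
    rw [LinearMap.comp_apply, LinearMap.flip_apply, B_left, repr_mul, Δ_b, map_sum]
    have : ∀ x ∈ P.G (P.deg k), (P.T.coord (i, j)) (∑ y ∈ P.G (P.deg k),
        (P.c x y k : ℤ) • (P.b x ⊗ₜ[ℤ] P.b y)) =
        ∑ y ∈ P.G (P.deg k), if x = i ∧ y = j then (P.c x y k : ℤ) else 0 := by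
      intro x _
      rw [map_sum]
      refine Finset.sum_congr rfl fun y _ => ?_
      rw [map_smul, Module.Basis.coord_apply, T_tmul, P.b.repr_self, P.b.repr_self,
        Finsupp.single_apply, Finsupp.single_apply]
      by_cases h1 : x = i
      · by_cases h2 : y = j
        · simp [h1, h2]
        · simp [h1, h2]
      · simp [h1]
    rw [Finset.sum_congr rfl this]
    by_cases h0 : P.c i j k = 0
    · rw [h0]
      refine Finset.sum_eq_zero fun x _ => Finset.sum_eq_zero fun y _ => ?_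
      split_ifs with h
      · rw [h.1, h.2, h0, Nat.cast_zero]
      · rfl
    · have hm := P.c_G h0
      rw [Finset.sum_eq_single i, Finset.sum_eq_single j]
      · rw [if_pos ⟨rfl, rfl⟩]
      · intro y _ hy
        rw [if_neg (fun h => hy h.2)]
      · intro h; exact absurd hm.2 h
      · intro x _ hx
        refine Finset.sum_eq_zero fun y _ => ?_
        rw [if_neg (fun h => hx h.1)]
      · intro h; exact absurd hm.1 h
  have := LinearMap.congr_fun key x
  rwa [LinearMap.comp_apply, LinearMap.flip_apply, Module.Basis.coord_apply] at this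

lemma ext_T {x y : A ⊗[ℤ] A} (h : ∀ i j, P.T.repr x (i, j) = P.T.repr y (i, j)) : x = y := by
  apply P.T.ext_elem
  rintro ⟨i, j⟩
  exact h i j

lemma Δ_one : P.Δ 1 = 1 ⊗ₜ 1 := by
  classical
  apply P.ext_T
  intro i j
  rw [T_Δ, T_tmul, ← P.b_one, B_left, repr_mul, P.b.repr_self, Finsupp.single_apply,
    Finsupp.single_apply]
  by_cases hi : P.one = i
  · subst hi
    rw [c_one_left]
    by_cases hj : P.one = j
    · simp [hj]
    · simp [hj]
  · rw [if_neg hi]
    have : P.c i j P.one = 0 := by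
      by_contra h
      have h1 := P.c_deg i j P.one h
      rw [P.deg_one] at h1
      exact hi (P.eq_one i (by omega)).symm
    rw [this]; simp

lemma Δ_mul_b (i j : I) : P.Δ (P.b i * P.b j) = P.Δ (P.b i) * P.Δ (P.b j) := by
  apply P.ext_T
  intro k l
  rw [T_Δ, hopf_fin, Δ_b, Δ_b]
  rw [Finset.sum_mul, map_sum, Finsupp.finsetSum_apply]
  refine Finset.sum_congr rfl fun x₁ _ => ?_
  rw [Finset.sum_mul, map_sum, Finsupp.finsetSum_apply]
  refine Finset.sum_congr rfl fun x₂ _ => ?_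
  rw [Finset.mul_sum, map_sum, Finsupp.finsetSum_apply]
  refine Finset.sum_congr rfl fun x₃ _ => ?_
  rw [Finset.mul_sum, map_sum, Finsupp.finsetSum_apply]
  refine Finset.sum_congr rfl fun x₄ _ => ?_
  rw [smul_mul_smul_comm, Algebra.TensorProduct.tmul_mul_tmul, map_smul, Finsupp.smul_apply,
    T_tmul, repr_mul, repr_mul, smul_eq_mul]
  ring

lemma Δ_mul (x y : A) : P.Δ (x * y) = P.Δ x * P.Δ y := by
  have h : (LinearMap.mul ℤ A).compr₂ P.Δ =
      ((LinearMap.mul ℤ (A ⊗[ℤ] A)).compl₁₂ P.Δ P.Δ) := by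
    refine P.b.ext fun i => P.b.ext fun j => ?_
    simp only [LinearMap.compr₂_apply, LinearMap.compl₁₂_apply, LinearMap.mul_apply']
    exact P.Δ_mul_b i j
  have := LinearMap.congr_fun (LinearMap.congr_fun h x) y
  simpa only [LinearMap.compr₂_apply, LinearMap.compl₁₂_apply, LinearMap.mul_apply'] using this

/-- the coproduct as a ring homomorphism -/
noncomputable def Δr : A →+* A ⊗[ℤ] A where
  toFun := P.Δ
  map_one' := by rw [Δ_one]; rfl
  map_mul' := P.Δ_mul
  map_zero' := map_zero _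
  map_add' := map_add _

lemma Δr_apply (x : A) : P.Δr x = P.Δ x := rfl


/-! ### Skewing operators -/

lemma B_b_mul_eq_zero (y : A) {k j : I} (h : j ∉ P.G (P.deg k)) :
    P.B (P.b k) (y * P.b j) = 0 := by
  have : (P.B (P.b k)) ∘ₗ (LinearMap.mulRight ℤ (P.b j)) = 0 := by
    refine P.b.ext fun i => ?_
    rw [LinearMap.comp_apply, LinearMap.mulRight_apply, B_left, repr_mul, LinearMap.zero_apply]
    by_contra h0
    have h1 : P.c i j k ≠ 0 := by exact_mod_cast h0
    exact h (P.c_G h1).2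
  have h2 := LinearMap.congr_fun this y
  rwa [LinearMap.comp_apply, LinearMap.mulRight_apply, LinearMap.zero_apply] at h2

/-- `D y` is adjoint to multiplication by `y`. -/
noncomputable def D (y : A) : A →ₗ[ℤ] A :=
  P.b.constr ℤ fun k => ∑ j ∈ P.G (P.deg k), P.B (P.b k) (y * P.b j) • P.b j

lemma D_adj_b (y : A) (k l : I) : P.B (P.D y (P.b k)) (P.b l) = P.B (P.b k) (y * P.b l) := by
  classical
  unfold D
  rw [Module.Basis.constr_basis, map_sum, LinearMap.sum_apply]
  have : ∀ j ∈ P.G (P.deg k), P.B (P.B (P.b k) (y * P.b j) • P.b j) (P.b l) =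
      if j = l then P.B (P.b k) (y * P.b j) else 0 := by
    intro j _
    rw [map_smul, LinearMap.smul_apply, B_basis, smul_eq_mul]
    split_ifs <;> simp
  rw [Finset.sum_congr rfl this, Finset.sum_ite_eq']
  split_ifs with h
  · rfl
  · rw [P.B_b_mul_eq_zero y h]

lemma D_adj (y x z : A) : P.B (P.D y x) z = P.B x (y * z) := by
  have h : P.B ∘ₗ P.D y = P.B.compl₂ (LinearMap.mulLeft ℤ y) := by
    refine P.b.ext fun i => P.b.ext fun j => ?_
    rw [LinearMap.comp_apply, D_adj_b, LinearMap.compl₂_apply, LinearMap.mulLeft_apply]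
  have := LinearMap.congr_fun (LinearMap.congr_fun h x) z
  rwa [LinearMap.comp_apply, LinearMap.compl₂_apply, LinearMap.mulLeft_apply] at this

lemma D_mul (y z x : A) : P.D (y * z) x = P.D z (P.D y x) := by
  apply P.ext_B'
  intro w
  rw [D_adj, D_adj, D_adj, mul_assoc]

lemma D_comm (y z x : A) : P.D y (P.D z x) = P.D z (P.D y x) := by
  rw [← D_mul, ← D_mul, mul_comm]

lemma D_one (x : A) : P.D 1 x = x := by
  apply P.ext_B'
  intro w
  rw [D_adj, one_mul]

lemma D_add (y z x : A) : P.D (y + z) x = P.D y x + P.D z x := by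
  apply P.ext_B'
  intro w
  rw [D_adj, add_mul, map_add, map_add, LinearMap.add_apply, D_adj, D_adj]

lemma D_pow_succ (y x : A) (n : ℕ) : P.D (y ^ (n + 1)) x = P.D (y ^ n) (P.D y x) := by
  rw [pow_succ', D_mul]

/-- the pairing on the tensor square -/
noncomputable def φ (x x' : A) : A ⊗[ℤ] A →ₗ[ℤ] ℤ :=
  LinearMap.mul' ℤ ℤ ∘ₗ TensorProduct.map (P.B x) (P.B x')

lemma φ_tmul (x x' y y' : A) : P.φ x x' (y ⊗ₜ y') = P.B x y * P.B x' y' := rfl

lemma φ_b (i j : I) (w : A ⊗[ℤ] A) : P.φ (P.b i) (P.b j) w = P.T.repr w (i, j) := by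
  induction w using TensorProduct.induction_on with
  | zero => rw [map_zero, map_zero]; rfl
  | tmul x y => rw [φ_tmul, T_tmul, B_left, B_left]
  | add x y hx hy => rw [map_add, map_add, hx, hy]; rfl

lemma φ_add_left (a b c : A) (w : A ⊗[ℤ] A) : P.φ (a + b) c w = P.φ a c w + P.φ b c w := by
  induction w using TensorProduct.induction_on with
  | zero => simp only [map_zero, add_zero]
  | tmul x y => rw [φ_tmul, φ_tmul, φ_tmul, map_add, LinearMap.add_apply, add_mul]
  | add x y hx hy => rw [map_add, map_add, map_add, hx, hy]; ring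

lemma φ_add_right (a b c : A) (w : A ⊗[ℤ] A) : P.φ a (b + c) w = P.φ a b w + P.φ a c w := by
  induction w using TensorProduct.induction_on with
  | zero => simp only [map_zero, add_zero]
  | tmul x y => rw [φ_tmul, φ_tmul, φ_tmul, map_add, LinearMap.add_apply, mul_add]
  | add x y hx hy => rw [map_add, map_add, map_add, hx, hy]; ring

lemma φ_smul_left (n : ℤ) (b c : A) (w : A ⊗[ℤ] A) : P.φ (n • b) c w = n • P.φ b c w := by
  induction w using TensorProduct.induction_on with
  | zero => simp only [map_zero, smul_zero]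
  | tmul x y => rw [φ_tmul, φ_tmul, map_smul, LinearMap.smul_apply, smul_mul_assoc]
  | add x y hx hy => rw [map_add, map_add, hx, hy, smul_add]

lemma φ_smul_right (n : ℤ) (b c : A) (w : A ⊗[ℤ] A) : P.φ b (n • c) w = n • P.φ b c w := by
  induction w using TensorProduct.induction_on with
  | zero => simp only [map_zero, smul_zero]
  | tmul x y => rw [φ_tmul, φ_tmul, map_smul, LinearMap.smul_apply, mul_smul_comm]
  | add x y hx hy => rw [map_add, map_add, hx, hy, smul_add]

lemma φ_Δ (x x' z : A) : P.φ x x' (P.Δ z) = P.B (x * x') z := by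
  have h : (LinearMap.mk₂ ℤ (fun x x' => P.φ x x' (P.Δ z))
      (fun a b c => P.φ_add_left a b c _) (fun n b c => P.φ_smul_left n b c _)
      (fun a b c => P.φ_add_right a b c _) (fun n b c => P.φ_smul_right n b c _)) =
      (LinearMap.mul ℤ A).compr₂ (P.B.flip z) := by
    refine P.b.ext fun i => P.b.ext fun j => ?_
    rw [LinearMap.mk₂_apply, LinearMap.compr₂_apply, LinearMap.mul_apply', LinearMap.flip_apply,
      φ_b, T_Δ, B_comm]
  have := LinearMap.congr_fun (LinearMap.congr_fun h x) x'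
  rwa [LinearMap.mk₂_apply, LinearMap.compr₂_apply, LinearMap.mul_apply',
    LinearMap.flip_apply] at this

lemma φ_mul_left (x x' y : A) (w : A ⊗[ℤ] A) :
    P.φ x x' ((y ⊗ₜ 1) * w) = P.φ (P.D y x) x' w := by
  induction w using TensorProduct.induction_on with
  | zero => rw [mul_zero, map_zero, map_zero]
  | tmul a b => rw [Algebra.TensorProduct.tmul_mul_tmul, φ_tmul, φ_tmul, D_adj, one_mul]
  | add a b ha hb => rw [mul_add, map_add, ha, hb, map_add]

lemma φ_mul_right (x x' y : A) (w : A ⊗[ℤ] A) :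
    P.φ x x' ((1 ⊗ₜ y) * w) = P.φ x (P.D y x') w := by
  induction w using TensorProduct.induction_on with
  | zero => rw [mul_zero, map_zero, map_zero]
  | tmul a b => rw [Algebra.TensorProduct.tmul_mul_tmul, φ_tmul, φ_tmul, D_adj, one_mul]
  | add a b ha hb => rw [mul_add, map_add, ha, hb, map_add]

/-! ### Positivity -/

/-- nonnegative elements -/
def Pos (x : A) : Prop := ∀ i, 0 ≤ P.b.repr x i

lemma pos_b (i : I) : P.Pos (P.b i) := by
  classical
  intro j
  rw [P.b.repr_self, Finsupp.single_apply]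
  split_ifs <;> norm_num

variable {P}

lemma Pos.add {x y : A} (hx : P.Pos x) (hy : P.Pos y) : P.Pos (x + y) := by
  intro i
  rw [map_add, Finsupp.add_apply]
  exact add_nonneg (hx i) (hy i)

lemma Pos.B_nonneg {x y : A} (hx : P.Pos x) (hy : P.Pos y) : 0 ≤ P.B x y := by
  rw [B_eq_sum]
  exact Finset.sum_nonneg fun i _ => mul_nonneg (hx i) (hy i)

lemma pos_iff {x : A} : P.Pos x ↔ ∀ i, 0 ≤ P.B x (P.b i) := by
  unfold Pos
  simp only [B_right]

lemma pos_of_B {x : A} (h : ∀ y, P.Pos y → 0 ≤ P.B x y) : P.Pos x :=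
  pos_iff.mpr fun i => h _ (P.pos_b i)

lemma Pos.b_mul {x : A} (hx : P.Pos x) (j : I) : P.Pos (P.b j * x) := by
  classical
  intro k
  have h : P.b.repr (P.b j * x) k = ∑ i ∈ (P.b.repr x).support, P.b.repr x i * P.c j i k := by
    conv_lhs => rw [← P.b.linearCombination_repr x]
    rw [Finsupp.linearCombination_apply, Finsupp.sum, Finset.mul_sum, map_sum,
      Finsupp.finsetSum_apply]
    refine Finset.sum_congr rfl fun i _ => ?_
    rw [mul_smul_comm, map_smul, Finsupp.smul_apply, repr_mul, smul_eq_mul]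
  rw [h]
  exact Finset.sum_nonneg fun i _ => mul_nonneg (hx i) (Nat.cast_nonneg _)

lemma Pos.mul {x y : A} (hx : P.Pos x) (hy : P.Pos y) : P.Pos (x * y) := by
  intro k
  have h : P.b.repr (x * y) k = ∑ i ∈ (P.b.repr x).support,
      P.b.repr x i * P.b.repr (P.b i * y) k := by
    conv_lhs => rw [← P.b.linearCombination_repr x]
    rw [Finsupp.linearCombination_apply, Finsupp.sum, Finset.sum_mul, map_sum,
      Finsupp.finsetSum_apply]
    refine Finset.sum_congr rfl fun i _ => ?_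
    rw [smul_mul_assoc, map_smul, Finsupp.smul_apply, smul_eq_mul]
  rw [h]
  exact Finset.sum_nonneg fun i _ => mul_nonneg (hx i) (hy.b_mul i k)

lemma Pos.pow {x : A} (hx : P.Pos x) (n : ℕ) : P.Pos (x ^ n) := by
  induction n with
  | zero => rw [pow_zero, ← P.b_one]; exact P.pos_b _
  | succ n ih => rw [pow_succ]; exact ih.mul hx

lemma Pos.D {x y : A} (hx : P.Pos x) (hy : P.Pos y) : P.Pos (P.D y x) := by
  apply pos_of_B
  intro z hz
  rw [D_adj]
  exact hx.B_nonneg (hy.mul hz)

lemma Pos.eq_zero {x y : A} (hx : P.Pos x) (hy : P.Pos y) (h : x + y = 0) : x = 0 := by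
  apply P.b.ext_elem
  intro i
  have h1 : P.b.repr x i + P.b.repr y i = 0 := by
    rw [← Finsupp.add_apply, ← map_add, h, map_zero, Finsupp.zero_apply]
  rw [map_zero, Finsupp.zero_apply]
  have := hx i
  have := hy i
  omega

lemma Pos.split {x y : A} (hx : P.Pos x) (hy : P.Pos y) {k : I} (h : x + y = P.b k) :
    x = 0 ∨ y = 0 := by
  classical
  have h1 : ∀ i, P.b.repr x i + P.b.repr y i = if k = i then 1 else 0 := by
    intro i
    rw [← Finsupp.add_apply, ← map_add, h, P.b.repr_self, Finsupp.single_apply]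
  have hk := h1 k
  rw [if_pos rfl] at hk
  have hxk := hx k
  have hyk := hy k
  rcases (show P.b.repr x k = 0 ∨ P.b.repr y k = 0 by omega) with h0 | h0
  · left
    apply P.b.ext_elem
    intro i
    rw [map_zero, Finsupp.zero_apply]
    by_cases hi : k = i
    · rw [← hi, h0]
    · have := h1 i
      rw [if_neg hi] at this
      have := hx i
      have := hy i
      omega
  · right
    apply P.b.ext_elem
    intro i
    rw [map_zero, Finsupp.zero_apply]
    by_cases hi : k = i
    · rw [← hi, h0]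
    · have := h1 i
      rw [if_neg hi] at this
      have := hx i
      have := hy i
      omega

lemma Pos.norm_two {x : A} (hx : P.Pos x) (h : P.B x x = 2) :
    ∃ i j, i ≠ j ∧ x = P.b i + P.b j := by
  classical
  rw [B_eq_sum] at h
  have h1 : ∀ i ∈ (P.b.repr x).support, P.b.repr x i = 1 := by
    intro i hi
    have h2 : P.b.repr x i * P.b.repr x i ≤ 2 := by
      rw [← h]
      exact Finset.single_le_sum (f := fun i => P.b.repr x i * P.b.repr x i)
        (fun i _ => mul_self_nonneg _) hi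
    have h3 := Finsupp.mem_support_iff.mp hi
    have h4 := hx i
    have h5 : 1 ≤ P.b.repr x i := by omega
    nlinarith
  have h2 : (P.b.repr x).support.card = 2 := by
    have h3 : ∑ i ∈ (P.b.repr x).support, P.b.repr x i * P.b.repr x i =
        ∑ i ∈ (P.b.repr x).support, (1 : ℤ) :=
      Finset.sum_congr rfl fun i hi => by rw [h1 i hi]; norm_num
    rw [h3, Finset.sum_const, nsmul_eq_mul, mul_one] at h
    exact_mod_cast h
  obtain ⟨i, j, hij, hs⟩ := Finset.card_eq_two.mp h2
  refine ⟨i, j, hij, ?_⟩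
  conv_lhs => rw [← P.b.linearCombination_repr x]
  rw [Finsupp.linearCombination_apply, Finsupp.sum, hs, Finset.sum_pair hij,
    h1 i (by rw [hs]; simp), h1 j (by rw [hs]; simp), one_smul, one_smul]

variable (P)

lemma norm_one {x : A} (h : P.B x x = 1) :
    ∃ (i : I) (ε : ℤ), (ε = 1 ∨ ε = -1) ∧ x = ε • P.b i := by
  classical
  rw [B_eq_sum] at h
  have h0 : ∀ i ∈ (P.b.repr x).support, (1 : ℤ) ≤ P.b.repr x i * P.b.repr x i := by
    intro i hi
    have h3 := Finsupp.mem_support_iff.mp hi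
    have : 0 < P.b.repr x i * P.b.repr x i := mul_self_pos.mpr h3
    omega
  have h2 : (P.b.repr x).support.card = 1 := by
    have h3 := Finset.sum_le_sum h0
    rw [h, Finset.sum_const, nsmul_eq_mul, mul_one] at h3
    have h4 : (P.b.repr x).support.card ≤ 1 := by exact_mod_cast h3
    have h5 : (P.b.repr x).support.card ≠ 0 := by
      intro h6
      rw [Finset.card_eq_zero] at h6
      rw [h6, Finset.sum_empty] at h
      norm_num at h
    omega
  obtain ⟨i, hs⟩ := Finset.card_eq_one.mp h2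
  refine ⟨i, P.b.repr x i, ?_, ?_⟩
  · rw [hs, Finset.sum_singleton] at h
    exact mul_self_eq_one_iff.mp h
  · conv_lhs => rw [← P.b.linearCombination_repr x]
    rw [Finsupp.linearCombination_apply, Finsupp.sum, hs, Finset.sum_singleton]


/-! ### Primitive basis elements -/

variable {P}

lemma PrimIdx.ne_one {r : I} (hr : P.PrimIdx r) : r ≠ P.one := by
  intro h
  have := hr.1
  rw [h, P.deg_one] at this
  exact lt_irrefl _ this

lemma PrimIdx.Δ {r : I} (hr : P.PrimIdx r) :
    P.Δ (P.b r) = P.b r ⊗ₜ 1 + 1 ⊗ₜ P.b r := by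
  classical
  apply P.ext_T
  intro i j
  rw [T_Δ, B_left, repr_mul, map_add, Finsupp.add_apply, T_tmul, T_tmul, ← P.b_one,
    P.b.repr_self, P.b.repr_self]
  simp only [Finsupp.single_apply]
  have h1 := hr.ne_one
  by_cases hi : P.one = i
  · subst hi
    rw [c_one_left]
    by_cases hj : P.one = j
    · subst hj
      simp [h1]
    · simp [hj, h1]
  · by_cases hj : P.one = j
    · subst hj
      rw [c_comm, c_one_left]
      simp [hi]
    · have : P.c i j r = 0 := by
        by_contra h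
        rcases hr.2 i j h with h | h
        · exact hi h.symm
        · exact hj h.symm
      rw [this]
      simp [hi, hj]

lemma PrimIdx.D_mul {r : I} (hr : P.PrimIdx r) (x y : A) :
    P.D (P.b r) (x * y) = P.D (P.b r) x * y + x * P.D (P.b r) y := by
  apply P.ext_B'
  intro z
  rw [D_adj, ← φ_Δ, Δ_mul, hr.Δ, add_mul, map_add, φ_mul_left, φ_mul_right, φ_Δ, φ_Δ,
    map_add, LinearMap.add_apply]

lemma PrimIdx.D_one {r : I} (hr : P.PrimIdx r) : P.D (P.b r) 1 = 0 := by
  have h := hr.D_mul 1 1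
  rw [mul_one, mul_one, one_mul] at h
  exact left_eq_add.mp h

lemma PrimIdx.D_self {r : I} (hr : P.PrimIdx r) : P.D (P.b r) (P.b r) = 1 := by
  classical
  apply P.ext_B
  intro j
  rw [D_adj, B_left, repr_mul, ← P.b_one, B_basis]
  by_cases hj : j = P.one
  · subst hj
    rw [c_comm, c_one_left]
    simp
  · rw [if_neg (fun h => hj h.symm)]
    by_contra h
    have h1 : P.c r j r ≠ 0 := by exact_mod_cast h
    have h2 := P.c_deg _ _ _ h1
    exact hj (P.eq_one j (by omega))

lemma B_mul_left (y x w : A) : P.B (y * x) w = P.B x (P.D y w) := by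
  rw [B_comm, ← D_adj, B_comm]

lemma PrimIdx.D_rule {r : I} (hr : P.PrimIdx r) (y x : A) :
    P.D y (P.b r * x) = P.b r * P.D y x + P.D (P.D (P.b r) y) x := by
  apply P.ext_B'
  intro z
  rw [D_adj, B_mul_left, hr.D_mul, map_add, map_add, LinearMap.add_apply, B_mul_left, D_adj,
    D_adj, add_comm]

lemma b_ne_zero (i : I) : P.b i ≠ 0 := by
  intro h
  have := P.B_self_one i
  rw [h, map_zero] at this
  norm_num at this

lemma b_inj {i j : I} (h : P.b i = P.b j) : i = j := by
  by_contra hne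
  have := P.B_ne hne
  rw [h, B_self_one] at this
  norm_num at this

lemma c_eq_B (i j k : I) : (P.c i j k : ℤ) = P.B (P.D (P.b i) (P.b k)) (P.b j) := by
  rw [D_adj, B_left, repr_mul]

/-- PSH1 -/
theorem sq_proof {r : I} (hr : P.PrimIdx r) :
    ∃ i j, i ≠ j ∧ P.b r * P.b r = P.b i + P.b j := by
  refine Pos.norm_two ((P.pos_b r).mul (P.pos_b r)) ?_
  rw [B_mul_left, hr.D_mul, hr.D_self, one_mul, mul_one, map_add, B_self_one]
  norm_num

/-- the step of the recursion -/
lemma PrimIdx.step {r x₂ y₂ : I} (hr : P.PrimIdx r) (hne : x₂ ≠ y₂)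
    (hsq : P.b r * P.b r = P.b x₂ + P.b y₂) (hy2 : P.D (P.b r) (P.b y₂) = P.b r)
    {a'' a' a : I}
    (h1 : P.D (P.b r) (P.b a) = P.b a') (h2 : P.D (P.b r) (P.b a') = P.b a'')
    (h3 : P.D (P.b y₂) (P.b a) = 0) (h4 : P.D (P.b y₂) (P.b a') = 0) :
    ∃ t, P.D (P.b r) (P.b t) = P.b a ∧ P.D (P.b y₂) (P.b t) = 0 := by
  classical
  have hrp := P.pos_b r
  -- norms
  have n1 : P.B (P.b r * P.b a) (P.b r * P.b a) = 2 := by
    rw [B_mul_left, hr.D_mul, hr.D_self, one_mul, h1, map_add, B_self_one, B_comm, B_mul_left,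
      h1, B_self_one]
    norm_num
  have n2 : P.B (P.b r * P.b a') (P.b r * P.b a') = 2 := by
    rw [B_mul_left, hr.D_mul, hr.D_self, one_mul, h2, map_add, B_self_one, B_comm, B_mul_left,
      h2, B_self_one]
    norm_num
  obtain ⟨t, t', htt, ht⟩ := Pos.norm_two (hrp.mul (P.pos_b a)) n1
  obtain ⟨u, u', huu, hu⟩ := Pos.norm_two (hrp.mul (P.pos_b a')) n2
  -- D y₂ of both
  have d1 : P.D (P.b y₂) (P.b t) + P.D (P.b y₂) (P.b t') = P.b a' := by
    rw [← map_add, ← ht, hr.D_rule, h3, mul_zero, zero_add, hy2, h1]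
  have d2 : P.D (P.b y₂) (P.b u) + P.D (P.b y₂) (P.b u') = P.b a'' := by
    rw [← map_add, ← hu, hr.D_rule, h4, mul_zero, zero_add, hy2, h2]
  -- a is one of u, u'
  have ha : P.B (P.b r * P.b a') (P.b a) = 1 := by
    rw [B_mul_left, h1, B_self_one]
  -- WLOG
  wlog hw : P.D (P.b y₂) (P.b t) = 0 generalizing t t'
  · have hor := Pos.split ((P.pos_b t).D (P.pos_b y₂)) ((P.pos_b t').D (P.pos_b y₂)) d1
    exact this t' t htt.symm (by rw [ht, add_comm]) (by rw [add_comm, d1])
      (hor.resolve_left hw)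
  wlog hua : u = a generalizing u u'
  · refine this u' u huu.symm (by rw [hu, add_comm]) (by rw [add_comm, d2]) ?_
    by_contra hua'
    rw [hu, map_add, LinearMap.add_apply, P.B_ne hua, P.B_ne hua'] at ha
    norm_num at ha
  subst hua
  have hu' : P.D (P.b y₂) (P.b u') = P.b a'' := by
    rw [h3, zero_add] at d2; exact d2
  refine ⟨t, ?_, hw⟩
  -- D ρ t + D ρ t' = 2 u + u'
  have e1 : P.D (P.b r) (P.b t) + P.D (P.b r) (P.b t') = P.b u + (P.b u + P.b u') := by
    rw [← map_add, ← ht, hr.D_mul, hr.D_self, one_mul, h1, hu]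
  have pt := (P.pos_b t).D hrp
  have pt' := (P.pos_b t').D hrp
  -- coefficient of u
  have cu : P.B (P.D (P.b r) (P.b t)) (P.b u) = 1 := by
    rw [D_adj, ht, map_add, B_self_one, P.B_ne htt]
    norm_num
  have cz : ∀ i, i ≠ u → i ≠ u' → P.B (P.D (P.b r) (P.b t)) (P.b i) = 0 := by
    intro i hi hi'
    have e2 : P.B (P.D (P.b r) (P.b t)) (P.b i) + P.B (P.D (P.b r) (P.b t')) (P.b i) = 0 := by
      rw [← LinearMap.add_apply, ← map_add, e1, map_add, map_add, LinearMap.add_apply,
        LinearMap.add_apply, P.B_ne (Ne.symm hi), P.B_ne (Ne.symm hi')]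
      norm_num
    have := pos_iff.mp pt i
    have := pos_iff.mp pt' i
    omega
  have e3 : P.D (P.b r) (P.b t) = P.b u + P.B (P.D (P.b r) (P.b t)) (P.b u') • P.b u' := by
    apply P.ext_B
    intro i
    rw [map_add, map_smul, LinearMap.add_apply, LinearMap.smul_apply]
    by_cases hi : i = u
    · subst hi
      rw [cu, B_self_one, P.B_ne (Ne.symm huu)]
      simp
    · by_cases hi' : i = u'
      · subst hi'
        rw [B_self_one, P.B_ne huu]
        simp
      · rw [cz i hi hi', P.B_ne (Ne.symm hi), P.B_ne (Ne.symm hi')]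
        simp
  have e4 : P.B (P.D (P.b r) (P.b t)) (P.b u') = 0 := by
    have e5 : P.D (P.b y₂) (P.D (P.b r) (P.b t)) = 0 := by
      rw [D_comm, hw, map_zero]
    rw [e3, map_add, map_smul, h3, zero_add, hu'] at e5
    have e6 := congrArg (fun z => P.B z (P.b a'')) e5
    simp only [map_smul, LinearMap.smul_apply, B_self_one, map_zero, LinearMap.zero_apply,
      smul_eq_mul, mul_one] at e6
    exact e6
  rw [e3, e4, zero_smul, add_zero]

/-- first derivative of the constituents of `ρ²` -/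
lemma PrimIdx.D_sq {r x₂ y₂ : I} (hr : P.PrimIdx r) (hne : x₂ ≠ y₂)
    (hsq : P.b r * P.b r = P.b x₂ + P.b y₂) : P.D (P.b r) (P.b x₂) = P.b r := by
  classical
  have e1 : P.D (P.b r) (P.b x₂) + P.D (P.b r) (P.b y₂) = P.b r + P.b r := by
    rw [← map_add, ← hsq, hr.D_mul, hr.D_self, one_mul, mul_one]
  have pt := (P.pos_b x₂).D (P.pos_b r)
  have pt' := (P.pos_b y₂).D (P.pos_b r)
  apply P.ext_B
  intro i
  by_cases hi : i = r
  · subst hi
    rw [D_adj, hsq, map_add, B_self_one, P.B_ne hne, B_self_one]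
    norm_num
  · rw [P.B_ne (Ne.symm hi)]
    have e2 : P.B (P.D (P.b r) (P.b x₂)) (P.b i) + P.B (P.D (P.b r) (P.b y₂)) (P.b i) = 0 := by
      rw [← LinearMap.add_apply, ← map_add, e1, map_add, LinearMap.add_apply,
        P.B_ne (Ne.symm hi)]
      norm_num
    have := pos_iff.mp pt i
    have := pos_iff.mp pt' i
    omega

/-- The sequence of irreducibles. -/
lemma PrimIdx.exists_seq {r x₂ y₂ : I} (hr : P.PrimIdx r) (hne : x₂ ≠ y₂)
    (hsq : P.b r * P.b r = P.b x₂ + P.b y₂) :
    ∃ f : ℕ → I, f 0 = P.one ∧ f 1 = r ∧ f 2 = x₂ ∧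
      (∀ n, P.D (P.b r) (P.b (f (n + 1))) = P.b (f n)) ∧
      (∀ n, P.D (P.b y₂) (P.b (f n)) = 0) := by
  classical
  have hsq' : P.b r * P.b r = P.b y₂ + P.b x₂ := by rw [hsq, add_comm]
  have hx := hr.D_sq hne hsq
  have hy := hr.D_sq hne.symm hsq'
  let S := {p : I × I × I // P.D (P.b r) (P.b p.2.2) = P.b p.2.1 ∧
    P.D (P.b r) (P.b p.2.1) = P.b p.1 ∧ P.D (P.b y₂) (P.b p.2.2) = 0 ∧
    P.D (P.b y₂) (P.b p.2.1) = 0 ∧ P.D (P.b y₂) (P.b p.1) = 0}
  have hstep : ∀ s : S, ∃ s' : S, s'.1.1 = s.1.2.1 ∧ s'.1.2.1 = s.1.2.2 := by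
    rintro ⟨⟨a'', a', a⟩, h1, h2, h3, h4, h5⟩
    obtain ⟨t, ht1, ht2⟩ := hr.step hne hsq hy h1 h2 h3 h4
    exact ⟨⟨(a', a, t), ht1, h1, ht2, h3, h4⟩, rfl, rfl⟩
  choose g hg1 hg2 using hstep
  have hdegy : P.deg y₂ = P.deg r + P.deg r := by
    apply P.c_deg
    intro h0
    have := P.repr_mul r r y₂
    rw [hsq, h0, ← B_right, map_add, LinearMap.add_apply, B_self_one, P.B_ne hne] at this
    norm_num at this
  have hz : ∀ i, P.deg i < P.deg y₂ → P.D (P.b y₂) (P.b i) = 0 := by
    intro i hi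
    apply P.ext_B
    intro j
    rw [← c_eq_B, map_zero, LinearMap.zero_apply]
    by_contra h
    have h1 : P.c y₂ j i ≠ 0 := by exact_mod_cast h
    have := P.c_deg _ _ _ h1
    omega
  have hpos := hr.1
  let s₀ : S := ⟨(P.one, r, x₂), hx, by rw [hr.D_self, P.b_one], by
    apply P.ext_B
    intro j
    rw [← c_eq_B, map_zero, LinearMap.zero_apply]
    by_contra h
    have h1 : P.c y₂ j x₂ ≠ 0 := by exact_mod_cast h
    have h2 := P.c_deg _ _ _ h1
    have h3 : P.deg x₂ = P.deg r + P.deg r := by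
      apply P.c_deg
      intro h0
      have := P.repr_mul r r x₂
      rw [hsq, h0, ← B_right, map_add, LinearMap.add_apply, B_self_one,
        P.B_ne hne.symm] at this
      norm_num at this
    have h4 := P.eq_one j (by omega)
    rw [h4, c_comm, c_one_left, if_neg hne] at h1
    exact h1 rfl, hz r (by omega), hz P.one (by rw [P.deg_one]; omega)⟩
  let F : ℕ → S := fun n => Nat.rec s₀ (fun _ s => g s) n
  have hF : ∀ n, F (n + 1) = g (F n) := fun n => rfl
  refine ⟨fun n => (F n).1.1, rfl, ?_, ?_, ?_, ?_⟩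
  · show (g s₀).1.1 = r
    rw [hg1]
  · show (g (g s₀)).1.1 = x₂
    rw [hg1, hg2]
  · intro n
    show P.D (P.b r) (P.b (F (n + 1)).1.1) = P.b (F n).1.1
    rw [hF n, hg1]
    exact (F n).2.2.1
  · intro n
    exact (F n).2.2.2.2.2


variable (P) in
/-- the properties of the sequence of irreducibles -/
structure HSeq (r : I) (f : ℕ → I) : Prop where
  zero : f 0 = P.one
  one : f 1 = r
  der : ∀ n, P.D (P.b r) (P.b (f (n + 1))) = P.b (f n)

namespace HSeq
variable {r : I} {f : ℕ → I} (hf : P.HSeq r f) (hr : P.PrimIdx r)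
include hf

lemma deg (n : ℕ) : P.deg (f n) = n * P.deg r := by
  induction n with
  | zero => rw [hf.zero, P.deg_one, zero_mul]
  | succ n ih =>
    have h : P.c r (f n) (f (n + 1)) ≠ 0 := by
      intro h0
      have := P.c_eq_B r (f n) (f (n + 1))
      rw [h0, hf.der, B_self_one] at this
      norm_num at this
    rw [P.c_deg _ _ _ h, ih]
    ring

include hr in
lemma inj {m n : ℕ} (h : f m = f n) : m = n := by
  have h1 := hf.deg m
  rw [h, hf.deg n] at h1
  exact (Nat.eq_of_mul_eq_mul_right hr.1 h1).symm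

lemma D_pow (k n : ℕ) : P.D (P.b r ^ k) (P.b (f (n + k))) = P.b (f n) := by
  induction k with
  | zero => rw [pow_zero, D_one, add_zero]
  | succ k ih => rw [D_pow_succ, ← add_assoc, hf.der, ih]

include hr in
lemma D_pow_gt {k n : ℕ} (h : n < k) : P.D (P.b r ^ k) (P.b (f n)) = 0 := by
  obtain ⟨d, rfl⟩ : ∃ d, k = n + 1 + d := ⟨k - (n + 1), by omega⟩
  have h1 := hf.D_pow n 0
  rw [zero_add, hf.zero, P.b_one] at h1
  rw [pow_add, pow_succ, PSH.D_mul, PSH.D_mul, h1, hr.D_one, map_zero]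

lemma B_pow (j : ℕ) : P.B (P.b r ^ j) (P.b (f j)) = 1 := by
  have h1 := hf.D_pow j 0
  rw [zero_add, hf.zero, P.b_one] at h1
  rw [← mul_one (P.b r ^ j), B_comm, ← D_adj, h1, ← P.b_one, B_self_one]

lemma pos_pow_sub (j : ℕ) : P.Pos (P.b r ^ j - P.b (f j)) := by
  classical
  rw [pos_iff]
  intro i
  rw [map_sub, LinearMap.sub_apply]
  by_cases hi : f j = i
  · subst hi
    rw [hf.B_pow, B_self_one]
    norm_num
  · rw [P.B_ne hi, sub_zero]
    exact ((P.pos_b r).pow j).B_nonneg (P.pos_b i)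

omit hf in
lemma D_self_ne (i : I) : P.D (P.b i) (P.b i) ≠ 0 := by
  intro h
  have := P.D_adj (P.b i) (P.b i) 1
  rw [h, mul_one, B_self_one, map_zero, LinearMap.zero_apply] at this
  norm_num at this

lemma D_f (j n : ℕ) : P.D (P.b (f j)) (P.b (f (n + j))) = P.b (f n) := by
  have h1 : P.D (P.b (f j)) (P.b (f (n + j))) +
      P.D (P.b r ^ j - P.b (f j)) (P.b (f (n + j))) = P.b (f n) := by
    rw [← D_add, add_sub_cancel, hf.D_pow]
  rcases Pos.split ((P.pos_b _).D (P.pos_b _)) ((P.pos_b _).D (hf.pos_pow_sub j)) h1 with h | h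
  · exfalso
    have h2 : P.D (P.b r ^ n) (P.D (P.b (f j)) (P.b (f (n + j)))) = 0 := by
      rw [h, map_zero]
    rw [D_comm, add_comm n j, hf.D_pow] at h2
    exact D_self_ne _ h2
  · rw [h, add_zero] at h1
    exact h1

omit hf in
lemma exists_pow_of_D_ne (hr : P.PrimIdx r) : ∀ (n : ℕ) (y : A), P.D y (P.b r ^ n) ≠ 0 →
    ∃ j ≤ n, P.B y (P.b r ^ j) ≠ 0
  | 0, y, h => by
    refine ⟨0, le_rfl, ?_⟩
    intro h0
    apply h
    rw [pow_zero] at h0 ⊢
    apply P.ext_B
    intro j
    rw [D_adj, map_zero, LinearMap.zero_apply]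
    -- B 1 (y * b j)
    have h1 : P.B 1 (y * P.b j) = P.B y 1 * P.B 1 (P.b j) := by
      have hh := P.φ_Δ y (P.b j) 1
      rw [Δ_one, φ_tmul] at hh
      rw [P.B_comm 1 (y * P.b j), ← hh, P.B_comm (P.b j) 1]
    rw [h1, h0, zero_mul]
  | n + 1, y, h => by
    rw [pow_succ', hr.D_rule] at h
    by_cases h1 : P.D y (P.b r ^ n) = 0
    · rw [h1, mul_zero, zero_add] at h
      obtain ⟨j, hj, hj2⟩ := exists_pow_of_D_ne hr n _ h
      refine ⟨j + 1, by omega, ?_⟩
      rw [D_adj] at hj2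
      rwa [pow_succ']
    · obtain ⟨j, hj, hj2⟩ := exists_pow_of_D_ne hr n _ h1
      exact ⟨j, by omega, hj2⟩

include hr in
lemma D_other {i : I} {n : ℕ} (h : P.D (P.b i) (P.b (f n)) ≠ 0) : ∃ j ≤ n, i = f j := by
  have h1 : P.D (P.b i) (P.b r ^ n) ≠ 0 := by
    intro h0
    apply h
    refine Pos.eq_zero (y := P.D (P.b i) (P.b r ^ n - P.b (f n))) ((P.pos_b _).D (P.pos_b _))
      ((hf.pos_pow_sub n).D (P.pos_b _)) ?_
    rw [← map_add, add_sub_cancel, h0]
  obtain ⟨j, hj, hj2⟩ := exists_pow_of_D_ne hr n _ h1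
  refine ⟨j, hj, ?_⟩
  by_contra hne
  apply h
  have hpos : P.Pos (P.b r ^ j - P.b (f j) - P.b i) := by
    rw [pos_iff]
    intro k
    rw [map_sub, LinearMap.sub_apply]
    by_cases hk : i = k
    · subst hk
      rw [map_sub, LinearMap.sub_apply, P.B_ne (Ne.symm hne), B_self_one, sub_zero]
      have h3 := ((P.pos_b r).pow j).B_nonneg (P.pos_b i)
      rw [P.B_comm] at hj2
      omega
    · rw [P.B_ne hk, sub_zero]
      exact pos_iff.mp (hf.pos_pow_sub j) k
  obtain ⟨d, rfl⟩ : ∃ d, n = d + j := ⟨n - j, by omega⟩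
  have h4 : P.D (P.b i) (P.b (f (d + j))) +
      P.D (P.b r ^ j - P.b (f j) - P.b i) (P.b (f (d + j))) = 0 := by
    have h5 := hf.D_pow j d
    have h6 : P.b r ^ j = P.b (f j) + (P.b i + (P.b r ^ j - P.b (f j) - P.b i)) := by ring
    rw [h6, D_add, D_add, hf.D_f] at h5
    exact left_eq_add.mp h5.symm
  exact Pos.eq_zero ((P.pos_b _).D (P.pos_b _)) ((P.pos_b _).D hpos) h4

include hr in
lemma coprod (n : ℕ) : P.Δ (P.b (f n)) =
    ∑ p ∈ Finset.HasAntidiagonal.antidiagonal n, P.b (f p.1) ⊗ₜ P.b (f p.2) := by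
  classical
  apply P.ext_T
  intro i j
  rw [T_Δ, ← D_adj, map_sum, Finsupp.finsetSum_apply]
  by_cases h : ∃ k ≤ n, i = f k
  · obtain ⟨k, hk, rfl⟩ := h
    obtain ⟨d, rfl⟩ : ∃ d, n = d + k := ⟨n - k, by omega⟩
    rw [hf.D_f, Finset.sum_eq_single (k, d)]
    · rw [T_tmul, ← B_right, ← B_right, B_self_one, one_mul]
    · rintro ⟨p, q⟩ hpq hne
      rw [Finset.HasAntidiagonal.mem_antidiagonal] at hpq
      simp only at hpq
      rw [T_tmul, ← B_right]
      have : f p ≠ f k := by
        intro h0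
        have := hf.inj hr h0
        subst this
        apply hne
        rw [Prod.mk.injEq]
        exact ⟨rfl, by omega⟩
      rw [P.B_ne this, zero_mul]
    · intro h0
      exfalso
      apply h0
      rw [Finset.HasAntidiagonal.mem_antidiagonal]
      simp only
      omega
  · have h0 : P.D (P.b i) (P.b (f n)) = 0 := by
      by_contra h1
      exact h (hf.D_other hr h1)
    rw [h0, map_zero, LinearMap.zero_apply, eq_comm]
    refine Finset.sum_eq_zero fun p hp => ?_
    rw [Finset.HasAntidiagonal.mem_antidiagonal] at hp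
    rw [T_tmul, ← B_right]
    have : f p.1 ≠ i := by
      intro h1
      exact h ⟨p.1, by omega, h1.symm⟩
    rw [P.B_ne this, zero_mul]

include hr in
/-- product rule for `D (h l)` -/
lemma D_f_mul (l : ℕ) (x x' : A) : P.D (P.b (f l)) (x * x') =
    ∑ p ∈ Finset.HasAntidiagonal.antidiagonal l, P.D (P.b (f p.1)) x * P.D (P.b (f p.2)) x' := by
  apply P.ext_B'
  intro z
  rw [D_adj, ← φ_Δ, Δ_mul, hf.coprod hr, Finset.sum_mul, map_sum, map_sum, LinearMap.sum_apply]
  refine Finset.sum_congr rfl fun p _ => ?_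
  have : (P.b (f p.1)) ⊗ₜ[ℤ] (P.b (f p.2)) =
      (P.b (f p.1) ⊗ₜ[ℤ] (1 : A)) * ((1 : A) ⊗ₜ[ℤ] P.b (f p.2)) := by
    rw [Algebra.TensorProduct.tmul_mul_tmul, mul_one, one_mul]
  rw [this, mul_assoc, φ_mul_left, φ_mul_right, φ_Δ]

end HSeq

variable (P) in
/-- a pair of sequences `h = b ∘ f`, `e = b ∘ g` -/
structure HPair (r : I) (f g : ℕ → I) : Prop where
  hr : P.PrimIdx r
  hf : P.HSeq r f
  hg : P.HSeq r g
  ne : ∀ n, 2 ≤ n → f n ≠ g n

namespace HPair
variable {r : I} {f g : ℕ → I} (h : P.HPair r f g)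
include h

lemma eq_of {m n : ℕ} (hmn : f m = g n) : m = n ∧ m ≤ 1 := by
  have h1 := h.hf.deg m
  rw [hmn, h.hg.deg n] at h1
  have h2 := (Nat.eq_of_mul_eq_mul_right h.hr.1 h1).symm
  refine ⟨h2, ?_⟩
  by_contra h3
  subst h2
  exact h.ne m (by omega) hmn

lemma fg_one {m : ℕ} (hm : m ≤ 1) : f m = g m := by
  rcases (show m = 0 ∨ m = 1 by omega) with rfl | rfl
  · rw [h.hf.zero, h.hg.zero]
  · rw [h.hf.one, h.hg.one]

lemma B_fg (m n : ℕ) : P.B (P.b (g n)) (P.b (f m)) = if m = n ∧ m ≤ 1 then 1 else 0 := by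
  split_ifs with hc
  · rw [← hc.1, h.fg_one hc.2, B_self_one]
  · refine P.B_ne fun he => hc (h.eq_of he.symm)

lemma D_g_f {k b : ℕ} (hk : 2 ≤ k) : P.D (P.b (g k)) (P.b (f b)) = 0 := by
  by_contra hh
  obtain ⟨j, hj, hje⟩ := h.hf.D_other h.hr hh
  have := h.eq_of hje.symm
  omega

lemma D_f_f (j n : ℕ) : P.D (P.b (f j)) (P.b (f n)) =
    if j ≤ n then P.b (f (n - j)) else 0 := by
  split_ifs with hc
  · obtain ⟨d, rfl⟩ : ∃ d, n = d + j := ⟨n - j, by omega⟩
    rw [h.hf.D_f, Nat.add_sub_cancel]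
  · by_contra hh
    obtain ⟨k, hk, hke⟩ := h.hf.D_other h.hr hh
    have := h.hf.inj h.hr hke
    omega

lemma D_g_g (j n : ℕ) : P.D (P.b (g j)) (P.b (g n)) =
    if j ≤ n then P.b (g (n - j)) else 0 := by
  split_ifs with hc
  · obtain ⟨d, rfl⟩ : ∃ d, n = d + j := ⟨n - j, by omega⟩
    rw [h.hg.D_f, Nat.add_sub_cancel]
  · by_contra hh
    obtain ⟨k, hk, hke⟩ := h.hg.D_other h.hr hh
    have := h.hg.inj h.hr hke
    omega

lemma L1 (a b l : ℕ) : P.B (P.b (g a) * P.b (f b)) (P.b (f l)) =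
    if a + b = l ∧ a ≤ 1 then 1 else 0 := by
  rw [mul_comm, B_mul_left, h.D_f_f]
  by_cases hb : b ≤ l
  · rw [if_pos hb, h.B_fg]
    split_ifs <;> (try simp only [false_or, or_false] at *) <;> omega
  · rw [if_neg hb, map_zero, if_neg (show ¬ (a + b = l ∧ a ≤ 1) by omega)]

lemma D_g_mul (k a b : ℕ) : P.D (P.b (g (k + 1))) (P.b (g a) * P.b (f b)) =
    P.D (P.b (g k)) (P.b (g a)) * P.D (P.b r) (P.b (f b)) +
      P.D (P.b (g (k + 1))) (P.b (g a)) * P.b (f b) := by
  rw [h.hg.D_f_mul h.hr, Finset.Nat.sum_antidiagonal_eq_sum_range_succ_mk,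
    Finset.sum_range_succ, Finset.sum_range_succ]
  rw [Finset.sum_eq_zero, zero_add]
  · simp only [Nat.sub_self]
    rw [show k + 1 - k = 1 by omega, h.hg.one, h.hg.zero, P.b_one, D_one]
  · intro j hj
    rw [Finset.mem_range] at hj
    simp only
    rw [h.D_g_f (show 2 ≤ k + 1 - j by omega), mul_zero]

lemma D_r_f (b : ℕ) : P.D (P.b r) (P.b (f b)) = if 1 ≤ b then P.b (f (b - 1)) else 0 := by
  rw [← h.hf.one]; exact h.D_f_f 1 b

lemma D_r_g (b : ℕ) : P.D (P.b r) (P.b (g b)) = if 1 ≤ b then P.b (g (b - 1)) else 0 := by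
  rw [← h.hg.one]; exact h.D_g_g 1 b

lemma gram (a b k l : ℕ) (hn : a + b = k + l) (hpos : 1 ≤ a + b) :
    P.B (P.b (g a) * P.b (f b)) (P.b (g k) * P.b (f l)) =
    if a = k then (if 1 ≤ a ∧ 1 ≤ b then 2 else 1) else
      if a = k + 1 ∨ k = a + 1 then 1 else 0 := by
  rcases k with _ | k
  · rw [h.hg.zero, P.b_one, one_mul, h.L1]
    split_ifs <;> (try simp only [false_or, or_false] at *) <;> omega
  · rw [← D_adj, h.D_g_mul, map_add, LinearMap.add_apply, h.D_g_g, h.D_g_g, h.D_r_f]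
    by_cases h1 : k ≤ a
    · rw [if_pos h1]
      by_cases h2 : 1 ≤ b
      · rw [if_pos h2, h.L1]
        by_cases h3 : k + 1 ≤ a
        · rw [if_pos h3, h.L1]
          split_ifs <;> (try simp only [false_or, or_false] at *) <;> omega
        · rw [if_neg h3, zero_mul, map_zero, LinearMap.zero_apply]
          split_ifs <;> (try simp only [false_or, or_false] at *) <;> omega
      · rw [if_neg h2, mul_zero, map_zero, LinearMap.zero_apply]
        by_cases h3 : k + 1 ≤ a
        · rw [if_pos h3, h.L1]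
          split_ifs <;> (try simp only [false_or, or_false] at *) <;> omega
        · rw [if_neg h3, zero_mul, map_zero, LinearMap.zero_apply]
          split_ifs <;> (try simp only [false_or, or_false] at *) <;> omega
    · rw [if_neg h1, if_neg (show ¬ (k + 1 ≤ a) by omega), zero_mul, zero_mul, map_zero,
        LinearMap.zero_apply]
      split_ifs <;> (try simp only [false_or, or_false] at *) <;> omega

omit h in
variable (P g f) in
/-- the products `e_a h_{n-a}` -/
noncomputable def u (n a : ℕ) : A := P.b (g a) * P.b (f (n - a))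

omit h in
variable (P g f) in
/-- hook Schur functions -/
noncomputable def sg (n : ℕ) : ℕ → A
  | 0 => u P f g n 0
  | t + 1 => u P f g n (t + 1) - sg n t

lemma gram_u {n a k : ℕ} (hn : 1 ≤ n) (ha : a ≤ n) (hk : k ≤ n) :
    P.B (u P f g n a) (u P f g n k) = if a = k then (if 1 ≤ a ∧ a < n then 2 else 1) else
      if a = k + 1 ∨ k = a + 1 then 1 else 0 := by
  unfold u
  rw [h.gram _ _ _ _ (by omega) (by omega)]
  have : (1 ≤ a ∧ 1 ≤ n - a) ↔ (1 ≤ a ∧ a < n) := by omega
  simp only [this]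

lemma B_sg_u {n t k : ℕ} (ht : t < n) (hk : k ≤ n) :
    P.B (sg P f g n t) (u P f g n k) = if k = t ∨ k = t + 1 then 1 else 0 := by
  induction t with
  | zero =>
    show P.B (u P f g n 0) (u P f g n k) = _
    rw [h.gram_u (by omega) (by omega) hk]
    split_ifs <;> (try simp only [false_or, or_false] at *) <;> omega
  | succ t ih =>
    show P.B (u P f g n (t + 1) - sg P f g n t) (u P f g n k) = _
    rw [map_sub, LinearMap.sub_apply, ih (by omega), h.gram_u (by omega) (by omega) hk]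
    split_ifs <;> (try simp only [false_or, or_false] at *) <;> omega

lemma B_sg_sg {n t t' : ℕ} (ht : t < n) (ht' : t' < n) :
    P.B (sg P f g n t) (sg P f g n t') = if t = t' then 1 else 0 := by
  induction t' with
  | zero =>
    show P.B (sg P f g n t) (u P f g n 0) = _
    rw [h.B_sg_u ht (by omega)]
    split_ifs <;> (try simp only [false_or, or_false] at *) <;> omega
  | succ t' ih =>
    show P.B (sg P f g n t) (u P f g n (t' + 1) - sg P f g n t') = _
    rw [map_sub, ih (by omega), h.B_sg_u ht (by omega)]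
    split_ifs <;> (try simp only [false_or, or_false] at *) <;> omega

lemma sg_self {n : ℕ} (hn : 1 ≤ n) : sg P f g n n = 0 := by
  apply P.eq_zero_of_B_self
  obtain ⟨m, rfl⟩ : ∃ m, n = m + 1 := ⟨n - 1, by omega⟩
  show P.B (u P f g (m + 1) (m + 1) - sg P f g (m + 1) m)
    (u P f g (m + 1) (m + 1) - sg P f g (m + 1) m) = 0
  rw [map_sub, map_sub, LinearMap.sub_apply, LinearMap.sub_apply,
    h.gram_u (by omega) le_rfl le_rfl, h.B_sg_sg (by omega) (by omega),
    h.B_sg_u (by omega) (by omega), P.B_comm (u P f g (m + 1) (m + 1)) (sg P f g (m + 1) m),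
    h.B_sg_u (by omega) (by omega)]
  simp

omit h in
lemma sum_u (n t : ℕ) : ∑ i ∈ Finset.range (t + 1), (-1 : A) ^ i * u P f g n i =
    (-1) ^ t * sg P f g n t := by
  induction t with
  | zero =>
    rw [zero_add, Finset.sum_range_one]
    rfl
  | succ t ih =>
    rw [Finset.sum_range_succ, ih]
    show _ = (-1 : A) ^ (t + 1) * (u P f g n (t + 1) - sg P f g n t)
    ring

omit h in
lemma sg_eq {n t : ℕ} (ht : t ≤ n) : sg P f g n t =
    ∑ i ∈ Finset.range (t + 1), (-1) ^ i * P.b (g (t - i)) * P.b (f (n - t + i)) := by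
  induction t with
  | zero =>
    rw [zero_add, Finset.sum_range_one]
    show u P f g n 0 = _
    unfold u
    simp
  | succ t ih =>
    rw [Finset.sum_range_succ']
    show u P f g n (t + 1) - sg P f g n t = _
    rw [ih (by omega), sub_eq_neg_add, ← Finset.sum_neg_distrib]
    congr 1
    · refine Finset.sum_congr rfl fun i _ => ?_
      rw [show t + 1 - (i + 1) = t - i by omega, show n - (t + 1) + (i + 1) = n - t + i by omega]
      ring
    · unfold u
      simp

omit h in
variable (P g f) in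
/-- power sums -/
noncomputable def pw (n : ℕ) : A := ∑ t ∈ Finset.range n, (-1) ^ t * sg P f g n t

omit h in
lemma pw_eq (n : ℕ) : pw P f g n =
    ∑ i ∈ Finset.range (n + 1), ((n : A) - i) * ((-1) ^ i * u P f g n i) := by
  have key : ∀ m, ∑ t ∈ Finset.range m, (-1) ^ t * sg P f g n t =
      ∑ i ∈ Finset.range (m + 1), ((m : A) - i) * ((-1) ^ i * u P f g n i) := by
    intro m
    induction m with
    | zero => simp
    | succ m ih =>
      rw [Finset.sum_range_succ, ih, ← sum_u, Finset.sum_range_succ _ (m + 1), ← Finset.sum_add_distrib]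
      rw [sub_self, zero_mul, add_zero]
      refine Finset.sum_congr rfl fun i _ => ?_
      push_cast
      ring
  exact key n

open PowerSeries in
omit h in
/-- `X d/dX` -/
noncomputable def θ {R : Type*} [CommRing R] (F : PowerSeries R) : PowerSeries R :=
  PowerSeries.mk fun n => (n : R) * PowerSeries.coeff n F

omit h in
lemma coeff_θ {R : Type*} [CommRing R] (F : PowerSeries R) (n : ℕ) :
    PowerSeries.coeff n (θ F) = (n : R) * PowerSeries.coeff n F := by
  unfold θ
  rw [PowerSeries.coeff_mk]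

omit h in
lemma θ_mul {R : Type*} [CommRing R] (F G : PowerSeries R) : θ (F * G) = θ F * G + F * θ G := by
  ext n
  rw [coeff_θ, map_add, PowerSeries.coeff_mul, PowerSeries.coeff_mul, PowerSeries.coeff_mul,
    Finset.mul_sum, ← Finset.sum_add_distrib]
  refine Finset.sum_congr rfl fun p hp => ?_
  rw [Finset.HasAntidiagonal.mem_antidiagonal] at hp
  rw [coeff_θ, coeff_θ, ← hp]
  push_cast
  ring

omit h in
lemma map_θ {R S : Type*} [CommRing R] [CommRing S] (φ : R →+* S) (F : PowerSeries R) :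
    PowerSeries.map φ (θ F) = θ (PowerSeries.map φ F) := by
  ext n
  rw [PowerSeries.coeff_map, coeff_θ, coeff_θ, map_mul, map_natCast, PowerSeries.coeff_map]

omit h in
variable (P f) in
/-- generating function of `h` -/
noncomputable def Hs : PowerSeries A := PowerSeries.mk fun n => P.b (f n)

omit h in
variable (P g) in
/-- generating function of `(-1)^n e_n` -/
noncomputable def Es : PowerSeries A := PowerSeries.mk fun n => (-1) ^ n * P.b (g n)

lemma sum_u_zero {m : ℕ} (hm : 1 ≤ m) :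
    ∑ i ∈ Finset.range (m + 1), (-1 : A) ^ i * u P f g m i = 0 := by
  rw [sum_u, h.sg_self hm, mul_zero]

lemma Es_mul_Hs : Es P g * Hs P f = 1 := by
  ext n
  rw [PowerSeries.coeff_mul, PowerSeries.coeff_one,
    Finset.Nat.sum_antidiagonal_eq_sum_range_succ_mk]
  unfold Es Hs
  simp only [PowerSeries.coeff_mk]
  split_ifs with hn
  · subst hn
    simp [h.hf.zero, h.hg.zero, P.b_one]
  · have := h.sum_u_zero (m := n) (by omega)
    unfold u at this
    rw [← this]
    exact Finset.sum_congr rfl fun i _ => by rw [mul_assoc]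

omit h in
variable (P f g) in
/-- generating function of the power sums -/
noncomputable def Ps : PowerSeries A := Es P g * θ (Hs P f)

omit h in
lemma coeff_Ps (n : ℕ) : PowerSeries.coeff n (Ps P f g) = pw P f g n := by
  unfold Ps Es Hs
  rw [PowerSeries.coeff_mul, Finset.Nat.sum_antidiagonal_eq_sum_range_succ_mk, pw_eq]
  refine Finset.sum_congr rfl fun i hi => ?_
  rw [Finset.mem_range] at hi
  rw [coeff_θ, PowerSeries.coeff_mk, PowerSeries.coeff_mk, Nat.cast_sub (by omega)]
  unfold u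
  ring

lemma Ps_mul_Hs : Ps P f g * Hs P f = θ (Hs P f) := by
  unfold Ps
  rw [mul_assoc, mul_comm (θ _), ← mul_assoc, h.Es_mul_Hs, one_mul]

lemma newton {m : ℕ} (hm : 1 ≤ m) :
    (m : A) * P.b (f m) = ∑ j ∈ Finset.Icc 1 m, pw P f g j * P.b (f (m - j)) := by
  have h1 := congrArg (PowerSeries.coeff m) h.Ps_mul_Hs
  rw [coeff_θ, PowerSeries.coeff_mul, Finset.Nat.sum_antidiagonal_eq_sum_range_succ_mk] at h1
  unfold Hs at h1
  simp only [PowerSeries.coeff_mk, coeff_Ps] at h1
  rw [← h1, Finset.range_eq_Ico, Finset.sum_eq_sum_Ico_succ_bot (by omega)]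
  have : pw P f g 0 = 0 := by unfold pw; simp
  rw [this, zero_mul, zero_add]
  rfl

lemma map_Hs : PowerSeries.map P.Δr (Hs P f) =
    PowerSeries.map Algebra.TensorProduct.includeLeftRingHom (Hs P f) *
    PowerSeries.map (Algebra.TensorProduct.includeRight : A →ₐ[ℤ] A ⊗[ℤ] A).toRingHom
      (Hs P f) := by
  ext n
  rw [PowerSeries.coeff_map, PowerSeries.coeff_mul]
  unfold Hs
  simp only [PowerSeries.coeff_mk, PowerSeries.coeff_map]
  rw [Δr_apply, h.hf.coprod h.hr]
  refine Finset.sum_congr rfl fun p _ => ?_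
  show _ = (P.b (f p.1) ⊗ₜ[ℤ] (1 : A)) * ((1 : A) ⊗ₜ[ℤ] P.b (f p.2))
  rw [Algebra.TensorProduct.tmul_mul_tmul, mul_one, one_mul]

lemma Δ_pw (n : ℕ) : P.Δ (pw P f g n) = pw P f g n ⊗ₜ 1 + 1 ⊗ₜ pw P f g n := by
  set L : A →+* A ⊗[ℤ] A := Algebra.TensorProduct.includeLeftRingHom with hL
  set R : A →+* A ⊗[ℤ] A :=
    (Algebra.TensorProduct.includeRight : A →ₐ[ℤ] A ⊗[ℤ] A).toRingHom with hR
  have e1 : PowerSeries.map P.Δr (Ps P f g) * PowerSeries.map P.Δr (Hs P f) =
      (PowerSeries.map L (Ps P f g) + PowerSeries.map R (Ps P f g)) *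
        PowerSeries.map P.Δr (Hs P f) := by
    rw [← map_mul, h.Ps_mul_Hs, map_θ, h.map_Hs, ← hL, ← hR, θ_mul, ← map_θ, ← map_θ,
      ← h.Ps_mul_Hs, map_mul, map_mul]
    ring
  have e2 : PowerSeries.map P.Δr (Es P g) * PowerSeries.map P.Δr (Hs P f) = 1 := by
    rw [← map_mul, h.Es_mul_Hs, map_one]
  have e3 : PowerSeries.map P.Δr (Ps P f g) =
      PowerSeries.map L (Ps P f g) + PowerSeries.map R (Ps P f g) := by
    have := congrArg (fun z => z * PowerSeries.map P.Δr (Es P g)) e1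
    beta_reduce at this
    rw [mul_assoc, mul_assoc, mul_comm (PowerSeries.map P.Δr (Hs P f)), e2, mul_one,
      mul_one] at this
    exact this
  have e4 := congrArg (PowerSeries.coeff n) e3
  rw [map_add, PowerSeries.coeff_map, PowerSeries.coeff_map, PowerSeries.coeff_map,
    coeff_Ps] at e4
  exact e4

lemma prim_pw (n : ℕ) : P.Prim (pw P f g n) := by
  classical
  intro i j hi hj
  rw [inn_eq, ← T_Δ, h.Δ_pw, map_add, Finsupp.add_apply, T_tmul, T_tmul]
  have h1 : ∀ i, i ≠ P.one → P.b.repr 1 i = 0 := by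
    intro i hi
    rw [← P.b_one, ← B_right, P.B_ne (Ne.symm hi)]
  rw [h1 i hi, h1 j hj]
  ring

lemma ne_one_f {n : ℕ} (hn : 1 ≤ n) : f n ≠ P.one := by
  intro h0
  have h1 := h.hf.deg n
  rw [h0, P.deg_one] at h1
  have := h.hr.1
  rcases Nat.mul_eq_zero.mp h1.symm with h2 | h2 <;> omega

lemma ne_one_g {n : ℕ} (hn : 1 ≤ n) : g n ≠ P.one := by
  intro h0
  have h1 := h.hg.deg n
  rw [h0, P.deg_one] at h1
  have := h.hr.1
  rcases Nat.mul_eq_zero.mp h1.symm with h2 | h2 <;> omega

lemma prim_sg {x : A} (hx : P.Prim x) {n t : ℕ} (ht : t < n) :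
    P.B x (sg P f g n t) = (-1) ^ t * P.B x (P.b (f n)) := by
  induction t with
  | zero =>
    show P.B x (u P f g n 0) = _
    unfold u
    rw [h.hg.zero, P.b_one, one_mul, Nat.sub_zero, pow_zero, one_mul]
  | succ t ih =>
    show P.B x (u P f g n (t + 1) - sg P f g n t) = _
    rw [map_sub, ih (by omega)]
    unfold u
    have := hx (g (t + 1)) (f (n - (t + 1))) (h.ne_one_g (by omega)) (h.ne_one_f (by omega))
    rw [inn_eq] at this
    rw [this]
    ring

lemma prim_B_pw {x : A} (hx : P.Prim x) (n : ℕ) :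
    P.B x (pw P f g n) = n * P.B x (P.b (f n)) := by
  unfold pw
  rw [map_sum]
  have : ∀ t ∈ Finset.range n, P.B x ((-1) ^ t * sg P f g n t) = P.B x (P.b (f n)) := by
    intro t ht
    rw [Finset.mem_range] at ht
    have e : ((-1 : A) ^ t * sg P f g n t) = ((-1 : ℤ) ^ t) • sg P f g n t := by
      rw [zsmul_eq_mul]; push_cast; rfl
    rw [e, map_smul, h.prim_sg hx ht, smul_eq_mul, ← mul_assoc, ← mul_pow]
    norm_num
  rw [Finset.sum_congr rfl this, Finset.sum_const, Finset.card_range, nsmul_eq_mul]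

lemma B_pw_f {n : ℕ} (hn : 1 ≤ n) : P.B (pw P f g n) (P.b (f n)) = 1 := by
  have h0 : P.b (f n) = sg P f g n 0 := by
    show _ = u P f g n 0
    unfold u
    rw [h.hg.zero, P.b_one, one_mul, Nat.sub_zero]
  rw [h0]
  unfold pw
  rw [map_sum, LinearMap.sum_apply, Finset.sum_eq_single 0]
  · rw [pow_zero, one_mul, h.B_sg_sg (by omega) (by omega), if_pos rfl]
  · intro t ht ht0
    rw [Finset.mem_range] at ht
    have e : ((-1 : A) ^ t * sg P f g n t) = ((-1 : ℤ) ^ t) • sg P f g n t := by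
      rw [zsmul_eq_mul]; push_cast; rfl
    rw [e, map_smul, LinearMap.smul_apply, h.B_sg_sg ht (by omega), if_neg ht0, smul_zero]
  · intro h1
    exact absurd (Finset.mem_range.mpr (by omega)) h1

lemma deg_of_B {n t : ℕ} (ht : t ≤ n) {i : I} (hi : P.B (sg P f g n t) (P.b i) ≠ 0) :
    P.deg i = n * P.deg r := by
  have hu : ∀ a ≤ n, P.B (u P f g n a) (P.b i) ≠ 0 → P.deg i = n * P.deg r := by
    intro a ha hne
    unfold u at hne
    rw [B_right, repr_mul] at hne
    have h1 : P.c (g a) (f (n - a)) i ≠ 0 := by exact_mod_cast hne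
    rw [P.c_deg _ _ _ h1, h.hg.deg, h.hf.deg, ← add_mul]
    congr 1
    omega
  induction t with
  | zero => exact hu 0 (by omega) hi
  | succ t ih =>
    by_cases h1 : P.B (sg P f g n t) (P.b i) = 0
    · apply hu (t + 1) ht
      intro h2
      apply hi
      show P.B (u P f g n (t + 1) - sg P f g n t) (P.b i) = 0
      rw [map_sub, LinearMap.sub_apply, h1, h2, sub_zero]
    · exact ih (by omega) h1

lemma D_r_sg {n t : ℕ} (ht : t < n) :
    P.D (P.b r) (sg P f g n t) = P.b (g t) * P.b (f (n - 1 - t)) := by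
  induction t with
  | zero =>
    show P.D (P.b r) (u P f g n 0) = _
    unfold u
    rw [h.hg.zero, P.b_one, one_mul, one_mul, h.D_r_f, if_pos (by omega)]
    rfl
  | succ t ih =>
    show P.D (P.b r) (u P f g n (t + 1) - sg P f g n t) = _
    rw [map_sub, ih (by omega)]
    unfold u
    rw [h.hr.D_mul, h.D_r_f, h.D_r_g, if_pos (by omega), if_pos (by omega),
      show t + 1 - 1 = t by omega, show n - (t + 1) = n - 1 - t by omega,
      show n - 1 - t - 1 = n - 1 - (t + 1) by omega]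
    ring

lemma gf_ne_zero (a b : ℕ) : P.b (g a) * P.b (f b) ≠ 0 := by
  intro h0
  by_cases hn : 1 ≤ a + b
  · have := h.gram a b a b rfl hn
    rw [h0, map_zero, if_pos rfl] at this
    split_ifs at this <;> omega
  · have ha : a = 0 := by omega
    have hb : b = 0 := by omega
    subst ha hb
    rw [h.hg.zero, h.hf.zero, P.b_one, mul_one, ← P.b_one] at h0
    exact b_ne_zero _ h0

lemma D_other_sg {r' : I} (hr' : P.PrimIdx r') (hne : r' ≠ r) (n t : ℕ) :
    P.D (P.b r') (sg P f g n t) = 0 := by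
  have key : ∀ (F : ℕ → I), P.HSeq r F → ∀ n, P.D (P.b r') (P.b (F n)) = 0 := by
    intro F hF n
    by_contra h0
    obtain ⟨j, hj, hje⟩ := hF.D_other h.hr h0
    rcases j with _ | _ | j
    · rw [hF.zero] at hje
      exact hr'.ne_one hje
    · rw [zero_add, hF.one] at hje
      exact hne hje
    · have h1 : P.c r (F (j + 1)) r' ≠ 0 := by
        intro h2
        have := P.c_eq_B r (F (j + 1)) r'
        rw [h2, hje, hF.der, B_self_one] at this
        norm_num at this
      rcases hr'.2 _ _ h1 with h2 | h2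
      · exact h.hr.ne_one h2
      · have h3 := hF.deg (j + 1)
        rw [h2, P.deg_one] at h3
        have := h.hr.1
        rcases Nat.mul_eq_zero.mp h3.symm with h4 | h4 <;> omega
  have hu : ∀ a, P.D (P.b r') (u P f g n a) = 0 := by
    intro a
    unfold u
    rw [hr'.D_mul, key g h.hg, key f h.hf, zero_mul, mul_zero, add_zero]
  induction t with
  | zero => exact hu 0
  | succ t ih =>
    show P.D (P.b r') (u P f g n (t + 1) - sg P f g n t) = 0
    rw [map_sub, hu, ih, sub_zero]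

end HPair

/-- PSH2 -/
theorem hooks_proof {r : I} (hr : P.PrimIdx r) {i₂ : I} (h2 : P.c r r i₂ ≠ 0) :
    ∃ (h e p : ℕ → A) (s : ℕ → ℕ → A),
      h 0 = 1 ∧ e 0 = 1 ∧ h 1 = P.b r ∧ h 2 = P.b i₂
      ∧ (∀ m, ∃ i, h m = P.b i ∧ P.deg i = m * P.deg r)
      ∧ (∀ m, 1 ≤ m → ∑ i ∈ Finset.range (m + 1), (-1) ^ i * e i * h (m - i) = 0)
      ∧ (∀ m : ℕ, 1 ≤ m → (m : A) * h m = ∑ j ∈ Finset.Icc 1 m, p j * h (m - j))
      ∧ (∀ m t, t < m → s m t = ∑ i ∈ Finset.range (t + 1), (-1) ^ i * e (t - i) * h (m - t + i))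
      ∧ (∀ m, 1 ≤ m → p m = ∑ t ∈ Finset.range m, (-1) ^ t * s m t)
      ∧ (∀ m, 1 ≤ m → P.Prim (p m))
      ∧ (∀ m, 1 ≤ m → P.inn (p m) (p m) = m)
      ∧ (∀ m x, 1 ≤ m → P.Prim x → P.inn x (p m) = m * P.inn x (h m))
      ∧ (∀ m t, t < m → ∃ (i : I) (ε : ℤ), (ε = 1 ∨ ε = -1) ∧ s m t = ε • P.b i
          ∧ P.deg i = m * P.deg r ∧ (∃ j, P.c r j i ≠ 0)
          ∧ ∀ r', P.PrimIdx r' → r' ≠ r → ∀ j, P.c r' j i = 0)
      ∧ (∀ m t t', t < m → t' < m → P.inn (s m t) (s m t') = if t = t' then 1 else 0) := by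
  classical
  -- the two constituents of `ρ²`
  obtain ⟨j₂, hne, hsq⟩ : ∃ j₂, i₂ ≠ j₂ ∧ P.b r * P.b r = P.b i₂ + P.b j₂ := by
    obtain ⟨i, j, hij, hs⟩ := sq_proof hr
    have h3 := P.repr_mul r r i₂
    rw [hs, ← B_right, map_add, LinearMap.add_apply] at h3
    by_cases h4 : i = i₂
    · subst h4
      exact ⟨j, hij, hs⟩
    · by_cases h5 : j = i₂
      · subst h5
        exact ⟨i, hij.symm, by rw [hs, add_comm]⟩
      · rw [P.B_ne h4, P.B_ne h5] at h3
        exfalso
        apply h2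
        have : ((P.c r r i₂ : ℕ) : ℤ) = 0 := by rw [← h3]; norm_num
        exact_mod_cast this
  obtain ⟨f, hf0, hf1, hf2, hfd, hfa⟩ := hr.exists_seq hne hsq
  obtain ⟨g, hg0, hg1, hg2, hgd, hga⟩ := hr.exists_seq hne.symm (by rw [hsq, add_comm])
  have hf : P.HSeq r f := ⟨hf0, hf1, hfd⟩
  have hg : P.HSeq r g := ⟨hg0, hg1, hgd⟩
  have h : P.HPair r f g := by
    refine ⟨hr, hf, hg, ?_⟩
    intro n hn heq
    obtain ⟨d, rfl⟩ : ∃ d, n = d + 2 := ⟨n - 2, by omega⟩
    have e1 := hf.D_pow 2 d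
    rw [pow_two, hsq, D_add, hfa, add_zero, heq, hga] at e1
    exact b_ne_zero _ e1.symm
  refine ⟨fun n => P.b (f n), fun n => P.b (g n), HPair.pw P f g, HPair.sg P f g, ?_, ?_, ?_, ?_,
    ?_, ?_, ?_, ?_, ?_, ?_, ?_, ?_, ?_, ?_⟩
  · show P.b (f 0) = 1
    rw [hf0, P.b_one]
  · show P.b (g 0) = 1
    rw [hg0, P.b_one]
  · show P.b (f 1) = P.b r
    rw [hf1]
  · show P.b (f 2) = P.b i₂
    rw [hf2]
  · intro m
    exact ⟨f m, rfl, hf.deg m⟩
  · intro m hm
    have := h.sum_u_zero hm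
    unfold HPair.u at this
    rw [← this]
    exact Finset.sum_congr rfl fun i _ => by rw [mul_assoc]
  · intro m hm
    exact h.newton hm
  · intro m t ht
    exact HPair.sg_eq ht.le
  · intro m hm
    rfl
  · intro m hm
    exact h.prim_pw m
  · intro m hm
    rw [inn_eq, h.prim_B_pw (h.prim_pw m), h.B_pw_f hm, mul_one]
  · intro m x hm hx
    rw [inn_eq, inn_eq, h.prim_B_pw hx]
  · intro m t ht
    have n1 : P.B (HPair.sg P f g m t) (HPair.sg P f g m t) = 1 := by
      rw [h.B_sg_sg ht ht, if_pos rfl]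
    obtain ⟨i, ε, hε, hs⟩ := P.norm_one n1
    have hε0 : ε ≠ 0 := by rcases hε with rfl | rfl <;> norm_num
    refine ⟨i, ε, hε, hs, ?_, ?_, ?_⟩
    · apply h.deg_of_B ht.le
      rw [hs, map_smul, LinearMap.smul_apply, B_self_one, smul_eq_mul, mul_one]
      exact hε0
    · by_contra hcon
      push Not at hcon
      have e1 : P.D (P.b r) (P.b i) = 0 := by
        apply P.ext_B
        intro j
        rw [← c_eq_B, hcon j, map_zero, LinearMap.zero_apply, Nat.cast_zero]
      have e2 := h.D_r_sg ht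
      rw [hs, map_smul, e1, smul_zero] at e2
      exact h.gf_ne_zero _ _ e2.symm
    · intro r' hr' hne' j
      have e1 := h.D_other_sg hr' hne' m t
      rw [hs, map_smul] at e1
      have e2 : P.D (P.b r') (P.b i) = 0 := by
        rcases hε with rfl | rfl
        · rwa [one_smul] at e1
        · rwa [neg_smul, one_smul, neg_eq_zero] at e1
      have e3 := P.c_eq_B r' j i
      rw [e2, map_zero, LinearMap.zero_apply] at e3
      exact_mod_cast e3
  · intro m t t' ht ht'
    rw [inn_eq, h.B_sg_sg ht ht']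

end PSH
end Pool.Agent.REll

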