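import Pool.Agent.Lib_helper41.Partition

/-!
L1 in final form and L2: regularity of the relative modules `M_S^W`.
-/

set_option autoImplicit false

namespace Pool.Agent.RelH

open Finset MvPolynomial

section Transfer

variable {R : Type*} [CommRing R] {T : Type*} [AddCommGroup T] [Module R T]

/-- `LL` for ideals in the form used in `RegAB` -/
theorem LL_eq (θ : ℕ → R) (A B : Ideal R) (j : ℕ) :
    LL θ A B j = B ⊔ Ideal.span (θ '' Set.Iio j) * A := by
  induction j with
  | zero =>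
    have : Set.Iio 0 = (∅ : Set ℕ) := by ext x; simp
    simp [LL, this]
  | succ j ih =>
    have h1 : Set.Iio (j + 1) = insert j (Set.Iio j) := by
      ext x; simp only [Set.mem_Iio, Set.mem_insert_iff]; omega
    have h2 : Submodule.map (LinearMap.lsmul R R (θ j)) A = Ideal.span {θ j} * A := by
      ext x
      rw [Ideal.mem_span_singleton_mul, Submodule.mem_map]
      rfl
    rw [LL, ih, h1, Set.image_insert_eq, Ideal.span_insert, Ideal.sup_mul, h2, sup_assoc,
      sup_comm (Ideal.span {θ j} * A)]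

theorem regR_iff_regAB (θ : ℕ → R) (k : ℕ) (A B : Ideal R) :
    RegR (T := R) θ k A B ↔ RegAB θ k A B := by
  unfold RegR RegAB
  simp only [LL_eq, smul_eq_mul]

/-- depth lemma inside one module: `B ≤ C ≤ A` -/
theorem depth_chain {θ : ℕ → R} {k : ℕ} {A B C : Submodule R T} (hBC : B ≤ C) (hCA : C ≤ A)
    (h1 : RegR θ (k + 1) A B) (h2 : RegR θ k A C) : RegR θ (k + 1) C B := by
  have claim : ∀ j ≤ k, ∀ x ∈ C, x ∈ LL θ A B j → x ∈ LL θ C B j := by
    intro j
    induction j with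
    | zero => intro _ x _ hx; exact hx
    | succ j ih =>
      intro hj x hxC hx
      obtain ⟨y, hy, m, hm, rfl⟩ := mem_LL_succ.1 hx
      have h3 : θ j • m ∈ LL θ A C j := by
        have : θ j • m = (y + θ j • m) - y := by abel
        rw [this]
        exact Submodule.sub_mem _ (B_le_LL j hxC) (LL_mono hBC le_rfl j hy)
      have h4 := h2 j (by omega) m hm h3
      -- m = c + m' with c ∈ C, m' ∈ LL θ A B j
      have hsplit : ∀ i, ∀ z ∈ LL θ A C i, ∃ m' ∈ LL θ A B i, z - m' ∈ C := by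
        intro i
        induction i with
        | zero => intro z hz; exact ⟨0, Submodule.zero_mem _, by rw [sub_zero]; exact hz⟩
        | succ i ihi =>
          intro z hz
          obtain ⟨z0, hz0, a, ha, rfl⟩ := mem_LL_succ.1 hz
          obtain ⟨m', hm', hm''⟩ := ihi z0 hz0
          refine ⟨m' + θ i • a, mem_LL_succ.2 ⟨m', hm', a, ha, rfl⟩, ?_⟩
          have : z0 + θ i • a - (m' + θ i • a) = z0 - m' := by abel
          rwa [this]
      obtain ⟨m', hm', hm''⟩ := hsplit j m h4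
      have h6 : y + θ j • m' ∈ LL θ A B j := Submodule.add_mem _ hy (Submodule.smul_mem _ _ hm')
      have h7 : y + θ j • m' ∈ C := by
        have : y + θ j • m' = (y + θ j • m) - θ j • (m - m') := by rw [smul_sub]; abel
        rw [this]
        exact Submodule.sub_mem _ hxC (Submodule.smul_mem _ _ hm'')
      refine mem_LL_succ.2 ⟨_, ih (by omega) _ h7 h6, m - m', hm'', ?_⟩
      rw [smul_sub]; abel
  intro j hj x hx hθ
  exact claim j (by omega) x hx (h1 j hj x (hCA hx) (LL_mono le_rfl hCA j hθ))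

/-- second isomorphism theorem -/
theorem reg_second {θ : ℕ → R} {k : ℕ} {A I A' C : Submodule R T} (hA' : A' = A ⊔ I)
    (hC : C = A ⊓ I) (h : RegR θ k A' I) : RegR θ k A C := by
  subst hA' hC
  have key : ∀ j, ∀ z ∈ LL θ (A ⊔ I) I j, ∃ t ∈ LL θ A (A ⊓ I) j, z - t ∈ I := by
    intro j
    induction j with
    | zero => intro z hz; exact ⟨0, Submodule.zero_mem _, by rw [sub_zero]; exact hz⟩
    | succ j ih =>
      intro z hz
      obtain ⟨y, hy, m, hm, rfl⟩ := mem_LL_succ.1 hz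
      obtain ⟨t, ht, ht'⟩ := ih y hy
      obtain ⟨a, ha, b, hb, rfl⟩ := Submodule.mem_sup.1 hm
      refine ⟨t + θ j • a, mem_LL_succ.2 ⟨t, ht, a, ha, rfl⟩, ?_⟩
      have : y + θ j • (a + b) - (t + θ j • a) = (y - t) + θ j • b := by rw [smul_add]; abel
      rw [this]
      exact Submodule.add_mem _ ht' (Submodule.smul_mem _ _ hb)
  intro j hj x hx hθ
  have h1 := h j hj x (Submodule.mem_sup_left hx) (LL_mono inf_le_right le_sup_left j hθ)
  obtain ⟨t, ht, ht'⟩ := key j x h1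
  have h2 : t ∈ A := LL_le inf_le_left le_rfl j ht
  have h3 : x - t ∈ A ⊓ I := ⟨Submodule.sub_mem _ hx h2, ht'⟩
  have : x = (x - t) + t := by abel
  rw [this]
  exact Submodule.add_mem _ (B_le_LL j h3) ht

end Transfer

variable {n : ℕ} {F : Type*} [Field F]

/-- (L1) -/
theorem cm_reg [CharP F 2] (c : ℕ → Fin n → F) (K : Finset (Finset (Fin n))) (hdown : Down K)
    (hempty : ∅ ∈ K) (m : ℕ) (hlink : LinkAc K m) (hnd : NonDeg c K (m + 1))
    (h : ∀ s t, s ∉ K → s ⊆ t → t ∉ K) :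
    RegAB (lf c) (m + 1) ⊤ (famI F (fun s => s ∉ K) h) := by
  rw [← regR_iff_regAB]
  have h1 := cm_regR m c K hdown hempty hlink hnd ∅ hempty
  have h2 : starI F K hdown ∅ = famI F (fun s => s ∉ K) h := by
    unfold starI
    refine le_antisymm (famI_mono ?_) (famI_mono ?_)
    · intro s hs; rwa [Finset.union_empty] at hs
    · intro s hs; rwa [Finset.union_empty]
  rwa [h2] at h1

/-- membership of a sum of two `famI`s -/
theorem famI_sup {N N' N'' : Finset (Fin n) → Prop} {hN : ∀ s t, N s → s ⊆ t → N t}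
    {hN' : ∀ s t, N' s → s ⊆ t → N' t} {hN'' : ∀ s t, N'' s → s ⊆ t → N'' t}
    (h : ∀ s, N'' s ↔ N s ∨ N' s) : famI F N'' hN'' = famI F N hN ⊔ famI F N' hN' := by
  classical
  refine le_antisymm ?_ (sup_le (famI_mono fun s hs => (h s).2 (Or.inl hs))
    (famI_mono fun s hs => (h s).2 (Or.inr hs)))
  intro f hf
  rw [f.as_sum]
  refine Submodule.sum_mem _ fun a ha => ?_
  rcases (h _).1 (hf a ha) with h1 | h1
  · exact Submodule.mem_sup_left (monomial_mem_famI h1)
  · exact Submodule.mem_sup_right (monomial_mem_famI h1)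

theorem famI_inf {N N' N'' : Finset (Fin n) → Prop} {hN : ∀ s t, N s → s ⊆ t → N t}
    {hN' : ∀ s t, N' s → s ⊆ t → N' t} {hN'' : ∀ s t, N'' s → s ⊆ t → N'' t}
    (h : ∀ s, N'' s ↔ N s ∧ N' s) : famI F N'' hN'' = famI F N hN ⊓ famI F N' hN' := by
  ext f
  rw [Submodule.mem_inf, mem_famI, mem_famI, mem_famI]
  constructor
  · intro hf
    exact ⟨fun a ha => ((h _).1 (hf a ha)).1, fun a ha => ((h _).1 (hf a ha)).2⟩
  · rintro ⟨h1, h2⟩ a ha
    exact (h _).2 ⟨h1 a ha, h2 a ha⟩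

section Rel

variable {d : ℕ} (Γ : Finset (Finset (Fin n))) (σ : Finset (Fin n) → Finset (Fin d))

theorem upB (hdown : ∀ G ∈ Γ, ∀ H : Finset (Fin n), H ⊆ G → H ∈ Γ)
    (hmono : ∀ G ∈ Γ, ∀ H : Finset (Fin n), H ⊆ G → σ H ⊆ σ G) (W : Finset (Fin d)) :
    ∀ s t : Finset (Fin n), ¬(s ∈ Γ ∧ σ s ⊆ W) → s ⊆ t → ¬(t ∈ Γ ∧ σ t ⊆ W) := by
  rintro s t h hst ⟨h1, h2⟩
  exact h ⟨hdown t h1 s hst, (hmono t h1 s hst).trans h2⟩

theorem upA (hdown : ∀ G ∈ Γ, ∀ H : Finset (Fin n), H ⊆ G → H ∈ Γ)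
    (hmono : ∀ G ∈ Γ, ∀ H : Finset (Fin n), H ⊆ G → σ H ⊆ σ G) (W S : Finset (Fin d)) :
    ∀ s t : Finset (Fin n), (s ∈ Γ → σ s ⊆ W → S ⊆ σ s) → s ⊆ t → (t ∈ Γ → σ t ⊆ W → S ⊆ σ t) := by
  intro s t h hst h1 h2
  exact (h (hdown t h1 s hst) ((hmono t h1 s hst).trans h2)).trans (hmono t h1 s hst)

/-- (L2) -/
theorem rel_reg (hdown : ∀ G ∈ Γ, ∀ H : Finset (Fin n), H ⊆ G → H ∈ Γ)
    (hmono : ∀ G ∈ Γ, ∀ H : Finset (Fin n), H ⊆ G → σ H ⊆ σ G) (c : ℕ → Fin n → F)
    (h : ∀ W : Finset (Fin d), RegAB (lf c) W.card ⊤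
      (famI F (fun s => ¬(s ∈ Γ ∧ σ s ⊆ W)) (upB Γ σ hdown hmono W))) :
    ∀ S W : Finset (Fin d), S ⊆ W → RegAB (lf c) W.card
      (famI F (fun s => s ∈ Γ → σ s ⊆ W → S ⊆ σ s) (upA Γ σ hdown hmono W S))
      (famI F (fun s => ¬(s ∈ Γ ∧ σ s ⊆ W)) (upB Γ σ hdown hmono W)) := by
  intro S
  induction S using Finset.induction_on with
  | empty =>
    intro W _
    have : famI F (fun s => s ∈ Γ → σ s ⊆ W → (∅ : Finset (Fin d)) ⊆ σ s)
        (upA Γ σ hdown hmono W ∅) = ⊤ := by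
      rw [eq_top_iff]
      intro f _ a _
      simp
    rw [this]
    exact h W
  | insert v S hvS ih =>
    intro W hSW
    have hvW : v ∈ W := hSW (Finset.mem_insert_self v S)
    have hSW' : S ⊆ W := (Finset.subset_insert v S).trans hSW
    have hSv : S ⊆ W.erase v := by
      intro x hx
      exact Finset.mem_erase.2 ⟨fun e => hvS (e ▸ hx), hSW' hx⟩
    have hcard : W.card = (W.erase v).card + 1 := by
      rw [Finset.card_erase_of_mem hvW]
      have := Finset.card_pos.2 ⟨v, hvW⟩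
      omega
    have h1 := (regR_iff_regAB _ _ _ _).2 (ih W hSW')
    have h2 := (regR_iff_regAB _ _ _ _).2 (ih (W.erase v) hSv)
    rw [← regR_iff_regAB]
    rw [hcard] at h1 ⊢
    refine depth_chain (A := famI F (fun s => s ∈ Γ → σ s ⊆ W → S ⊆ σ s)
      (upA Γ σ hdown hmono W S)) ?_ ?_ h1 ?_
    · exact famI_mono fun s hs h3 h4 => absurd ⟨h3, h4⟩ hs
    · exact famI_mono fun s hs h3 h4 => (Finset.subset_insert v S).trans (hs h3 h4)
    · refine reg_second ?_ ?_ h2
      · refine famI_sup fun s => ?_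
        constructor
        · intro h3
          by_cases h4 : s ∈ Γ ∧ σ s ⊆ W.erase v
          · exact Or.inl fun _ _ => h3 h4.1 h4.2
          · exact Or.inr h4
        · rintro (h3 | h3) h4 h5
          · exact h3 h4 (h5.trans (Finset.erase_subset _ _))
          · exact absurd ⟨h4, h5⟩ h3
      · refine famI_inf fun s => ?_
        constructor
        · intro h3
          refine ⟨fun h4 h5 => (Finset.subset_insert v S).trans (h3 h4 h5), ?_⟩
          rintro ⟨h4, h5⟩
          have h6 := h3 h4 (h5.trans (Finset.erase_subset _ _)) (Finset.mem_insert_self v S)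
          exact absurd (h5 h6) (Finset.notMem_erase v W)
        · rintro ⟨h3, h4⟩ h5 h6
          refine Finset.insert_subset ?_ (h3 h5 h6)
          by_contra hv
          exact h4 ⟨h5, fun x hx => Finset.mem_erase.2 ⟨fun e => hv (e ▸ hx), h6 hx⟩⟩

end Rel

end Pool.Agent.RelH
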